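import Pool.Agent.H83.TU.Base

/-!
# THEOREM U (MP_e49dc9_ag): smooth points

`SmP X`: the differentials of three elements of the local ring span the module of differentials over `k`, at every
point.
-/

set_option autoImplicit false

namespace Pool.Agent.H20.TU

open Pool.Agent.H54.RV

variable {k K : Type} [Field k] [Field K] [Algebra k K]

/-- the local rings are smooth of dimension `3` over `k` -/
def SmP (X : Mod k K) : Prop :=
  ∀ x : X.P, ∃ c : Fin 3 → X.O x,
    Submodule.span (X.O x) (Set.range fun i => KaehlerDifferential.D k (X.O x) (c i)) = ⊤

end Pool.Agent.H20.TU
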