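import Pool.Agent.H20.TU.SMA
import Pool.Agent.H54.RV.S8

/-!
# THEOREM U (MP_e49dc9_ag): smooth schemes

`smP_mdl`: the space of the local rings of an integral scheme, proper and smooth over `ℂ`, with function field of
transcendence degree `3`, satisfies `SmP`; `fac_mdl`: its local rings are factorial.
-/

set_option autoImplicit false

open AlgebraicGeometry CategoryTheory Pool.Agent.H54.RV Pool.Agent.H83.TU

namespace Pool.Agent.H20.TU

variable {Y : Scheme.{0}} [IsIntegral Y] (f : Y ⟶ Spec (.of ℂ))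

/-- the map from `ℂ` to the functions on `V` -/
noncomputable def cVs (V : Y.Opens) : ℂ →+* Γ(Y, V) :=
  ((Scheme.ΓSpecIso (.of ℂ)).inv ≫ f.appLE ⊤ V le_top).hom

omit [IsIntegral Y] in
theorem cVs_smooth [Smooth f] (V : Y.Opens) (hV : IsAffineOpen V) : (cVs f V).Smooth := by
  have h1 : (f.appLE ⊤ V le_top).hom.Smooth := f.smooth_appLE (isAffineOpen_top _) hV le_top
  unfold cVs
  rw [CommRingCat.hom_comp]
  exact (RingHom.Smooth.respectsIso).2 (f.appLE ⊤ V le_top).hom
    (Scheme.ΓSpecIso (.of ℂ)).symm.commRingCatIsoToRingEquiv h1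

theorem gK_cVs (V : Y.Opens) [Nonempty V] (c : ℂ) :
    gK f V (cVs f V c) = algebraMap ℂ (FF f) c := by
  have h1 : Y.presheaf.map (homOfLE (le_top : V ≤ ⊤)).op ≫ Y.germToFunctionField V =
      Y.presheaf.germ ⊤ (genericPoint Y) (TopologicalSpace.Opens.mem_top _) :=
    Y.presheaf.germ_res (homOfLE (le_top : V ≤ ⊤)) _ _
  have h2 : (Scheme.ΓSpecIso (.of ℂ)).inv ≫ f.appLE ⊤ V le_top ≫ Y.germToFunctionField V =
      (Scheme.ΓSpecIso (.of ℂ)).inv ≫ f.appTop ≫
        Y.presheaf.germ ⊤ (genericPoint Y) (TopologicalSpace.Opens.mem_top _) := by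
    rw [← h1]
    simp only [Scheme.Hom.appLE, Category.assoc]
    rfl
  exact congrArg (fun g => g.hom c) h2

theorem sec_smooth [Smooth f] (U : Set (mdl f).P) (hU : (mdl f).aff U) (hne : U.Nonempty) :
    Algebra.FormallySmooth ℂ ((mdl f).sec U) := by
  obtain ⟨V, hV, rfl⟩ := hU
  have : Nonempty V := by
    obtain ⟨x, hx⟩ := hne
    exact ⟨⟨x, hx⟩⟩
  let _ : Algebra ℂ Γ(Y, V) := (cVs f V).toAlgebra
  have hsm : Algebra.Smooth ℂ Γ(Y, V) := cVs_smooth f V hV
  have hfs : Algebra.FormallySmooth ℂ Γ(Y, V) := inferInstance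
  let φ : Γ(Y, V) →ₐ[ℂ] FF f := { gK f V with commutes' := fun c => gK_cVs f V c }
  have hφ : Function.Injective φ := gK_inj f V
  have hr : φ.range = (mdl f).sec (V : Set Y) := by
    ext a
    rw [AlgHom.mem_range]
    have h1 : a ∈ (mdl f).sec (V : Set Y) ↔ ∀ x ∈ V, a ∈ locA f x := by
      simp only [Mod.sec, Algebra.mem_iInf]
      rfl
    rw [h1, sec_aff f V hV]
    rfl
  rw [← hr]
  exact Algebra.FormallySmooth.of_equiv (AlgEquiv.ofInjective φ hφ)

/-- a generic point of the space of the local rings -/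
theorem gen_mdl' : ∃ g, Gen (mdl f) g := by
  refine ⟨genericPoint Y, ?_, fun x => (genericPoint_spec Y).specializes (Set.mem_univ x)⟩
  rw [eq_top_iff]
  intro a _
  refine ⟨(show Y.presheaf.stalk (genericPoint Y) from a), ?_⟩
  have h1 := Y.presheaf.stalkSpecializes_refl (genericPoint Y)
  exact congrArg (fun g => g.hom (show Y.presheaf.stalk (genericPoint Y) from a)) h1

theorem smP_mdl [IsProper f] [Smooth f] (htr : Algebra.trdeg ℂ (FF f) = 3) : SmP (mdl f) :=
  smP_of (isVar_mdl f) (gen_mdl' f) htr (sec_smooth f)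

theorem fac_mdl [IsProper f] [Smooth f] (htr : Algebra.trdeg ℂ (FF f) = 3) (x : Y) :
    UniqueFactorizationMonoid ((mdl f).O x) :=
  fac (isVar_mdl f) (gen_mdl' f) htr (smP_mdl f htr) x

/-- the standing hypotheses hold for smooth threefolds, proper over `ℂ`, with an ample divisor -/
theorem hyp_smooth [IsProper f] [Smooth f] (htr : Algebra.trdeg ℂ (FF f) = 3)
    (hA : ∃ D : Cart (mdl f), Ample D) : Hyp (mdl f) where
  var := isVar_mdl f
  gen := gen_mdl' f
  ufd := fac_mdl f htr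
  amp := hA
  tr := htr

end Pool.Agent.H20.TU
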