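import Pool.Agent.H20.TU.FA6

/-!
# THEOREM U (MP_e49dc9_ag): factoriality of smooth local rings, part 7

`fac`: if `SmP X` and `trdeg K = 3` then all local rings of `X` are factorial (Auslander and Buchsbaum, by projections
to affine space).
-/

set_option autoImplicit false

open MvPolynomial Pool.Agent.H54.RV Pool.Agent.H83.TU

namespace Pool.Agent.H20.TU

theorem min_one {S : Type} [CommRing S] [IsDomain S] [IsNoetherianRing S] (z : S) (q : Ideal S) [q.IsPrime]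
    (hq : q ∈ (Ideal.span {z}).minimalPrimes) (Q : Ideal S) [Q.IsPrime] (hQ0 : Q ≠ ⊥) (hle : Q ≤ q) : Q = q := by
  by_contra hne
  have hlt := lt_of_le_of_ne hle hne
  have hpr : (Ideal.span {z}).IsPrincipal := ⟨⟨z, rfl⟩⟩
  have h1 : q.height ≤ 1 := Ideal.height_le_one_of_isPrincipal_of_mem_minimalPrimes _ _ hq
  have h2 := Ideal.height_add_one_le_of_lt_of_isPrime hlt
  have h3 : 1 ≤ Q.height := Order.one_le_iff_ne_zero.2 (fun h => hQ0 (Ideal.height_eq_zero_iff_eq_bot.1 h))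
  have h4 : (1 : ℕ∞) + 1 ≤ 1 := (add_le_add_left h3 1).trans (h2.trans h1)
  exact absurd h4 (by decide)

theorem trdeg_quot {k S : Type} [Field k] [CommRing S] [IsDomain S] [Algebra k S] [Algebra.FiniteType k S]
    (htr : Algebra.trdeg k S = 3) (q : Ideal S) [hqp : q.IsPrime] (hq0 : q ≠ ⊥)
    (hmin : ∀ Q : Ideal S, Q.IsPrime → Q ≠ ⊥ → Q ≤ q → Q = q) : 2 ≤ Algebra.trdeg k (S ⧸ q) := by
  have hqd : IsDomain (S ⧸ q) := Ideal.Quotient.isDomain q
  obtain ⟨s, g, hginj, hgint⟩ := exists_integral_inj_algHom_of_fg k S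
  have hs : s = 3 := by
    have h1 := trdeg_of_int g hginj hgint
    rw [MvPolynomial.trdeg_of_isDomain, htr] at h1
    simp at h1
    exact_mod_cast h1
  subst hs
  let _ : Algebra (MvPolynomial (Fin 3) k) S := g.toRingHom.toAlgebra
  have hfs : FaithfulSMul (MvPolynomial (Fin 3) k) S := (faithfulSMul_iff_algebraMap_injective _ _).2 hginj
  have hint2 : Algebra.IsIntegral (MvPolynomial (Fin 3) k) S := ⟨hgint⟩
  let q0 : Ideal (MvPolynomial (Fin 3) k) := q.under (MvPolynomial (Fin 3) k)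
  have hq0ne : q0 ≠ ⊥ := by
    obtain ⟨c, hc, hc0⟩ := Submodule.exists_mem_ne_zero_of_ne_bot hq0
    exact Ideal.comap_ne_bot_of_integral_mem hc0 hc (Algebra.IsIntegral.isIntegral c)
  have hq0p : q0.IsPrime := Ideal.IsPrime.under _ _
  obtain ⟨Ψ, hΨq, hΨ⟩ := hq0p.exists_mem_prime_of_ne_bot hq0ne
  have hsp : (Ideal.span {Ψ}).IsPrime := (Ideal.span_singleton_prime hΨ.ne_zero).2 hΨ
  have hspan : Ideal.span {Ψ} = q0 := by
    have hle : Ideal.span {Ψ} ≤ q0 := (Ideal.span_singleton_le_iff_mem _).2 hΨq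
    by_contra hne
    have hlt : Ideal.span {Ψ} < q0 := lt_of_le_of_ne hle hne
    obtain ⟨Q, hQle, hQp, hQo⟩ := Algebra.HasGoingDown.exists_ideal_le_liesOver_of_lt (p := Ideal.span {Ψ}) q hlt
    have hQ0 : Q ≠ ⊥ := by
      intro hbot
      have h1 : Ideal.span {Ψ} = Q.under _ := hQo.over
      have h2 : Ψ ∈ Q.under (MvPolynomial (Fin 3) k) := by rw [← h1]; exact Ideal.mem_span_singleton_self Ψ
      rw [hbot] at h2
      have h3 : algebraMap (MvPolynomial (Fin 3) k) S Ψ = 0 := h2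
      exact hΨ.ne_zero (hginj (h3.trans (map_zero g).symm))
    have hQe := hmin Q hQp hQ0 hQle
    apply hne
    have h1 : Ideal.span {Ψ} = Q.under _ := hQo.over
    rw [h1, hQe]
  obtain ⟨y, hy⟩ := hyper_indep Ψ hΨ
  let f : (MvPolynomial (Fin 3) k ⧸ Ideal.span {Ψ}) →ₐ[k] S ⧸ q :=
    Ideal.Quotient.liftₐ (Ideal.span {Ψ}) ((Ideal.Quotient.mkₐ k q).comp g) (fun a ha => by
      rw [hspan] at ha
      exact Ideal.Quotient.eq_zero_iff_mem.2 ha)
  have hf : Function.Injective f := by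
    rw [injective_iff_map_eq_zero]
    intro z hz
    obtain ⟨a, rfl⟩ := Ideal.Quotient.mk_surjective z
    rw [Ideal.Quotient.eq_zero_iff_mem, hspan]
    have h1 : Ideal.Quotient.mk q (g a) = 0 := hz
    have h2 : g a ∈ q := Ideal.Quotient.eq_zero_iff_mem.1 h1
    exact h2
  have h1 := (hy.map' hf).cardinalMk_le_trdeg
  rw [Cardinal.mk_fin] at h1
  exact_mod_cast h1

variable {k K : Type} [Field k] [Field K] [Algebra k K] {X : Mod k K}

theorem trdeg_sec (hX : IsVar X) (hg : ∃ g, Gen X g) (U : Set X.P) (hU : X.aff U) (hne : U.Nonempty) :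
    Algebra.trdeg k (X.sec U) = Algebra.trdeg k K := by
  have halg : Algebra.IsAlgebraic (X.sec U) K := by
    refine ⟨fun z => ?_⟩
    obtain ⟨c, hc, hc0, hzc⟩ := sec_frac hX hg U hU hne z
    have h1 : IsAlgebraic (X.sec U) c := isAlgebraic_algebraMap (⟨c, hc⟩ : X.sec U)
    have h2 : IsAlgebraic (X.sec U) (z * c) := isAlgebraic_algebraMap (⟨_, hzc⟩ : X.sec U)
    have h3 := h2.mul h1.inv
    rwa [mul_assoc, mul_inv_cancel₀ hc0, mul_one] at h3
  have h1 := trdeg_add_eq k (X.sec U) (A := K)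
  rwa [trdeg_eq_zero (R := X.sec U) (A := K), add_zero] at h1

/-- the local rings of `X` are factorial -/
theorem fac [IsAlgClosed k] (hX : IsVar X) (hg : ∃ g, Gen X g) (htr : Algebra.trdeg k K = 3) (hS : SmP X)
    (x : X.P) : UniqueFactorizationMonoid (X.O x) := by
  classical
  obtain ⟨U, hU, hx⟩ := hX.chart x
  have hft : Algebra.FiniteType k (X.sec U) := (Subalgebra.fg_iff_finiteType _).1 (hX.fg U hU ⟨x, hx⟩)
  have hn : IsNoetherianRing (X.sec U) := Algebra.FiniteType.isNoetherianRing k _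
  have htrS : Algebra.trdeg k (X.sec U) = 3 := by rw [trdeg_sec hX hg U hU ⟨x, hx⟩, htr]
  refine UniqueFactorizationMonoid.iff_exists_prime_mem_of_isPrime.2 fun P hP0 hP => ?_
  -- a prime of height one of `sec U` in `P`
  let P' : Ideal (X.sec U) := P.comap (Subalgebra.inclusion (sec_le U x hx))
  have hP' : P'.IsPrime := Ideal.comap_isPrime _ P
  have hmemP' : ∀ a : X.sec U, a ∈ P' ↔ (⟨a, sec_le U x hx a.2⟩ : X.O x) ∈ P := fun a => Iff.rfl
  have hP'x : P' ≤ idealAt X U x hx := by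
    intro a ha
    rw [mem_idealAt]
    intro hu
    exact hP.ne_top (Ideal.eq_top_of_isUnit_mem _ ((hmemP' a).1 ha) ((un_iff hu.2.1).2 hu))
  obtain ⟨z, hzP, hz0⟩ : ∃ z : X.sec U, z ∈ P' ∧ z ≠ 0 := by
    obtain ⟨b, hb, hb0⟩ := Submodule.exists_mem_ne_zero_of_ne_bot hP0
    obtain ⟨s, hs, hsu, hbs⟩ := hX.frac U x hU hx b b.2
    refine ⟨⟨_, hbs⟩, ?_, ?_⟩
    · rw [hmemP']
      have h1 : (⟨(b : K) * s, sec_le U x hx hbs⟩ : X.O x) = b * ⟨s, hsu.2.1⟩ := rfl
      rw [h1]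
      exact P.mul_mem_right _ hb
    · intro h
      have h1 : (b : K) * s = 0 := congrArg Subtype.val h
      exact (mul_ne_zero (fun h2 => hb0 (Subtype.ext h2)) hsu.1) h1
  obtain ⟨q, hqmin, hqP⟩ := Ideal.exists_minimalPrimes_le ((Ideal.span_singleton_le_iff_mem _).2 hzP)
  have hqp : q.IsPrime := hqmin.1.1
  have hzq : z ∈ q := hqmin.1.2 (Ideal.mem_span_singleton_self z)
  have hq0 : q ≠ ⊥ := by
    intro h
    rw [h, Ideal.mem_bot] at hzq
    exact hz0 hzq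
  have htr2 := trdeg_quot htrS q hq0 (fun Q hQ hQ0 hQq => min_one z q hqmin Q hQ0 hQq)
  -- a closed point in the closure of `x`
  obtain ⟨m, hm, hxm⟩ := Ideal.exists_le_maximal (idealAt X U x hx) (idealAt_prime U x hx).ne_top
  obtain ⟨y, hy, hym⟩ := hX.prime U hU ⟨x, hx⟩ m hm.isPrime
  obtain ⟨ε, hε⟩ := exists_eps (k := k) m
  have hεy : ∀ a, a ∈ idealAt X U y hy ↔ ε a = 0 := fun a => by
    rw [mem_idealAt, ← hε, hym]
  obtain ⟨h, hh, hgen⟩ := sec_gen hX hS U hU y hy ε hεy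
  have hqε : ∀ a ∈ q, ε a = 0 := fun a ha => (hε a).1 (hxm (hP'x (hqP ha)))
  obtain ⟨Φ, hΦq, hΦ⟩ := fac_core ε q hqε hq0 h hh hgen (le_of_eq htrS) htr2
  -- elements not in `m` are units at `x`
  have hunit : ∀ t : X.sec U, ε t ≠ 0 → Un (X.O x) (t : K) := by
    intro t ht
    by_contra hu
    exact ht ((hε t).1 (hxm ((mem_idealAt U x hx t).2 hu)))
  have hΦ0 : Φ ≠ 0 := by
    intro h0
    obtain ⟨t, ht, w, hw⟩ := hΦ z hzq
    rw [h0, zero_mul] at hw
    rcases mul_eq_zero.1 hw with h1 | h1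
    · rw [h1, map_zero] at ht
      exact ht rfl
    · exact hz0 h1
  have hΦK : (Φ : K) ≠ 0 := fun h0 => hΦ0 (Subtype.ext h0)
  refine ⟨⟨Φ, sec_le U x hx Φ.2⟩, (hmemP' Φ).1 (hqP hΦq), ?_, ?_, ?_⟩
  · intro h0
    exact hΦK (congrArg Subtype.val h0)
  · intro hu
    exact hP.ne_top (Ideal.eq_top_of_isUnit_mem _ ((hmemP' Φ).1 (hqP hΦq)) hu)
  · -- divisibility by `Φ` of elements of `q`
    have hdvd : ∀ (a : X.O x) (s : K), s ∈ X.sec U → Un (X.O x) s → ∀ has : (a : K) * s ∈ X.sec U,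
        (⟨_, has⟩ : X.sec U) ∈ q → (⟨Φ, sec_le U x hx Φ.2⟩ : X.O x) ∣ a := by
      intro a s hs hsu has haq
      obtain ⟨t, ht, w, hw⟩ := hΦ _ haq
      have htu := hunit t ht
      have h1 : (t : K) * ((a : K) * s) = Φ * w := congrArg (fun z : X.sec U => (z : K)) hw
      refine ⟨⟨(w : K) * ((t : K)⁻¹ * s⁻¹), (X.O x).mul_mem (sec_le U x hx w.2)
        ((X.O x).mul_mem htu.2.2 hsu.2.2)⟩, Subtype.ext ?_⟩
      change (a : K) = Φ * ((w : K) * ((t : K)⁻¹ * s⁻¹))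
      have ht0 := htu.1
      have hs0 := hsu.1
      rw [← mul_assoc, ← h1]
      field_simp
    intro a b hab
    obtain ⟨c, hc⟩ := hab
    have hc' : (a : K) * b = Φ * c := congrArg (fun z : X.O x => (z : K)) hc
    obtain ⟨s, hs, hsu, has⟩ := hX.frac U x hU hx a a.2
    obtain ⟨s', hs', hsu', hbs'⟩ := hX.frac U x hU hx b b.2
    obtain ⟨s'', hs'', hsu'', hcs''⟩ := hX.frac U x hU hx c c.2
    have h1 : (⟨_, has⟩ : X.sec U) * ⟨_, hbs'⟩ * ⟨s'', hs''⟩ = Φ * (⟨_, hcs''⟩ * ⟨s, hs⟩ * ⟨s', hs'⟩) := by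
      apply Subtype.ext
      change (a : K) * s * ((b : K) * s') * s'' = Φ * ((c : K) * s'' * s * s')
      have h2 : (a : K) * s * ((b : K) * s') * s'' = (a : K) * b * (s * s' * s'') := by ring
      rw [h2, hc']
      ring
    have h2 : (⟨_, has⟩ : X.sec U) * ⟨_, hbs'⟩ * ⟨s'', hs''⟩ ∈ q := by
      rw [h1]
      exact q.mul_mem_right _ hΦq
    rcases hqp.mem_or_mem h2 with h3 | h3
    · rcases hqp.mem_or_mem h3 with h4 | h4
      · exact Or.inl (hdvd a s hs hsu has h4)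
      · exact Or.inr (hdvd b s' hs' hsu' hbs' h4)
    · exact absurd hsu'' ((mem_idealAt U x hx _).1 (hP'x (hqP h3)))

end Pool.Agent.H20.TU
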