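import Pool.Agent.H20.TU.GRO

/-!
# THEOREM U (MP_e49dc9_ag): (NZ) the orders of the sections along a prime divisor

* `height_one`: the prime ideal of a prime divisor has height one.
* `nzr`: the order along a prime divisor of the sections of `j D` is at most `C j`.
-/

set_option autoImplicit false

open MvPolynomial Pool.Agent.H54.RV Pool.Agent.H83.TU

namespace Pool.Agent.H20.TU

variable {k K : Type} [Field k] [Field K] [Algebra k K] {X : Mod k K}

/-- the ideal of the functions on `U` which are not units at `x` -/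
def idealAt (X : Mod k K) (U : Set X.P) (x : X.P) (hx : x ∈ U) : Ideal (X.sec U) :=
  (IsLocalRing.maximalIdeal (X.O x)).comap
    (Subalgebra.inclusion (show X.sec U ≤ X.O x from fun a ha => (mem_sec U a).1 ha x hx))

theorem mem_idealAt (U : Set X.P) (x : X.P) (hx : x ∈ U) (a : X.sec U) :
    a ∈ idealAt X U x hx ↔ ¬ Un (X.O x) a := by
  unfold idealAt
  rw [Ideal.mem_comap, IsLocalRing.mem_maximalIdeal, mem_nonunits_iff]
  exact not_congr (un_iff ((mem_sec U a).1 a.2 x hx))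

instance idealAt_prime (U : Set X.P) (x : X.P) (hx : x ∈ U) : (idealAt X U x hx).IsPrime := by
  unfold idealAt
  exact Ideal.comap_isPrime _ _

/-- the order of a function at a prime divisor is positive if and only if it is not a unit -/
theorem ord_pos_iff (P : PDiv X) (a : K) (ha : a ∈ X.O P.η) (ha0 : a ≠ 0) : 0 < P.p.ord a ↔ ¬ Un (X.O P.η) a := by
  have h1 : 0 ≤ P.p.ord a := (ord_nonneg P.p a ha0).2 ((P.mem a).1 ha)
  have h2 := ord_eq_zero P.p a ha0
  constructor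
  · intro h hu
    have h3 := h2.2 ⟨(P.mem a).1 ha, (P.mem _).1 hu.2.2⟩
    omega
  · intro h
    have h3 : P.p.ord a ≠ 0 := by
      intro h4
      have h5 := h2.1 h4
      exact h ⟨ha0, ha, (P.mem _).2 h5.2⟩
    omega

/-- the prime ideal of a prime divisor has height one -/
theorem height_one (hX : IsVar X) (U : Set X.P) (hU : X.aff U) (P : PDiv X) (hη : P.η ∈ U) (I : Ideal (X.sec U))
    (hI : I.IsPrime) (hI0 : I ≠ ⊥) (hle : I ≤ idealAt X U P.η hη) : I = idealAt X U P.η hη := by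
  refine le_antisymm hle fun c hc => ?_
  by_cases hc0 : c = 0
  · rw [hc0]; exact I.zero_mem
  obtain ⟨z, hz, hz0⟩ := Submodule.exists_mem_ne_zero_of_ne_bot hI0
  have hcO : (c : K) ∈ X.O P.η := (mem_sec U c).1 c.2 _ hη
  have hzO : (z : K) ∈ X.O P.η := (mem_sec U z).1 z.2 _ hη
  have hcK : (c : K) ≠ 0 := fun h => hc0 (Subtype.ext h)
  have hzK : (z : K) ≠ 0 := fun h => hz0 (Subtype.ext h)
  have h1 : 0 < P.p.ord (c : K) := (ord_pos_iff P c hcO hcK).2 ((mem_idealAt U _ hη c).1 hc)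
  have h2 : 0 ≤ P.p.ord (z : K) := (ord_nonneg P.p _ hzK).2 ((P.mem _).1 hzO)
  obtain ⟨m, hm⟩ := Int.eq_ofNat_of_zero_le h2
  have hpow : ∀ n : ℕ, P.p.ord ((c : K) ^ n) = n * P.p.ord (c : K) := by
    intro n
    induction n with
    | zero => rw [pow_zero, ord_one]; simp
    | succ n ih => rw [pow_succ, ord_mul _ _ _ (pow_ne_zero n hcK) hcK, ih]; push_cast; ring
  have h3 : (c : K) ^ m / z ∈ X.O P.η := by
    rw [P.mem, ← ord_nonneg P.p _ (div_ne_zero (pow_ne_zero m hcK) hzK), div_eq_mul_inv,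
      ord_mul _ _ _ (pow_ne_zero m hcK) (inv_ne_zero hzK), ord_inv, hpow, hm]
    have : (m : ℤ) * 1 ≤ m * P.p.ord (c : K) := mul_le_mul_of_nonneg_left (by omega) (Nat.cast_nonneg _)
    omega
  obtain ⟨s, hs, hsu, hb⟩ := hX.frac U P.η hU hη _ h3
  have h4 : c ^ m * ⟨s, hs⟩ = z * ⟨_, hb⟩ := by
    apply Subtype.ext
    change (c : K) ^ m * s = z * ((c : K) ^ m / z * s)
    field_simp
  have h5 : c ^ m * ⟨s, hs⟩ ∈ I := by rw [h4]; exact I.mul_mem_right _ hz
  rcases hI.mem_or_mem h5 with h6 | h6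
  · exact hI.mem_of_pow_mem m h6
  · exact absurd hsu ((mem_idealAt U _ hη _).1 (hle h6))

/-- (NZ): the orders of the sections along a prime divisor -/
theorem nzr [CharZero k] (hX : IsVar X) (hg : ∃ g, Gen X g) (htr : Algebra.trdeg k K = 3) : NZ X := by
  classical
  intro D P
  obtain ⟨U, h, φ, hU, hηU, hh0, hD, hφ, hφU, hint⟩ := noether hX hg htr D P.η
  let _ : Algebra (MvPolynomial (Fin (2 + 1)) k) K := φ.toRingHom.toAlgebra
  have htow : IsScalarTower k (MvPolynomial (Fin (2 + 1)) k) K :=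
    IsScalarTower.of_algebraMap_eq fun c => (φ.commutes c).symm
  have hfs : FaithfulSMul (MvPolynomial (Fin (2 + 1)) k) K := (faithfulSMul_iff_algebraMap_injective _ _).2 hφ
  let _ : Algebra (FE k 2) K := FractionRing.liftAlgebra (MvPolynomial (Fin (2 + 1)) k) K
  have htow2 : IsScalarTower (MvPolynomial (Fin (2 + 1)) k) (FE k 2) K :=
    FractionRing.isScalarTower_liftAlgebra (MvPolynomial (Fin (2 + 1)) k) K
  have htow3 : IsScalarTower k (FE k 2) K := IsScalarTower.of_algebraMap_eq fun c => by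
    rw [IsScalarTower.algebraMap_apply k (MvPolynomial (Fin (2 + 1)) k) (FE k 2),
      ← IsScalarTower.algebraMap_apply (MvPolynomial (Fin (2 + 1)) k) (FE k 2) K,
      ← IsScalarTower.algebraMap_apply k (MvPolynomial (Fin (2 + 1)) k) K]
  have hfin : FiniteDimensional (FE k 2) K := fin_E hX hg U hU ⟨P.η, hηU⟩ hint
  obtain ⟨M, hM⟩ := inf_bound hX hg D h
  -- `sec U` as an algebra over the polynomials
  let ψ : MvPolynomial (Fin (2 + 1)) k →ₐ[k] X.sec U := φ.codRestrict (X.sec U) hφU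
  let _ : Algebra (MvPolynomial (Fin (2 + 1)) k) (X.sec U) := ψ.toRingHom.toAlgebra
  have hmap : ∀ a : MvPolynomial (Fin (2 + 1)) k,
      ((algebraMap (MvPolynomial (Fin (2 + 1)) k) (X.sec U) a : X.sec U) : K) = algebraMap _ K a := fun a => rfl
  have hψinj : Function.Injective (algebraMap (MvPolynomial (Fin (2 + 1)) k) (X.sec U)) := by
    intro a b hab
    apply hφ
    exact congrArg Subtype.val hab
  have hfs2 : FaithfulSMul (MvPolynomial (Fin (2 + 1)) k) (X.sec U) :=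
    (faithfulSMul_iff_algebraMap_injective _ _).2 hψinj
  have hint2 : Algebra.IsIntegral (MvPolynomial (Fin (2 + 1)) k) (X.sec U) := by
    refine ⟨fun b => ?_⟩
    obtain ⟨Q, hQ, hQ0⟩ := hint b b.2
    refine ⟨Q, hQ, ?_⟩
    apply Subtype.ext
    have h1 : ((Polynomial.eval₂ (algebraMap (MvPolynomial (Fin (2 + 1)) k) (X.sec U)) b Q : X.sec U) : K) =
        Polynomial.eval₂ φ.toRingHom (b : K) Q :=
      Polynomial.hom_eval₂ Q (algebraMap (MvPolynomial (Fin (2 + 1)) k) (X.sec U)) (X.sec U).val.toRingHom b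
    rw [h1, hQ0]
    rfl
  have hOη : ∀ a : MvPolynomial (Fin (2 + 1)) k, algebraMap _ K a ∈ X.O P.η :=
    fun a => (mem_sec U _).1 (hφU a) _ hηU
  have hq0 : (idealAt X U P.η hηU) ≠ ⊥ := by
    obtain ⟨π, hπ0, hπ⟩ := ord_unif P.p
    have h1 : π ∈ X.O P.η := by rw [P.mem, ← ord_nonneg P.p π hπ0, hπ]; norm_num
    obtain ⟨s, hs, hsu, hb⟩ := hX.frac U P.η hU hηU π h1
    intro hbot
    have h2 : (⟨_, hb⟩ : X.sec U) ∈ idealAt X U P.η hηU := by
      rw [mem_idealAt, ← ord_pos_iff P _ ((mem_sec U _).1 hb _ hηU) (mul_ne_zero hπ0 hsu.1),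
        ord_mul _ _ _ hπ0 hsu.1, hπ, (ord_eq_zero P.p s hsu.1).2 ⟨(P.mem _).1 hsu.2.1, (P.mem _).1 hsu.2.2⟩]
      norm_num
    rw [hbot, Ideal.mem_bot] at h2
    exact mul_ne_zero hπ0 hsu.1 (congrArg Subtype.val h2)
  let q0 : Ideal (MvPolynomial (Fin (2 + 1)) k) := (idealAt X U P.η hηU).under (MvPolynomial (Fin (2 + 1)) k)
  have hq0ne : q0 ≠ ⊥ := by
    obtain ⟨c, hc, hc0⟩ := Submodule.exists_mem_ne_zero_of_ne_bot hq0
    exact Ideal.comap_ne_bot_of_integral_mem hc0 hc (Algebra.IsIntegral.isIntegral c)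
  have hq0p : q0.IsPrime := Ideal.IsPrime.under _ _
  obtain ⟨Φ, hΦq, hΦ⟩ := hq0p.exists_mem_prime_of_ne_bot hq0ne
  have hspan : Ideal.span {Φ} = q0 := by
    have hle : Ideal.span {Φ} ≤ q0 := (Ideal.span_singleton_le_iff_mem _).2 hΦq
    by_contra hne
    have hlt : Ideal.span {Φ} < q0 := lt_of_le_of_ne hle hne
    have hsp : (Ideal.span {Φ}).IsPrime := (Ideal.span_singleton_prime hΦ.ne_zero).2 hΦ
    obtain ⟨Q, hQle, hQp, hQo⟩ := Algebra.HasGoingDown.exists_ideal_le_liesOver_of_lt (p := Ideal.span {Φ})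
      (idealAt X U P.η hηU) hlt
    have hQ0 : Q ≠ ⊥ := by
      intro hbot
      have h1 : Ideal.span {Φ} = Q.under _ := hQo.over
      have h2 : Φ ∈ Q.under (MvPolynomial (Fin (2 + 1)) k) := by rw [← h1]; exact Ideal.mem_span_singleton_self Φ
      rw [hbot] at h2
      have h3 : algebraMap (MvPolynomial (Fin (2 + 1)) k) (X.sec U) Φ = 0 := h2
      exact hΦ.ne_zero (hψinj (h3.trans (map_zero _).symm))
    have hQe := height_one hX U hU P hηU Q hQp hQ0 hQle
    apply hne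
    have h1 : Ideal.span {Φ} = Q.under _ := hQo.over
    rw [h1, hQe]
  have hp : ∀ a : MvPolynomial (Fin (2 + 1)) k, a ≠ 0 → 0 < P.p.ord (algebraMap _ K a) → Φ ∣ a := by
    intro a ha hpos
    have hne : algebraMap (MvPolynomial (Fin (2 + 1)) k) K a ≠ 0 := by
      rw [ne_eq, FaithfulSMul.algebraMap_eq_zero_iff]; exact ha
    have h1 := (ord_pos_iff P _ (hOη a) hne).1 hpos
    have h2 : a ∈ q0 := by
      change algebraMap (MvPolynomial (Fin (2 + 1)) k) (X.sec U) a ∈ idealAt X U P.η hηU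
      rw [mem_idealAt, hmap]
      exact h1
    rw [← hspan] at h2
    exact Ideal.mem_span_singleton.1 h2
  obtain ⟨C, hC⟩ := ord_bound (k := k) (K := K) (t := 2) P.p (fun a => (P.mem _).1 (hOη a)) Φ hΦ hp
  refine ⟨C * M, fun j f hj hf0 hf => ?_⟩
  have h1 := hC (M * j) (f * h ^ j) (mul_ne_zero hf0 (pow_ne_zero j hh0))
    (hint _ (sec_mul D U h hh0 hD j f hf)) (fun p hp => hM p hp j f hf)
  have h2 := hD P.η hηU
  have h3 : P.p.ord ((D.eq P.η / h) ^ j) = 0 := by
    have h4 := un_pow h2 j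
    exact (ord_eq_zero P.p _ h4.1).2 ⟨(P.mem _).1 h4.2.1, (P.mem _).1 h4.2.2⟩
  have h4 : f * D.eq P.η ^ j = f * h ^ j * (D.eq P.η / h) ^ j := by
    rw [div_pow]
    field_simp
  rw [h4, ord_mul _ _ _ (mul_ne_zero hf0 (pow_ne_zero j hh0)) (pow_ne_zero j h2.1), h3, add_zero]
  push_cast at h1 ⊢
  rw [mul_assoc]
  exact h1

end Pool.Agent.H20.TU
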