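import Pool.Agent.H20.TU.FA5
import Pool.Agent.H20.TU.NZR
import Pool.Agent.H20.TU.SmP

/-!
# THEOREM U (MP_e49dc9_ag): factoriality of smooth local rings, part 6

`fac`: if `SmP X` then all local rings of `X` are factorial.
-/

set_option autoImplicit false

open MvPolynomial Pool.Agent.H54.RV Pool.Agent.H83.TU

namespace Pool.Agent.H20.TU

/-- a maximal ideal of a finitely generated algebra over an algebraically closed field is a point -/
theorem exists_eps {k S : Type} [Field k] [IsAlgClosed k] [CommRing S] [Algebra k S] [Algebra.FiniteType k S]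
    (m : Ideal S) [hm : m.IsMaximal] : ∃ ε : S →ₐ[k] k, ∀ a, a ∈ m ↔ ε a = 0 := by
  let _ : Field (S ⧸ m) := Ideal.Quotient.field m
  have hft2 : Algebra.FiniteType k (S ⧸ m) :=
    Algebra.FiniteType.of_surjective (Ideal.Quotient.mkₐ k m) (Ideal.Quotient.mkₐ_surjective k m)
  have hfin : Module.Finite k (S ⧸ m) := finite_of_finite_type_of_isJacobsonRing k (S ⧸ m)
  have hbij : Function.Bijective (algebraMap k (S ⧸ m)) := IsAlgClosed.algebraMap_bijective_of_isIntegral
  let e : k ≃ₐ[k] (S ⧸ m) := AlgEquiv.ofBijective (Algebra.ofId k (S ⧸ m)) hbij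
  refine ⟨(e.symm : (S ⧸ m) →ₐ[k] k).comp (Ideal.Quotient.mkₐ k m), fun a => ?_⟩
  rw [AlgHom.comp_apply]
  change _ ↔ e.symm (Ideal.Quotient.mk m a) = 0
  rw [EmbeddingLike.map_eq_zero_iff, Ideal.Quotient.eq_zero_iff_mem]

/-- the maximal ideal of a local algebra with residue field `k` whose module of differentials is spanned by the
differentials of three elements -/
theorem max_gen {k O : Type} [Field k] [CommRing O] [IsLocalRing O] [IsNoetherianRing O] [Algebra k O]
    (ε : O →ₐ[k] k) (hε : ∀ a, a ∈ IsLocalRing.maximalIdeal O ↔ ε a = 0) (c : Fin 3 → O)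
    (hc : Submodule.span O (Set.range fun i => KaehlerDifferential.D k O (c i)) = ⊤) :
    IsLocalRing.maximalIdeal O ≤ Ideal.span (Set.range fun i => c i - algebraMap k O (ε (c i))) := by
  obtain ⟨I, hI⟩ : ∃ I : Ideal O, I = Ideal.span (Set.range fun i => c i - algebraMap k O (ε (c i))) := ⟨_, rfl⟩
  obtain ⟨N, hN⟩ : ∃ N : Ideal O, N = I ⊔ IsLocalRing.maximalIdeal O • IsLocalRing.maximalIdeal O := ⟨_, rfl⟩
  rw [← hI]
  have hmem : ∀ f : O, f - algebraMap k O (ε f) ∈ IsLocalRing.maximalIdeal O := fun f => by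
    rw [hε, map_sub, AlgHom.commutes]
    exact sub_self _
  let δ0 : O →ₗ[k] (O ⧸ N) :=
    { toFun := fun f => Ideal.Quotient.mk N (f - algebraMap k O (ε f))
      map_add' := fun f g => by
        rw [← map_add]
        congr 1
        rw [map_add, map_add]
        ring
      map_smul' := fun x f => by
        have h1 : x • f - algebraMap k O (ε (x • f)) = x • (f - algebraMap k O (ε f)) := by
          rw [smul_sub, map_smul, smul_eq_mul, map_mul, Algebra.smul_def, Algebra.smul_def]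
        rw [h1]
        rfl }
  have hδ0 : ∀ f, δ0 f = Ideal.Quotient.mk N (f - algebraMap k O (ε f)) := fun _ => rfl
  let δ : Derivation k O (O ⧸ N) := Derivation.mk' δ0 (by
    intro f g
    rw [hδ0, hδ0, hδ0]
    have h1 : ∀ (a w : O), a • Ideal.Quotient.mk N w = Ideal.Quotient.mk N (a * w) := fun _ _ => rfl
    rw [h1, h1, ← map_add, Ideal.Quotient.eq]
    have h2 : f * g - algebraMap k O (ε (f * g)) -
        (f * (g - algebraMap k O (ε g)) + g * (f - algebraMap k O (ε f))) =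
        -((f - algebraMap k O (ε f)) * (g - algebraMap k O (ε g))) := by
      rw [map_mul, map_mul]
      ring
    rw [h2, hN]
    exact Ideal.mem_sup_right (neg_mem (Ideal.mul_mem_mul (hmem f) (hmem g))))
  have hδ : ∀ f, δ f = Ideal.Quotient.mk N (f - algebraMap k O (ε f)) := fun _ => rfl
  have hl : δ.liftKaehlerDifferential = 0 := by
    refine LinearMap.ext_on_range (v := fun i => KaehlerDifferential.D k O (c i)) hc ?_
    intro i
    rw [Derivation.liftKaehlerDifferential_comp_D, hδ, LinearMap.zero_apply, Ideal.Quotient.eq_zero_iff_mem, hN, hI]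
    exact Ideal.mem_sup_left (Ideal.subset_span ⟨i, rfl⟩)
  have hle : IsLocalRing.maximalIdeal O ≤ I ⊔ IsLocalRing.maximalIdeal O • IsLocalRing.maximalIdeal O := by
    intro f hf
    have h1 : δ f = 0 := by
      rw [← Derivation.liftKaehlerDifferential_comp_D δ f, hl, LinearMap.zero_apply]
    rw [hδ, (hε f).1 hf, map_zero, sub_zero, Ideal.Quotient.eq_zero_iff_mem, hN] at h1
    exact h1
  exact Submodule.le_of_le_smul_of_le_jacobson_bot (IsNoetherian.noetherian _)
    (IsLocalRing.maximalIdeal_le_jacobson _) hle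

variable {k K : Type} [Field k] [Field K] [Algebra k K] {X : Mod k K}

theorem sec_le (U : Set X.P) (x : X.P) (hx : x ∈ U) : X.sec U ≤ X.O x := fun _ ha => (mem_sec U _).1 ha x hx

/-- the local ring is a localization of the ring of functions on an affine neighbourhood -/
theorem isLoc (hX : IsVar X) (U : Set X.P) (hU : X.aff U) (x : X.P) (hx : x ∈ U) :
    letI := (Subalgebra.inclusion (sec_le U x hx)).toRingHom.toAlgebra
    IsLocalization.AtPrime (X.O x) (idealAt X U x hx) := by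
  let _ := (Subalgebra.inclusion (sec_le U x hx)).toRingHom.toAlgebra
  have hmap : ∀ a : X.sec U, ((algebraMap (X.sec U) (X.O x) a : X.O x) : K) = a := fun a => rfl
  refine ⟨?_, ?_, ?_⟩
  · rintro ⟨y, hy⟩
    have h1 : Un (X.O x) (y : K) := by
      by_contra h
      exact hy ((mem_idealAt U x hx y).2 h)
    exact (un_iff h1.2.1).2 h1
  · intro z
    obtain ⟨s, hs, hsu, hzs⟩ := hX.frac U x hU hx z z.2
    refine ⟨⟨⟨_, hzs⟩, ⟨⟨s, hs⟩, fun h => (mem_idealAt U x hx _).1 h hsu⟩⟩, ?_⟩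
    apply Subtype.ext
    rfl
  · intro a b hab
    refine ⟨1, ?_⟩
    have h1 : a = b := Subtype.ext (congrArg (fun z : X.O x => (z : K)) hab)
    rw [h1]

theorem noeth (hX : IsVar X) (U : Set X.P) (hU : X.aff U) (x : X.P) (hx : x ∈ U) : IsNoetherianRing (X.O x) := by
  have hft : Algebra.FiniteType k (X.sec U) := (Subalgebra.fg_iff_finiteType _).1 (hX.fg U hU ⟨x, hx⟩)
  have hn : IsNoetherianRing (X.sec U) := Algebra.FiniteType.isNoetherianRing k _
  let _ := (Subalgebra.inclusion (sec_le U x hx)).toRingHom.toAlgebra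
  have := isLoc hX U hU x hx
  exact IsLocalization.isNoetherianRing (idealAt X U x hx).primeCompl (X.O x) hn

/-- common denominators at a point -/
theorem frac3 (hX : IsVar X) (U : Set X.P) (hU : X.aff U) (x : X.P) (hx : x ∈ U) (w : Fin 3 → K)
    (hw : ∀ i, w i ∈ X.O x) : ∃ t ∈ X.sec U, Un (X.O x) t ∧ ∀ i, w i * t ∈ X.sec U := by
  choose t ht htu hwt using fun i => hX.frac U x hU hx (w i) (hw i)
  refine ⟨t 0 * t 1 * t 2, mul_mem (mul_mem (ht 0) (ht 1)) (ht 2), un_mul (un_mul (htu 0) (htu 1)) (htu 2), ?_⟩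
  intro i
  fin_cases i
  · change w 0 * (t 0 * t 1 * t 2) ∈ _
    rw [show w 0 * (t 0 * t 1 * t 2) = (w 0 * t 0) * (t 1 * t 2) by ring]
    exact mul_mem (hwt 0) (mul_mem (ht 1) (ht 2))
  · change w 1 * (t 0 * t 1 * t 2) ∈ _
    rw [show w 1 * (t 0 * t 1 * t 2) = (w 1 * t 1) * (t 0 * t 2) by ring]
    exact mul_mem (hwt 1) (mul_mem (ht 0) (ht 2))
  · change w 2 * (t 0 * t 1 * t 2) ∈ _
    rw [show w 2 * (t 0 * t 1 * t 2) = (w 2 * t 2) * (t 0 * t 1) by ring]
    exact mul_mem (hwt 2) (mul_mem (ht 0) (ht 1))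

/-- the maximal ideal of a closed point is generated locally by three functions -/
theorem sec_gen (hX : IsVar X) (hS : SmP X) (U : Set X.P) (hU : X.aff U) (x : X.P) (hx : x ∈ U)
    (ε : X.sec U →ₐ[k] k) (hε : ∀ a, a ∈ idealAt X U x hx ↔ ε a = 0) :
    ∃ h : Fin 3 → X.sec U, (∀ i, ε (h i) = 0) ∧
      ∀ y, ε y = 0 → ∃ t, ε t ≠ 0 ∧ ∃ z : Fin 3 → X.sec U, t * y = ∑ i, h i * z i := by
  classical
  let _ := (Subalgebra.inclusion (sec_le U x hx)).toRingHom.toAlgebra
  have hloc := isLoc hX U hU x hx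
  have hn := noeth hX U hU x hx
  have hu : ∀ y : (idealAt X U x hx).primeCompl, IsUnit (ε.toRingHom y) := fun y => by
    rw [isUnit_iff_ne_zero]
    intro h
    exact y.2 ((hε _).2 h)
  let ε₁ : X.O x →+* k := IsLocalization.lift hu
  have hε₁ : ∀ a : X.sec U, ε₁ ⟨a, sec_le U x hx a.2⟩ = ε a := fun a => IsLocalization.lift_eq hu a
  let ε₂ : X.O x →ₐ[k] k :=
    { ε₁ with
      commutes' := fun c => by
        have h1 := hε₁ (algebraMap k (X.sec U) c)
        rw [AlgHom.commutes] at h1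
        exact h1 }
  have hε₂ : ∀ a : X.sec U, ε₂ ⟨a, sec_le U x hx a.2⟩ = ε a := hε₁
  have hker : RingHom.ker ε₂.toRingHom = IsLocalRing.maximalIdeal (X.O x) :=
    IsLocalRing.eq_maximalIdeal (RingHom.ker_isMaximal_of_surjective _ (fun c => ⟨algebraMap k _ c, ε₂.commutes c⟩))
  have hεm : ∀ a, a ∈ IsLocalRing.maximalIdeal (X.O x) ↔ ε₂ a = 0 := fun a => by
    rw [← hker]
    exact Iff.rfl
  obtain ⟨c, hc⟩ := hS x
  have hgen := max_gen ε₂ hεm c hc
  let γ : Fin 3 → X.O x := fun i => c i - algebraMap k (X.O x) (ε₂ (c i))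
  have hγ : ∀ i, ε₂ (γ i) = 0 := fun i => by
    simp only [γ, map_sub, AlgHom.commutes]
    exact sub_self _
  obtain ⟨s, hs, hsu, hγs⟩ := frac3 hX U hU x hx (fun i => (γ i : K)) (fun i => (γ i).2)
  refine ⟨fun i => ⟨_, hγs i⟩, fun i => ?_, fun y hy => ?_⟩
  · rw [← hε₂]
    have h1 : (⟨(γ i : K) * s, sec_le U x hx (hγs i)⟩ : X.O x) = γ i * ⟨s, sec_le U x hx hs⟩ := rfl
    rw [h1, map_mul, hγ, zero_mul]
  · have h1 : (⟨y, sec_le U x hx y.2⟩ : X.O x) ∈ IsLocalRing.maximalIdeal (X.O x) := by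
      rw [hεm, hε₂]
      exact hy
    obtain ⟨b, hb⟩ := (Ideal.mem_span_range_iff_exists_fun).1 (hgen h1)
    have hb' : (y : K) = ∑ i, (b i : K) * (γ i : K) := by
      have h2 := congrArg Subtype.val hb
      rw [AddSubmonoidClass.coe_finsetSum] at h2
      exact h2.symm
    obtain ⟨t, ht, htu, hbt⟩ := frac3 hX U hU x hx (fun i => (b i : K) * s⁻¹)
      (fun i => (X.O x).mul_mem (b i).2 hsu.2.2)
    refine ⟨⟨t, ht⟩, ?_, fun i => ⟨_, hbt i⟩, ?_⟩
    · intro h2
      exact (mem_idealAt U x hx _).1 ((hε _).2 h2) htu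
    · apply Subtype.ext
      rw [AddSubmonoidClass.coe_finsetSum]
      change t * (y : K) = ∑ i, (γ i : K) * s * ((b i : K) * s⁻¹ * t)
      rw [hb', Finset.mul_sum]
      refine Finset.sum_congr rfl fun i _ => ?_
      have := hsu.1
      field_simp

end Pool.Agent.H20.TU
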