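import Pool.Agent.H83.TU.Cen
import Pool.Agent.H24.TU.Def

/-!
# THEOREM U (MP_e49dc9_ag): a good affine chart

There is a nonempty affine open set `U` such that the coordinates are in `sec U`, `sec U` is stable under the
coordinate derivations and the divisor `D` is principal on `U`.
-/

set_option autoImplicit false

namespace Pool.Agent.H20.TU

open Pool.Agent.H54.RV Pool.Agent.H83.TU Pool.Agent.H24.TU

variable {k K : Type} [Field k] [Field K] [Algebra k K] {X : Mod k K}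

/-- every element of the function field is a fraction on a nonempty affine open set -/
theorem sec_frac (hX : IsVar X) (hg : ∃ g, Gen X g) (U : Set X.P) (hU : X.aff U) (hne : U.Nonempty) (x : K) :
    ∃ s ∈ X.sec U, s ≠ 0 ∧ x * s ∈ X.sec U := by
  obtain ⟨g, hg⟩ := hg
  have hgU := gen_mem hg U (hX.op U hU) hne
  obtain ⟨s, hs, hu, hxs⟩ := hX.frac U g hU hgU x (by rw [hg.top]; exact Algebra.mem_top)
  exact ⟨s, hs, hu.1, hxs⟩

/-- common denominators of finitely many elements -/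
theorem sec_frac_fin (hX : IsVar X) (hg : ∃ g, Gen X g) (U : Set X.P) (hU : X.aff U) (hne : U.Nonempty)
    (T : Finset K) : ∃ s ∈ X.sec U, s ≠ 0 ∧ ∀ x ∈ T, x * s ∈ X.sec U := by
  classical
  induction T using Finset.induction_on with
  | empty => exact ⟨1, one_mem _, one_ne_zero, by simp⟩
  | insert a T _ ih =>
    obtain ⟨s, hs, hs0, h1⟩ := ih
    obtain ⟨t, ht, ht0, h2⟩ := sec_frac hX hg U hU hne a
    refine ⟨s * t, mul_mem hs ht, mul_ne_zero hs0 ht0, fun x hx => ?_⟩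
    rcases Finset.mem_insert.1 hx with rfl | hx
    · rw [mul_left_comm]; exact mul_mem hs h2
    · rw [← mul_assoc]; exact mul_mem (h1 x hx) ht

theorem chart (hX : IsVar X) (hg : ∃ g, Gen X g) (C : Coord k K) (D : Cart X) :
    ∃ U : Set X.P, X.aff U ∧ U.Nonempty ∧ (∀ i, C.c i ∈ X.sec U) ∧ (∀ i, ∀ b ∈ X.sec U, C.d i b ∈ X.sec U) ∧
      ∃ h : K, h ≠ 0 ∧ ∀ y ∈ U, Un (X.O y) (D.eq y / h) := by
  classical
  have hg' := hg
  obtain ⟨g, hgg⟩ := hg
  obtain ⟨U1, hU1, hgU1⟩ := hX.chart g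
  obtain ⟨a, ha1, ha2, ha3⟩ := triv hX D U1 Set.univ g hU1 isOpen_univ hgU1 (Set.mem_univ g)
  have hU2 := hX.basic U1 a hU1 ha1
  have hgU2 : g ∈ {x | x ∈ U1 ∧ Un (X.O x) a} := ⟨hgU1, ha2⟩
  obtain ⟨U2, hU2e⟩ : ∃ U2, U2 = {x | x ∈ U1 ∧ Un (X.O x) a} := ⟨_, rfl⟩
  rw [← hU2e] at hU2 hgU2
  have hD2 : ∀ y ∈ U2, Un (X.O y) (D.eq y / D.eq g) := by
    intro y hy
    rw [hU2e] at hy
    exact (ha3 y hy.1 hy.2).2
  obtain ⟨S, hS⟩ := hX.fg U2 hU2 ⟨g, hgU2⟩
  let T : Finset K := Finset.univ.image C.c ∪ (Finset.univ : Finset (Fin 3)).biUnion fun i => S.image (C.d i)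
  obtain ⟨s, hs, hs0, hT⟩ := sec_frac_fin hX hg' U2 hU2 ⟨g, hgU2⟩ T
  have hsy : ∀ y ∈ U2, s ∈ X.O y := (mem_sec U2 s).1 hs
  have hder : ∀ i, ∀ z ∈ X.sec U2, C.d i z * s ∈ X.sec U2 := by
    intro i z hz
    rw [← hS] at hz
    induction hz using Algebra.adjoin_induction with
    | mem y hy =>
      refine hT _ ?_
      simp only [T, Finset.mem_union, Finset.mem_biUnion, Finset.mem_image]
      exact Or.inr ⟨i, Finset.mem_univ _, y, hy, rfl⟩
    | algebraMap c => rw [Derivation.map_algebraMap, zero_mul]; exact zero_mem _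
    | add y z _ _ hy hz => rw [map_add, add_mul]; exact add_mem hy hz
    | mul y z hy' hz' hy hz =>
      rw [hS] at hy' hz'
      rw [Derivation.leibniz, smul_eq_mul, smul_eq_mul, add_mul, mul_assoc, mul_assoc]
      exact add_mem (mul_mem hy' hz) (mul_mem hz' hy)
  have hU3 := hX.basic U2 s hU2 hsy
  obtain ⟨U3, hU3e⟩ : ∃ U3, U3 = {x | x ∈ U2 ∧ Un (X.O x) s} := ⟨_, rfl⟩
  rw [← hU3e] at hU3
  have hgU3 : g ∈ U3 := by
    rw [hU3e]
    refine ⟨hgU2, hs0, ?_, ?_⟩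
    · rw [hgg.top]; exact Algebra.mem_top
    · rw [hgg.top]; exact Algebra.mem_top
  have hle : X.sec U2 ≤ X.sec U3 := by
    intro z hz
    rw [mem_sec] at hz ⊢
    intro y hy
    rw [hU3e] at hy
    exact hz y hy.1
  have hsi : s⁻¹ ∈ X.sec U3 := by
    rw [mem_sec]
    intro y hy
    rw [hU3e] at hy
    exact hy.2.2.2
  have hcancel : ∀ z : K, z * s ∈ X.sec U2 → z ∈ X.sec U3 := by
    intro z hz
    have h1 := mul_mem (hle hz) hsi
    rwa [mul_assoc, mul_inv_cancel₀ hs0, mul_one] at h1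
  refine ⟨U3, hU3, ⟨g, hgU3⟩, ?_, ?_, D.eq g, D.ne g, ?_⟩
  · intro i
    apply hcancel
    refine hT _ ?_
    simp only [T, Finset.mem_union, Finset.mem_image]
    exact Or.inl ⟨i, Finset.mem_univ _, rfl⟩
  · intro i b hb
    obtain ⟨N, hN⟩ := den hX U2 hU2 s b hsy (by
      intro y hy hu
      refine (mem_sec U3 b).1 hb y ?_
      rw [hU3e]
      exact ⟨hy, hu⟩)
    have h1 : s ^ N * b ∈ X.sec U2 := by
      rw [mem_sec]
      exact hN N le_rfl
    have h2 : C.d i (s ^ N * b) ∈ X.sec U3 := hcancel _ (hder i _ h1)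
    have h3 : C.d i s ∈ X.sec U3 := hcancel _ (hder i _ hs)
    have h4 : C.d i (s ^ N) ∈ X.sec U3 := hcancel _ (hder i _ (pow_mem hs N))
    rw [Derivation.leibniz, smul_eq_mul, smul_eq_mul] at h2
    have h5 : C.d i b = (s⁻¹) ^ N * ((s ^ N * C.d i b + b * C.d i (s ^ N)) - b * C.d i (s ^ N)) := by
      rw [add_sub_cancel_right, ← mul_assoc, ← mul_pow, inv_mul_cancel₀ hs0, one_pow, one_mul]
    rw [h5]
    exact mul_mem (pow_mem hsi N) (sub_mem h2 (mul_mem hb h4))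
  · intro y hy
    rw [hU3e] at hy
    exact hD2 y hy.1

end Pool.Agent.H20.TU
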