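import Pool.Agent.H20.TU.NRM
import Pool.Agent.H20.TU.CHT
import Pool.Agent.H83.TU.Props

/-!
# THEOREM U (MP_e49dc9_ag): (G1) finiteness and growth, (NZ) the orders along a prime divisor

* `noether`: a Noether normalization of an affine chart on which `D` is principal.
* `fin_E`: the function field is finite over the field of rational functions.
* `inf_bound`: the sections of `n D` have poles of order at most `M n` at infinity.
* `gf`: (G1); `nzr`: (NZ).
-/

set_option autoImplicit false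

open MvPolynomial Pool.Agent.H54.RV Pool.Agent.H83.TU

namespace Pool.Agent.H20.TU

variable {k K : Type} [Field k] [Field K] [Algebra k K] {X : Mod k K}

theorem noether (hX : IsVar X) (hg : ∃ g, Gen X g) (htr : Algebra.trdeg k K = 3) (D : Cart X) (x : X.P) :
    ∃ (U : Set X.P) (h : K) (φ : MvPolynomial (Fin (2 + 1)) k →ₐ[k] K), X.aff U ∧ x ∈ U ∧ h ≠ 0 ∧
      (∀ y ∈ U, Un (X.O y) (D.eq y / h)) ∧ Function.Injective φ ∧ (∀ a, φ a ∈ X.sec U) ∧
      ∀ b ∈ X.sec U, φ.toRingHom.IsIntegralElem b := by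
  obtain ⟨U1, hU1, hxU1⟩ := hX.chart x
  obtain ⟨a, ha1, ha2, ha3⟩ := triv hX D U1 Set.univ x hU1 isOpen_univ hxU1 (Set.mem_univ x)
  have hU2 := hX.basic U1 a hU1 ha1
  have hxU2 : x ∈ {y | y ∈ U1 ∧ Un (X.O y) a} := ⟨hxU1, ha2⟩
  obtain ⟨U, hUe⟩ : ∃ U, U = {y | y ∈ U1 ∧ Un (X.O y) a} := ⟨_, rfl⟩
  rw [← hUe] at hU2 hxU2
  have hD : ∀ y ∈ U, Un (X.O y) (D.eq y / D.eq x) := by
    intro y hy
    rw [hUe] at hy
    exact (ha3 y hy.1 hy.2).2
  have hft : Algebra.FiniteType k (X.sec U) := (Subalgebra.fg_iff_finiteType _).1 (hX.fg U hU2 ⟨x, hxU2⟩)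
  obtain ⟨s, g, hginj, hgint⟩ := exists_integral_inj_algHom_of_fg k (X.sec U)
  let ψ : MvPolynomial (Fin s) k →ₐ[k] K := (X.sec U).val.comp g
  have hψinj : Function.Injective ψ := (Subtype.val_injective).comp hginj
  have hψint : ∀ b ∈ X.sec U, ψ.toRingHom.IsIntegralElem b := by
    intro b hb
    obtain ⟨P, hP, hP0⟩ := hgint ⟨b, hb⟩
    refine ⟨P, hP, ?_⟩
    have h1 := congrArg (X.sec U).val hP0
    rw [map_zero] at h1
    rw [← h1]
    exact (Polynomial.hom_eval₂ P g.toRingHom (X.sec U).val.toRingHom ⟨b, hb⟩).symm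
  have hs : s = 2 + 1 := by
    let _ : Algebra (MvPolynomial (Fin s) k) K := ψ.toRingHom.toAlgebra
    have htow : IsScalarTower k (MvPolynomial (Fin s) k) K := IsScalarTower.of_algebraMap_eq fun c => (ψ.commutes c).symm
    have hfs : FaithfulSMul (MvPolynomial (Fin s) k) K := (faithfulSMul_iff_algebraMap_injective _ _).2 hψinj
    have halg : Algebra.IsAlgebraic (MvPolynomial (Fin s) k) K := by
      refine ⟨fun z => ?_⟩
      obtain ⟨c, hc, hc0, hzc⟩ := sec_frac hX hg U hU2 ⟨x, hxU2⟩ z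
      have h1 : IsAlgebraic (MvPolynomial (Fin s) k) c := IsIntegral.isAlgebraic (hψint c hc)
      have h2 : IsAlgebraic (MvPolynomial (Fin s) k) (z * c) := IsIntegral.isAlgebraic (hψint _ hzc)
      have h3 := h2.mul h1.inv
      rwa [mul_assoc, mul_inv_cancel₀ hc0, mul_one] at h3
    have h1 := trdeg_add_eq k (MvPolynomial (Fin s) k) (A := K)
    rw [trdeg_eq_zero (R := MvPolynomial (Fin s) k) (A := K), add_zero, MvPolynomial.trdeg_of_isDomain, htr] at h1
    simp at h1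
    exact_mod_cast h1
  subst hs
  exact ⟨U, D.eq x, ψ, hU2, hxU2, D.ne x, hD, hψinj, fun a => (g a).2, hψint⟩

/-- the function field is finite over the field of rational functions -/
theorem fin_E (hX : IsVar X) (hg : ∃ g, Gen X g) (U : Set X.P) (hU : X.aff U) (hne : U.Nonempty)
    [Algebra (FE k 2) K] [Algebra (MvPolynomial (Fin (2 + 1)) k) K] [IsScalarTower (MvPolynomial (Fin (2 + 1)) k) (FE k 2) K]
    [IsScalarTower k (MvPolynomial (Fin (2 + 1)) k) K] [IsScalarTower k (FE k 2) K]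
    (hint : ∀ b ∈ X.sec U, IsIntegral (MvPolynomial (Fin (2 + 1)) k) b) : FiniteDimensional (FE k 2) K := by
  classical
  obtain ⟨S, hS⟩ := hX.fg U hU hne
  have hSU : ∀ b ∈ S, b ∈ X.sec U := fun b hb => by
    rw [← hS]
    exact Algebra.subset_adjoin hb
  let F : IntermediateField (FE k 2) K := IntermediateField.adjoin (FE k 2) (S : Set K)
  have h1 : FiniteDimensional (FE k 2) F :=
    IntermediateField.finiteDimensional_adjoin fun b hb => (hint b (hSU b hb)).tower_top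
  have h2 : ∀ b ∈ X.sec U, b ∈ F := by
    intro b hb
    rw [← hS] at hb
    induction hb using Algebra.adjoin_induction with
    | mem y hy => exact IntermediateField.subset_adjoin _ _ hy
    | algebraMap c =>
      rw [IsScalarTower.algebraMap_apply k (FE k 2) K]
      exact F.algebraMap_mem _
    | add y z _ _ hy hz => exact F.add_mem hy hz
    | mul y z _ _ hy hz => exact F.mul_mem hy hz
  have h3 : F = ⊤ := by
    rw [eq_top_iff]
    intro z _
    obtain ⟨c, hc, hc0, hzc⟩ := sec_frac hX hg U hU hne z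
    have h4 := F.mul_mem (h2 _ hzc) (F.inv_mem (h2 _ hc))
    rwa [mul_assoc, mul_inv_cancel₀ hc0, mul_one] at h4
  have h5 : FiniteDimensional (FE k 2) (⊤ : IntermediateField (FE k 2) K) := by rw [← h3]; exact h1
  exact Module.Finite.equiv (IntermediateField.topEquiv (F := FE k 2) (E := K)).toLinearEquiv

/-- the poles at infinity of the sections of `n D` -/
theorem inf_bound (hX : IsVar X) (hg : ∃ g, Gen X g) (D : Cart X) [Algebra (FE k 2) K]
    [FiniteDimensional (FE k 2) K] (h : K) :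
    ∃ M : ℕ, ∀ p : Place k K, AtInf 2 p → ∀ (n : ℕ) (f : K), Sec D n f →
      f * h ^ n * (algebraMap (FE k 2) K (x0 k 2))⁻¹ ^ (M * n) ∈ p.R := by
  classical
  have hcomp := hX.comp
  choose U hU hxU hUu using D.loc
  obtain ⟨T, hT⟩ := isCompact_univ.elim_finite_subcover U (fun x => hU x)
    (fun x _ => Set.mem_iUnion.2 ⟨x, hxU x⟩)
  choose M hM using fun x : X.P => exists_inf (k := k) (t := 2) (h / D.eq x)
  refine ⟨∑ x ∈ T, M x, fun p hp n f hf => ?_⟩
  have hy := hT (Set.mem_univ (cenK hX hg p))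
  obtain ⟨x, hx⟩ := Set.mem_iUnion.1 hy
  obtain ⟨hxT, hyU⟩ := Set.mem_iUnion.1 hx
  have h1 := hUu x _ hyU
  have h2 := hf (cenK hX hg p)
  have h3 : f * D.eq x ^ n ∈ p.R := by
    have h4 : f * D.eq x ^ n = f * D.eq (cenK hX hg p) ^ n * ((D.eq (cenK hX hg p) / D.eq x)⁻¹) ^ n := by
      have h5 := D.ne x
      have h6 := D.ne (cenK hX hg p)
      rw [mul_assoc, ← mul_pow]
      congr 2
      field_simp
    rw [h4]
    exact cenK_le hX hg p _ ((X.O _).mul_mem h2 ((X.O _).pow_mem h1.2.2 n))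
  have h7 := hM x p hp
  have h8 : (algebraMap (FE k 2) K (x0 k 2))⁻¹ ∈ p.R := by
    rw [← map_inv₀]
    exact hp _ (x0_inv_mem k 2)
  have h9 : M x ≤ ∑ x ∈ T, M x := Finset.single_le_sum (f := M) (fun _ _ => Nat.zero_le _) hxT
  obtain ⟨r, hr⟩ := Nat.exists_eq_add_of_le h9
  rw [hr]
  have h10 : f * h ^ n * (algebraMap (FE k 2) K (x0 k 2))⁻¹ ^ ((M x + r) * n) =
      f * D.eq x ^ n * (h / D.eq x * (algebraMap (FE k 2) K (x0 k 2))⁻¹ ^ M x) ^ n *
        ((algebraMap (FE k 2) K (x0 k 2))⁻¹ ^ r) ^ n := by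
    have h5 := D.ne x
    rw [mul_pow, div_pow, ← pow_mul, ← pow_mul, add_mul, pow_add]
    field_simp
  rw [h10]
  exact p.R.mul_mem _ _ (p.R.mul_mem _ _ h3 (pow_mem h7 n)) (pow_mem (pow_mem h8 r) n)

theorem sec_mul (D : Cart X) (U : Set X.P) (h : K) (h0 : h ≠ 0) (hD : ∀ y ∈ U, Un (X.O y) (D.eq y / h)) (n : ℕ)
    (f : K) (hf : Sec D n f) : f * h ^ n ∈ X.sec U := by
  rw [mem_sec]
  intro y hy
  have h1 := hf y
  have h2 := hD y hy
  have h3 : f * h ^ n = f * D.eq y ^ n * ((D.eq y / h)⁻¹) ^ n := by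
    have := D.ne y
    rw [mul_assoc, ← mul_pow]
    congr 2
    field_simp
  rw [h3]
  exact (X.O y).mul_mem h1 ((X.O y).pow_mem h2.2.2 n)

/-- (G1): finiteness and growth -/
theorem gf [CharZero k] (hX : IsVar X) (hg : ∃ g, Gen X g) (htr : Algebra.trdeg k K = 3) : GF X := by
  classical
  have key : ∀ D : Cart X, ∃ C M : ℕ, ∀ n : ℕ, Module.Finite k (secL D n) ∧ h0 D n ≤ C * (M * n + 1) ^ 3 := by
    intro D
    obtain ⟨g, hgg⟩ := hg
    obtain ⟨U, h, φ, hU, hgU, hh0, hD, hφ, hφU, hint⟩ := noether hX ⟨g, hgg⟩ htr D g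
    let _ : Algebra (MvPolynomial (Fin (2 + 1)) k) K := φ.toRingHom.toAlgebra
    have htow : IsScalarTower k (MvPolynomial (Fin (2 + 1)) k) K :=
      IsScalarTower.of_algebraMap_eq fun c => (φ.commutes c).symm
    have hfs : FaithfulSMul (MvPolynomial (Fin (2 + 1)) k) K := (faithfulSMul_iff_algebraMap_injective _ _).2 hφ
    let _ : Algebra (FE k 2) K := FractionRing.liftAlgebra (MvPolynomial (Fin (2 + 1)) k) K
    have htow2 : IsScalarTower (MvPolynomial (Fin (2 + 1)) k) (FE k 2) K :=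
      FractionRing.isScalarTower_liftAlgebra (MvPolynomial (Fin (2 + 1)) k) K
    have htow3 : IsScalarTower k (FE k 2) K := IsScalarTower.of_algebraMap_eq fun c => by
      rw [IsScalarTower.algebraMap_apply k (MvPolynomial (Fin (2 + 1)) k) (FE k 2),
        ← IsScalarTower.algebraMap_apply (MvPolynomial (Fin (2 + 1)) k) (FE k 2) K,
        ← IsScalarTower.algebraMap_apply k (MvPolynomial (Fin (2 + 1)) k) K]
    have hfin : FiniteDimensional (FE k 2) K := fin_E hX ⟨g, hgg⟩ U hU ⟨g, hgU⟩ hint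
    obtain ⟨M, hM⟩ := inf_bound hX ⟨g, hgg⟩ D h
    obtain ⟨C, hC⟩ := growth (k := k) (K := K) (t := 2)
    refine ⟨C, M, fun n => ?_⟩
    let m : K →ₗ[k] K := LinearMap.mulRight k (h ^ n)
    have hm : Function.Injective m := fun a b hab => mul_right_cancel₀ (pow_ne_zero n hh0) hab
    obtain ⟨h1, h2⟩ := hC (M * n) ((secL D n).map m) (by
      rintro b ⟨f, hf, rfl⟩
      exact ⟨hint _ (sec_mul D U h hh0 hD n f hf), fun p hp => hM p hp n f hf⟩)
    let e := (secL D n).equivMapOfInjective m hm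
    refine ⟨Module.Finite.equiv e.symm, ?_⟩
    have h3 : h0 D n = Module.finrank k ((secL D n).map m) := e.finrank_eq
    rw [h3]
    exact h2
  refine ⟨fun D n => ?_, fun D => ?_⟩
  · obtain ⟨C, M, h⟩ := key D
    exact (h n).1
  · obtain ⟨C, M, h⟩ := key D
    refine ⟨C * (M + 1) ^ 3, fun n hn => (h n).2.trans ?_⟩
    rw [mul_assoc, ← mul_pow]
    refine Nat.mul_le_mul_left _ (Nat.pow_le_pow_left ?_ 3)
    nlinarith

end Pool.Agent.H20.TU
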