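import Pool.Agent.H54.RV.Defs

/-!
# THEOREM U (MP_e49dc9_ag): a prime of dimension two with a singular function is a divisor

`option_ind`: if the images of `x` under `f` are algebraically independent over `k` and `b ≠ 0` is in the kernel of
`f`, then `x` together with `b` is algebraically independent.

`dvq`: `O` is a factorial local ring of a model of a field of transcendence degree `3`, given by the prime `q` of `B`
with `trdeg (B/q) ≥ 2`, `g ≠ 0` is in `q`, and all derivatives of `g` are in `q`.  Then `O` is a discrete valuation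
ring and `g` has order at least `2`.
-/

set_option autoImplicit false

open MvPolynomial Pool.Agent.H54.RV

namespace Pool.Agent.H20.TU

theorem option_ind {k A A' ι : Type} [Field k] [CommRing A] [IsDomain A] [Algebra k A] [CommRing A']
    [Algebra k A'] (f : A →ₐ[k] A') {x : ι → A} (hx : AlgebraicIndependent k (fun i => f (x i))) {b : A}
    (hb : f b = 0) (hb0 : b ≠ 0) : AlgebraicIndependent k (fun o : Option ι => o.elim b x) := by
  have hx1 : AlgebraicIndependent k (f ∘ x) := hx
  have hx' : AlgebraicIndependent k x := AlgebraicIndependent.of_comp f hx1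
  rw [AlgebraicIndependent.option_iff]
  refine ⟨hx', ?_⟩
  rw [transcendental_iff]
  have key : ∀ n : ℕ, ∀ p : Polynomial (Algebra.adjoin k (Set.range x)), p.natDegree ≤ n →
      Polynomial.aeval b p = 0 → p = 0 := by
    intro n
    induction n with
    | zero =>
      intro p hp h0
      rw [Polynomial.eq_C_of_natDegree_le_zero hp] at h0 ⊢
      rw [Polynomial.aeval_C] at h0
      have : p.coeff 0 = 0 := by
        apply Subtype.ext
        exact h0
      rw [this, map_zero]
    | succ n ih =>
      intro p hp h0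
      have hdiv : p = Polynomial.X * p.divX + Polynomial.C (p.coeff 0) := (Polynomial.X_mul_divX_add p).symm
      have h1 : b * Polynomial.aeval b p.divX + ((p.coeff 0 : Algebra.adjoin k (Set.range x)) : A) = 0 := by
        have h8 : Polynomial.aeval b (Polynomial.X * p.divX + Polynomial.C (p.coeff 0)) = 0 := by
          rw [← hdiv]; exact h0
        rw [map_add, map_mul, Polynomial.aeval_X, Polynomial.aeval_C] at h8
        exact h8
      have h2 : f ((p.coeff 0 : Algebra.adjoin k (Set.range x)) : A) = 0 := by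
        have : ((p.coeff 0 : Algebra.adjoin k (Set.range x)) : A) = -(b * Polynomial.aeval b p.divX) :=
          eq_neg_of_add_eq_zero_right h1
        rw [this, map_neg, map_mul, hb, zero_mul, neg_zero]
      have h3 : p.coeff 0 = 0 := by
        have hmem : ((p.coeff 0 : Algebra.adjoin k (Set.range x)) : A) ∈ (aeval x : MvPolynomial ι k →ₐ[k] A).range := by
          have h9 := (p.coeff 0).2
          have h10 : Algebra.adjoin k (Set.range x) ≤ (aeval x : MvPolynomial ι k →ₐ[k] A).range :=
            (Algebra.adjoin_range_eq_range_aeval k x).le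
          exact h10 h9
        obtain ⟨P, hP⟩ := hmem
        have h4 : aeval (fun i => f (x i)) P = 0 := by
          have h5 : f (aeval x P) = aeval (fun i => f (x i)) P := MvPolynomial.comp_aeval_apply x f P
          have h7 : aeval x P = ((p.coeff 0 : Algebra.adjoin k (Set.range x)) : A) := hP
          rw [← h5, h7, h2]
        have h5 : P = 0 := by
          rw [algebraicIndependent_iff] at hx
          exact hx P h4
        apply Subtype.ext
        rw [← hP, h5]
        simp
      rw [h3] at h1 hdiv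
      have h6 : Polynomial.aeval b p.divX = 0 := by
        have : b * Polynomial.aeval b p.divX = 0 := by simpa using h1
        exact (mul_eq_zero.1 this).resolve_left hb0
      have h7 : p.divX = 0 := ih p.divX (by rw [Polynomial.natDegree_divX_eq_natDegree_tsub_one]; omega) h6
      rw [hdiv, h7]
      simp
  exact fun p hp => key p.natDegree p le_rfl hp

/-- the derivative of a polynomial has smaller degree -/
theorem totalDegree_pderiv_lt {k : Type} [Field k] {s : ℕ} (i : Fin s) (p : MvPolynomial (Fin s) k)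
    (hp : pderiv i p ≠ 0) : (pderiv i p).totalDegree < p.totalDegree := by
  classical
  obtain ⟨m, hm, hdeg⟩ : ∃ m ∈ (pderiv i p).support, (m.sum fun _ e => e) = (pderiv i p).totalDegree := by
    have hne : (pderiv i p).support.Nonempty := MvPolynomial.support_nonempty.2 hp
    obtain ⟨m, hm, h⟩ := Finset.exists_mem_eq_sup _ hne (fun m : Fin s →₀ ℕ => m.sum fun _ e => e)
    exact ⟨m, hm, h.symm⟩
  have h1 : (m + Finsupp.single i 1) ∈ p.support := by
    rw [MvPolynomial.mem_support_iff] at hm ⊢
    intro h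
    apply hm
    rw [coeff_pderiv, h, zero_mul]
  have h2 := MvPolynomial.le_totalDegree h1
  have h3 : ((m + Finsupp.single i 1).sum fun _ e => e) = (m.sum fun _ e => e) + 1 := by
    rw [Finsupp.sum_add_index' (fun _ => rfl) (fun _ _ _ => rfl), Finsupp.sum_single_index rfl]
  omega

/-- a polynomial all of whose derivatives vanish is a constant -/
theorem eq_C_of_pderiv {k : Type} [Field k] [CharZero k] {s : ℕ} (p : MvPolynomial (Fin s) k)
    (hp : ∀ i, pderiv i p = 0) : p = MvPolynomial.C (p.coeff 0) := by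
  classical
  ext m
  rw [MvPolynomial.coeff_C]
  split_ifs with h
  · rw [h]
  · obtain ⟨i, hi⟩ : ∃ i, m i ≠ 0 := by
      by_contra hcon
      push Not at hcon
      exact h (by ext i; simp [hcon i])
    have h1 := congrArg (MvPolynomial.coeff (m - Finsupp.single i 1)) (hp i)
    rw [coeff_pderiv, MvPolynomial.coeff_zero] at h1
    have h2 : m - Finsupp.single i 1 + Finsupp.single i 1 = m := by
      ext j
      by_cases hj : i = j
      · subst hj; simp; omega
      · simp [hj]
    rw [h2] at h1
    have h3 : (((m - Finsupp.single i 1 : Fin s →₀ ℕ) i : ℕ) : k) + 1 ≠ 0 := by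
      have h4 := Nat.succ_ne_zero ((m - Finsupp.single i 1 : Fin s →₀ ℕ) i)
      exact_mod_cast h4
    exact (mul_eq_zero.1 h1).resolve_right h3

section main

variable {k K : Type} [Field k] [Field K] [Algebra k K]

theorem Un.mul {O : Subalgebra k K} {a b : K} (ha : Un O a) (hb : Un O b) : Un O (a * b) :=
  ⟨mul_ne_zero ha.1 hb.1, O.mul_mem ha.2.1 hb.2.1, by rw [mul_inv]; exact O.mul_mem ha.2.2 hb.2.2⟩

theorem Un.inv {O : Subalgebra k K} {a : K} (ha : Un O a) : Un O a⁻¹ :=
  ⟨inv_ne_zero ha.1, ha.2.2, by rw [inv_inv]; exact ha.2.1⟩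

theorem isUnit_iff {O : Subalgebra k K} (a : O) : IsUnit a ↔ Un O (a : K) := by
  constructor
  · intro h
    obtain ⟨b, hb⟩ := h.exists_right_inv
    have hb' : (a : K) * (b : K) = 1 := congrArg Subtype.val hb
    have ha0 : (a : K) ≠ 0 := left_ne_zero_of_mul_eq_one hb'
    refine ⟨ha0, a.2, ?_⟩
    rw [inv_eq_of_mul_eq_one_right hb']
    exact b.2
  · rintro ⟨h0, _, hi⟩
    exact IsUnit.of_mul_eq_one (⟨(a : K)⁻¹, hi⟩ : O) (Subtype.ext (mul_inv_cancel₀ h0))

theorem dvq [CharZero k] (htr : Algebra.trdeg k K ≤ 3) (B O : Subalgebra k K) (hBO : B ≤ O) [IsLocalRing O]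
    [UniqueFactorizationMonoid O] (hfr : ∀ x ∈ O, ∃ s ∈ B, Un O s ∧ x * s ∈ B) (q : Ideal B) [q.IsPrime]
    (hqO : ∀ a : B, a ∈ q ↔ ¬ Un O (a : K)) (t : Fin 2 → B)
    (ht : AlgebraicIndependent k (fun i => Ideal.Quotient.mk q (t i)))
    (c : Fin 3 → K) (hc : ∀ i, c i ∈ B)
    (d : Fin 3 → Derivation k K K) (hd : ∀ i j, d i (c j) = if i = j then 1 else 0)
    (hdB : ∀ i, ∀ b ∈ B, d i b ∈ B) (g : K) (hg0 : g ≠ 0) (hgB : g ∈ B) (hgq : (⟨g, hgB⟩ : B) ∈ q)
    (hdg : ∀ i, (⟨d i g, hdB i g hgB⟩ : B) ∈ q) :
    IsDiscreteValuationRing O ∧ ∃ π ∈ O, ¬ Un O π ∧ π ≠ 0 ∧ g / π ^ 2 ∈ O := by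
  classical
  -- four algebraically independent elements do not exist
  have hfour : ∀ y : Option (Option (Fin 2)) → K, ¬ AlgebraicIndependent k y := by
    intro y hy
    have h1 := hy.cardinalMk_le_trdeg.trans htr
    simp at h1
    norm_num at h1
  have hfour3 : ∀ y : Option (Fin 3) → K, ¬ AlgebraicIndependent k y := by
    intro y hy
    have h1 := hy.cardinalMk_le_trdeg.trans htr
    simp at h1
    norm_num at h1
  -- the maximal ideal of `O`
  have hnu : ∀ x ∈ O, ¬ Un O x → ∀ s ∈ B, Un O s → ∀ h : x * s ∈ B, (⟨x * s, h⟩ : B) ∈ q := by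
    intro x hx hxu s hs hsu h
    rw [hqO]
    intro h1
    apply hxu
    have h2 : Un O (x * s * s⁻¹) := Un.mul h1 (Un.inv hsu)
    rwa [mul_assoc, mul_inv_cancel₀ hsu.1, mul_one] at h2
  have hnadd : ∀ x ∈ O, ¬ Un O x → ∀ y ∈ O, ¬ Un O y → ¬ Un O (x + y) := by
    intro x hx hxu y hy hyu h
    have h1 : ¬ IsUnit (⟨x, hx⟩ : O) := fun h => hxu ((isUnit_iff _).1 h)
    have h2 : ¬ IsUnit (⟨y, hy⟩ : O) := fun h => hyu ((isUnit_iff _).1 h)
    have h3 : IsUnit (⟨x, hx⟩ + ⟨y, hy⟩ : O) := (isUnit_iff _).2 h
    rcases IsLocalRing.isUnit_or_isUnit_of_isUnit_add h3 with h4 | h4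
    · exact h1 h4
    · exact h2 h4
  have hnmul : ∀ x ∈ O, ∀ y ∈ O, ¬ Un O y → ¬ Un O (x * y) := by
    intro x hx y hy hyu h
    apply hyu
    have h1 : IsUnit ((⟨x, hx⟩ : O) * ⟨y, hy⟩) := (isUnit_iff _).2 h
    exact (isUnit_iff _).1 (isUnit_of_mul_isUnit_right h1)
  -- every irreducible element divides every nonunit
  have hirr : ∀ p : O, Irreducible p → ∀ x ∈ O, ¬ Un O x → ∃ y ∈ O, x = p * y := by
    intro p hp x hx hxu
    have hprime : Prime p := UniqueFactorizationMonoid.irreducible_iff_prime.1 hp
    have hp0 : (p : K) ≠ 0 := fun h => hprime.ne_zero (Subtype.ext h)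
    let ι : B →+* O := (Subalgebra.inclusion hBO : B →ₐ[k] O)
    let q' : Ideal B := (Ideal.span {p}).comap ι
    have hspan : (Ideal.span {p}).IsPrime := (Ideal.span_singleton_prime hprime.ne_zero).2 hprime
    have hq' : q'.IsPrime := Ideal.IsPrime.comap ι
    have hle : q' ≤ q := by
      intro b hb
      rw [hqO]
      intro hu
      have h1 : IsUnit (ι b) := (isUnit_iff _).2 hu
      rw [Ideal.mem_comap, Ideal.mem_span_singleton] at hb
      exact hprime.not_isUnit (isUnit_of_dvd_unit hb h1)
    have hge : q ≤ q' := by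
      by_contra hcon
      obtain ⟨b, hb, hb'⟩ := SetLike.not_le_iff_exists.1 hcon
      -- a nonzero element of `q'`
      obtain ⟨s, hs, hsu, hps⟩ := hfr p p.2
      have h1 : (⟨(p : K) * s, hps⟩ : B) ∈ q' := by
        rw [Ideal.mem_comap, Ideal.mem_span_singleton]
        exact ⟨⟨s, hBO hs⟩, Subtype.ext rfl⟩
      have h10 : (⟨(p : K) * s, hps⟩ : B) ≠ 0 := fun h => mul_ne_zero hp0 hsu.1 (congrArg Subtype.val h)
      have hdom : IsDomain (B ⧸ q') := Ideal.Quotient.isDomain q'
      -- first step: in `B/q'`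
      let f : (B ⧸ q') →ₐ[k] (B ⧸ q) := Ideal.Quotient.factorₐ k hle
      have hf : ∀ z : B, f (Ideal.Quotient.mk q' z) = Ideal.Quotient.mk q z := fun z => rfl
      have h2 : AlgebraicIndependent k (fun i => f (Ideal.Quotient.mk q' (t i))) := ht
      have h3 : AlgebraicIndependent k (fun o : Option (Fin 2) => o.elim (Ideal.Quotient.mk q' b)
          (fun i => Ideal.Quotient.mk q' (t i))) :=
        option_ind f h2 (by rw [hf]; exact Ideal.Quotient.eq_zero_iff_mem.2 hb)
          (fun h => hb' (Ideal.Quotient.eq_zero_iff_mem.1 h))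
      have h4 : AlgebraicIndependent k (fun o : Option (Fin 2) => Ideal.Quotient.mk q' (o.elim b t)) := by
        convert h3 using 1
        funext o
        cases o <;> rfl
      have h5 := option_ind (Ideal.Quotient.mkₐ k q') h4 (Ideal.Quotient.eq_zero_iff_mem.2 h1) h10
      have h6 := h5.map' (f := B.val) Subtype.val_injective
      exact hfour _ h6
    obtain ⟨s, hs, hsu, hxs⟩ := hfr x hx
    have h1 := hge (hnu x hx hxu s hs hsu hxs)
    rw [Ideal.mem_comap, Ideal.mem_span_singleton] at h1
    obtain ⟨y, hy⟩ := h1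
    refine ⟨y * s⁻¹, O.mul_mem y.2 hsu.2.2, ?_⟩
    have h2 : x * s = p * y := congrArg Subtype.val hy
    rw [← mul_assoc, ← h2, mul_assoc, mul_inv_cancel₀ hsu.1, mul_one]
  have hgO : g ∈ O := hBO hgB
  have hgu : ¬ Un O g := (hqO ⟨g, hgB⟩).1 hgq
  obtain ⟨p, hp, hpg⟩ := WfDvdMonoid.exists_irreducible_factor (a := (⟨g, hgO⟩ : O))
    (fun h => hgu ((isUnit_iff _).1 h)) (fun h => hg0 (congrArg Subtype.val h))
  have hprime : Prime p := UniqueFactorizationMonoid.irreducible_iff_prime.1 hp
  have hp0 : (p : K) ≠ 0 := fun h => hprime.ne_zero (Subtype.ext h)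
  have hpu : ¬ Un O (p : K) := fun h => hprime.not_isUnit ((isUnit_iff _).2 h)
  refine ⟨?_, p, p.2, hpu, hp0, ?_⟩
  · refine IsDiscreteValuationRing.of_ufd_of_unique_irreducible ⟨p, hp⟩ ?_
    intro p1 p2 h1 h2
    have hu1 : ¬ Un O (p1 : K) := fun h => h1.not_isUnit ((isUnit_iff _).2 h)
    have hu2 : ¬ Un O (p2 : K) := fun h => h2.not_isUnit ((isUnit_iff _).2 h)
    obtain ⟨y1, hy1, e1⟩ := hirr p1 h1 p2 p2.2 hu2
    obtain ⟨y2, hy2, e2⟩ := hirr p2 h2 p1 p1.2 hu1
    exact associated_of_dvd_dvd ⟨⟨y1, hy1⟩, Subtype.ext e1⟩ ⟨⟨y2, hy2⟩, Subtype.ext e2⟩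
  · by_contra hcon
    obtain ⟨u, hu⟩ := hpg
    have hu' : g = p * u := congrArg Subtype.val hu
    have huu : Un O (u : K) := by
      by_contra h
      obtain ⟨y, hy, e⟩ := hirr p hp u u.2 h
      apply hcon
      have : g / (p : K) ^ 2 = y := by
        rw [hu', e]
        field_simp
      rw [this]
      exact hy
    -- the derivations preserve `O`
    have hdO : ∀ i, ∀ x ∈ O, d i x ∈ O := by
      intro i x hx
      obtain ⟨s, hs, hsu, hxs⟩ := hfr x hx
      have h1 : d i (x * s) = x * d i s + s * d i x := by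
        rw [Derivation.leibniz]; simp [smul_eq_mul]
      have h2 : d i x = (d i (x * s) - x * d i s) * s⁻¹ := by
        rw [h1]
        field_simp [hsu.1]
        ring
      rw [h2]
      exact O.mul_mem (O.sub_mem (hBO (hdB i _ hxs)) (O.mul_mem hx (hBO (hdB i _ hs)))) hsu.2.2
    have hdm : ∀ i, ∀ x ∈ O, ¬ Un O x → ¬ Un O (d i x) := by
      intro i
      have hdp : ¬ Un O (d i p) := by
        have h1 : d i g = p * d i u + u * d i p := by
          rw [hu', Derivation.leibniz]; simp [smul_eq_mul]
        have h2 : d i p = (u : K)⁻¹ * (d i g + -(d i u * p)) := by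
          rw [h1]
          field_simp [huu.1]
          ring
        rw [h2]
        refine hnmul _ huu.2.2 _ (O.add_mem (hBO (hdB i g hgB)) (O.neg_mem (O.mul_mem (hdO i _ u.2) p.2))) ?_
        refine hnadd _ (hBO (hdB i g hgB)) ((hqO ⟨d i g, hdB i g hgB⟩).1 (hdg i)) _
          (O.neg_mem (O.mul_mem (hdO i _ u.2) p.2)) ?_
        have h3 : -(d i u * (p : K)) = (-(d i u)) * p := by ring
        rw [h3]
        exact hnmul _ (O.neg_mem (hdO i _ u.2)) _ p.2 hpu
      intro x hx hxu
      obtain ⟨y, hy, e⟩ := hirr p hp x hx hxu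
      have h1 : d i x = p * d i y + y * d i p := by
        rw [e, Derivation.leibniz]; simp [smul_eq_mul]
      rw [h1]
      refine hnadd _ (O.mul_mem p.2 (hdO i _ hy)) ?_ _ (O.mul_mem hy (hdO i _ p.2)) (hnmul _ hy _ (hdO i _ p.2) hdp)
      rw [mul_comm]
      exact hnmul _ (hdO i _ hy) _ p.2 hpu
    -- no nonzero polynomial in the `c i` is in the maximal ideal
    have hcB : ∀ P : MvPolynomial (Fin 3) k, aeval c P ∈ B := by
      intro P
      have h1 : aeval c P = B.val (aeval (fun i => (⟨c i, hc i⟩ : B)) P) := by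
        rw [MvPolynomial.comp_aeval_apply]; rfl
      rw [h1]
      exact Subtype.mem _
    have hder : ∀ i, ∀ P : MvPolynomial (Fin 3) k, d i (aeval c P) = aeval c (pderiv i P) := by
      intro i P
      induction P using MvPolynomial.induction_on with
      | C a => rw [MvPolynomial.algHom_C, Derivation.map_algebraMap, pderiv_C, map_zero]
      | add P Q hP hQ => rw [map_add, map_add, hP, hQ, map_add, map_add]
      | mul_X P j hP =>
        rw [map_mul, MvPolynomial.aeval_X, Derivation.leibniz, hP, hd, Derivation.leibniz, pderiv_X, map_add]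
        simp only [smul_eq_mul, map_mul, MvPolynomial.aeval_X]
        by_cases hij : i = j
        · subst hij; simp
        · simp [hij, Ne.symm hij]
    have hall : ∀ n : ℕ, ∀ P : MvPolynomial (Fin 3) k, P.totalDegree ≤ n → P ≠ 0 → Un O (aeval c P) := by
      intro n
      induction n with
      | zero =>
        intro P hP hP0
        have h1 : P = MvPolynomial.C (P.coeff 0) := by
          apply MvPolynomial.totalDegree_eq_zero_iff_eq_C.1
          omega
        rw [h1, MvPolynomial.algHom_C]
        have h2 : P.coeff 0 ≠ 0 := fun h => hP0 (by rw [h1, h, map_zero])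
        refine ⟨by simpa using h2, O.algebraMap_mem _, ?_⟩
        rw [← map_inv₀]
        exact O.algebraMap_mem _
      | succ n ih =>
        intro P hP hP0
        by_contra hcon2
        by_cases hall0 : ∀ i, pderiv i P = 0
        · have h1 := eq_C_of_pderiv P hall0
          apply hcon2
          rw [h1, MvPolynomial.algHom_C]
          have h2 : P.coeff 0 ≠ 0 := fun h => hP0 (by rw [h1, h, map_zero])
          refine ⟨by simpa using h2, O.algebraMap_mem _, ?_⟩
          rw [← map_inv₀]
          exact O.algebraMap_mem _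
        · push Not at hall0
          obtain ⟨i, hi⟩ := hall0
          have h1 := totalDegree_pderiv_lt i P hi
          have h2 := ih (pderiv i P) (by omega) hi
          rw [← hder] at h2
          exact hdm i _ (hBO (hcB P)) hcon2 h2
    -- so the `c i` are independent modulo `q`, and `g` gives a fourth element
    have hind : AlgebraicIndependent k (fun i => Ideal.Quotient.mk q (⟨c i, hc i⟩ : B)) := by
      rw [algebraicIndependent_iff]
      intro P hP
      by_contra hP0
      have h1 := hall P.totalDegree P le_rfl hP0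
      have h2 : aeval (fun i => Ideal.Quotient.mk q (⟨c i, hc i⟩ : B)) P =
          (Ideal.Quotient.mkₐ k q) (aeval (fun i => (⟨c i, hc i⟩ : B)) P) := by
        rw [MvPolynomial.comp_aeval_apply]
        rfl
      rw [h2] at hP
      have h3 : aeval (fun i => (⟨c i, hc i⟩ : B)) P ∈ q := Ideal.Quotient.eq_zero_iff_mem.1 hP
      have h4 := (hqO _).1 h3
      apply h4
      have h5 : ((aeval (fun i => (⟨c i, hc i⟩ : B)) P : B) : K) = aeval c P := by
        change B.val _ = _
        rw [MvPolynomial.comp_aeval_apply]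
        rfl
      rw [h5]
      exact h1
    have h1 := option_ind (Ideal.Quotient.mkₐ k q) hind (Ideal.Quotient.eq_zero_iff_mem.2 hgq)
      (fun h => hg0 (congrArg Subtype.val h))
    have h2 := h1.map' (f := B.val) Subtype.val_injective
    exact hfour3 _ h2

end main

end Pool.Agent.H20.TU
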