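import Pool.Agent.H20.TU.SPN
import Pool.Agent.H24.TU.Def

/-!
# THEOREM U (MP_e49dc9_ag): the algebraic part of (*1)

`B` is a finitely generated `k`-algebra with field of fractions `K`, stable under the derivations `C.d i`, and
`L₁ h ⊆ B`.  If no nonzero `s h`, `s ∈ L₁`, and its derivatives are in a prime ideal `q` of `B` with
`trdeg (B/q) ≥ 2`, then (*1) holds for `L₁`.
-/

set_option autoImplicit false

open MvPolynomial Pool.Agent.H24.TU
open scoped TensorProduct

namespace Pool.Agent.H20.TU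

section

variable {k X K : Type} [Field k] [Field X] [Field K] [Algebra k X] [Algebra k K]

/-- an element of the base change of a subspace, as a combination of independent vectors -/
theorem exists_repr (L₁ : Submodule k K) (G : X ⊗[k] K) (hG : G ∈ L₁.baseChange X) (hG0 : G ≠ 0) :
    ∃ (m : ℕ) (v : Fin m → K) (a : Fin m → X), LinearIndependent k v ∧ (∀ j, v j ∈ L₁) ∧ a ≠ 0 ∧
      G = ∑ j, a j ⊗ₜ[k] v j := by
  classical
  obtain ⟨G', hG'⟩ := hG
  let b := Module.Basis.ofVectorSpace k L₁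
  let bX := b.baseChange X
  obtain ⟨r, hr⟩ : ∃ r, r = bX.repr G' := ⟨_, rfl⟩
  let S := r.support
  let e := S.equivFin
  have h1 : G' = ∑ i ∈ S, r i • bX i := by
    rw [hr]
    conv_lhs => rw [← bX.linearCombination_repr G', Finsupp.linearCombination_apply, Finsupp.sum]
    rw [← hr]
  have h2 : G = ∑ i ∈ S, r i ⊗ₜ[k] ((b i : L₁) : K) := by
    rw [← hG', h1, map_sum]
    refine Finset.sum_congr rfl fun i _ => ?_
    rw [map_smul]
    simp only [bX, Module.Basis.baseChange_apply, LinearMap.baseChange_tmul, TensorProduct.smul_tmul', smul_eq_mul,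
      mul_one]
    rfl
  have h3 : G = ∑ i : S, r i ⊗ₜ[k] ((b i : L₁) : K) := by
    rw [h2]
    exact (Finset.sum_coe_sort S (fun i => r i ⊗ₜ[k] ((b i : L₁) : K))).symm
  refine ⟨S.card, fun j => ((b (e.symm j) : L₁) : K), fun j => r (e.symm j), ?_, fun j => (b _).2, ?_, ?_⟩
  · have h4 : LinearIndependent k (fun i => ((b i : L₁) : K)) :=
      b.linearIndependent.map' L₁.subtype (Submodule.ker_subtype L₁)
    exact h4.comp (fun j => ((e.symm j : S) : _)) (fun x y hxy => e.symm.injective (Subtype.ext hxy))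
  · intro h0
    apply hG0
    rw [h3]
    refine Finset.sum_eq_zero fun i _ => ?_
    have h5 := congrFun h0 (e i)
    simp only [Equiv.symm_apply_apply, Pi.zero_apply] at h5
    rw [h5, TensorProduct.zero_tmul]
  · rw [h3, ← e.symm.sum_comp]

/-- common denominators -/
theorem exists_den (B : Subalgebra k K) (hfrac : ∀ x : K, ∃ s ∈ B, s ≠ 0 ∧ x * s ∈ B) (Q : Ideal (X ⊗[k] K))
    (z : X ⊗[k] K) : ∃ s ∈ B, s ≠ 0 ∧ Ideal.Quotient.mk Q (z * (1 ⊗ₜ[k] s)) ∈
      Algebra.adjoin X (Set.range (fun b : B => Ideal.Quotient.mk Q ((1 : X) ⊗ₜ[k] (b : K)))) := by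
  have hmem : ∀ s ∈ B, Ideal.Quotient.mk Q ((1 : X) ⊗ₜ[k] s) ∈
      Algebra.adjoin X (Set.range (fun b : B => Ideal.Quotient.mk Q ((1 : X) ⊗ₜ[k] (b : K)))) :=
    fun s hs => Algebra.subset_adjoin ⟨⟨s, hs⟩, rfl⟩
  induction z using TensorProduct.induction_on with
  | zero => exact ⟨1, B.one_mem, one_ne_zero, by rw [zero_mul, map_zero]; exact zero_mem _⟩
  | tmul x f =>
    obtain ⟨s, hs, hs0, hfs⟩ := hfrac f
    refine ⟨s, hs, hs0, ?_⟩
    rw [Algebra.TensorProduct.tmul_mul_tmul, mul_one]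
    have h1 : x ⊗ₜ[k] (f * s) = x • ((1 : X) ⊗ₜ[k] (f * s)) := by
      rw [TensorProduct.smul_tmul', smul_eq_mul, mul_one]
    rw [h1]
    have h2 : Ideal.Quotient.mk Q (x • ((1 : X) ⊗ₜ[k] (f * s))) =
        x • Ideal.Quotient.mk Q ((1 : X) ⊗ₜ[k] (f * s)) := rfl
    rw [h2]
    exact Subalgebra.smul_mem _ (hmem _ hfs) x
  | add y z hy hz =>
    obtain ⟨s, hs, hs0, h1⟩ := hy
    obtain ⟨t, ht, ht0, h2⟩ := hz
    refine ⟨s * t, B.mul_mem hs ht, mul_ne_zero hs0 ht0, ?_⟩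
    have h3 : (y + z) * ((1 : X) ⊗ₜ[k] (s * t)) = y * (1 ⊗ₜ[k] s) * (1 ⊗ₜ[k] t) + z * (1 ⊗ₜ[k] t) * (1 ⊗ₜ[k] s) := by
      rw [mul_assoc, mul_assoc, Algebra.TensorProduct.tmul_mul_tmul, Algebra.TensorProduct.tmul_mul_tmul, mul_one,
        mul_comm t s, add_mul]
    rw [h3, map_add, map_mul, map_mul]
    exact add_mem (mul_mem h1 (hmem _ ht)) (mul_mem h2 (hmem _ hs))

end

/-- the algebraic part of (*1) -/
theorem star_alg {k X K : Type} [Field k] [IsAlgClosed k] [Field X] [Field K] [Algebra k X] [Algebra k K]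
    (L₁ : Submodule k K) (B : Subalgebra k K) (hfg : B.FG)
    (hfrac : ∀ x : K, ∃ s ∈ B, s ≠ 0 ∧ x * s ∈ B) (d : Fin 3 → Derivation k K K)
    (hdB : ∀ i, ∀ b ∈ B, d i b ∈ B) (h : K) (hL : ∀ s ∈ L₁, s * h ∈ B)
    (hno : ∀ q : Ideal B, q.IsPrime → (∃ t : Fin 2 → B, AlgebraicIndependent k (fun i => Ideal.Quotient.mk q (t i))) →
      ∀ s (hs : s ∈ L₁), s ≠ 0 → (⟨s * h, hL s hs⟩ : B) ∈ q →
        (∀ i, (⟨d i (s * h), hdB i _ (hL s hs)⟩ : B) ∈ q) → False) :
    StarOne k X K L₁ := by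
  classical
  intro G hG hG0 Q hQ htr hGQ
  by_contra hcon
  push Not at hcon
  obtain ⟨m, v, a, hv, hvL, ha, hGv⟩ := exists_repr L₁ G hG hG0
  have hBft : Algebra.FiniteType k B := (Subalgebra.fg_iff_finiteType B).1 hfg
  -- the domain generated by `X` and `B`
  let C' := (X ⊗[k] K) ⧸ Q
  let β' : B →ₐ[k] C' := ((Ideal.Quotient.mkₐ k Q).comp (Algebra.TensorProduct.includeRight : K →ₐ[k] X ⊗[k] K)).comp B.val
  have hβ' : ∀ b : B, β' b = Ideal.Quotient.mk Q ((1 : X) ⊗ₜ[k] (b : K)) := fun b => rfl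
  let C := Algebra.adjoin X (Set.range β')
  have hβC : ∀ b, β' b ∈ C := fun b => Algebra.subset_adjoin ⟨b, rfl⟩
  let β : B →ₐ[k] C := AlgHom.codRestrict β' (C.restrictScalars k) hβC
  have hβ : ∀ b, ((β b : C) : C') = β' b := fun b => rfl
  have hadj : Algebra.adjoin X (Set.range β) = ⊤ := by
    rw [eq_top_iff]
    rintro ⟨x, hx⟩ -
    have hx' : x ∈ Algebra.adjoin X (Set.range β') := hx
    induction hx' using Algebra.adjoin_induction with
    | mem y hy =>
      obtain ⟨b, rfl⟩ := hy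
      exact Algebra.subset_adjoin ⟨b, rfl⟩
    | algebraMap c => exact Subalgebra.algebraMap_mem _ c
    | add y z hy' hz' hy hz =>
      have : (⟨y + z, hx⟩ : C) = ⟨y, hy'⟩ + ⟨z, hz'⟩ := rfl
      rw [this]; exact add_mem (hy hy') (hz hz')
    | mul y z hy' hz' hy hz =>
      have : (⟨y * z, hx⟩ : C) = ⟨y, hy'⟩ * ⟨z, hz'⟩ := rfl
      rw [this]; exact mul_mem (hy hy') (hz hz')
  have hdom : IsDomain C' := Ideal.Quotient.isDomain Q
  have halg : Algebra.IsAlgebraic C C' := by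
    refine ⟨fun y => ?_⟩
    obtain ⟨z, rfl⟩ := Ideal.Quotient.mk_surjective y
    obtain ⟨s, hs, hs0, hz⟩ := exists_den B hfrac Q z
    have hu : (β ⟨s, hs⟩ : C) ≠ 0 := by
      intro hcon2
      have h1 : Ideal.Quotient.mk Q ((1 : X) ⊗ₜ[k] s) = 0 := by
        have h2 := congrArg Subtype.val hcon2
        exact h2
      have h3 : IsUnit ((1 : X) ⊗ₜ[k] s) := by
        refine IsUnit.of_mul_eq_one ((1 : X) ⊗ₜ[k] s⁻¹) ?_
        rw [Algebra.TensorProduct.tmul_mul_tmul, mul_one, mul_inv_cancel₀ hs0]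
        rfl
      exact hQ.ne_top (Ideal.eq_top_of_isUnit_mem _ (Ideal.Quotient.eq_zero_iff_mem.1 h1) h3)
    refine ⟨Polynomial.C (β ⟨s, hs⟩) * Polynomial.X - Polynomial.C ⟨_, hz⟩, ?_, ?_⟩
    · intro hp
      have h1 := congrArg (fun p => Polynomial.coeff p 1) hp
      simp only [Polynomial.coeff_sub, Polynomial.coeff_C_mul, Polynomial.coeff_X_one, mul_one,
        Polynomial.coeff_C_succ, sub_zero, Polynomial.coeff_zero] at h1
      exact hu h1
    · rw [map_sub, map_mul, Polynomial.aeval_C, Polynomial.aeval_C, Polynomial.aeval_X]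
      change Ideal.Quotient.mk Q ((1 : X) ⊗ₜ[k] s) * Ideal.Quotient.mk Q z -
        Ideal.Quotient.mk Q (z * ((1 : X) ⊗ₜ[k] s)) = 0
      rw [map_mul, mul_comm, sub_self]
  have htrC : ((2 : ℕ) : Cardinal) ≤ Algebra.trdeg X C := by
    have h1 : Algebra.trdeg X C + Algebra.trdeg C C' = Algebra.trdeg X C' := by
      have hf1 : FaithfulSMul X C := by
        rw [faithfulSMul_iff_algebraMap_injective]
        exact (algebraMap X C).injective
      exact trdeg_add_eq X C (A := C')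
    rw [trdeg_eq_zero (R := C) (A := C'), add_zero] at h1
    rw [h1]
    exact_mod_cast htr
  -- the relations
  let w : Option (Fin 3) → Fin m → B := fun o j =>
    o.elim ⟨v j * h, hL _ (hvL j)⟩ (fun i => ⟨d i (v j * h), hdB i _ (hL _ (hvL j))⟩)
  have hsum : ∀ f : Fin m → K, (∀ j, f j ∈ B) → ∀ b : Fin m → B, (∀ j, (b j : K) = f j) →
      Ideal.Quotient.mk Q (∑ j, a j ⊗ₜ[k] f j) = 0 → ∑ j, a j • β (b j) = 0 := by
    intro f _ b hb h1
    apply Subtype.ext
    rw [AddSubmonoidClass.coe_finsetSum]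
    have h2 : ∀ j, ((a j • β (b j) : C) : C') = Ideal.Quotient.mk Q (a j ⊗ₜ[k] f j) := by
      intro j
      have h3 : a j ⊗ₜ[k] f j = a j • ((1 : X) ⊗ₜ[k] f j) := by
        rw [TensorProduct.smul_tmul', smul_eq_mul, mul_one]
      rw [h3, ← hb j]
      rfl
    rw [Finset.sum_congr rfl (fun j _ => h2 j), ← map_sum, h1]
    rfl
  have hGh : G * ((1 : X) ⊗ₜ[k] h) = ∑ j, a j ⊗ₜ[k] (v j * h) := by
    rw [hGv, Finset.sum_mul]
    refine Finset.sum_congr rfl fun j _ => ?_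
    rw [Algebra.TensorProduct.tmul_mul_tmul, mul_one]
  have hw : ∀ o, ∑ j, a j • β (w o j) = 0 := by
    intro o
    rcases o with _ | i
    · refine hsum (fun j => v j * h) (fun j => hL _ (hvL j)) _ (fun j => rfl) ?_
      rw [← hGh]
      exact Ideal.Quotient.eq_zero_iff_mem.2 (Ideal.mul_mem_right _ _ hGQ)
    · refine hsum (fun j => d i (v j * h)) (fun j => hdB i _ (hL _ (hvL j))) _ (fun j => rfl) ?_
      have h1 : ∑ j, a j ⊗ₜ[k] d i (v j * h) = dK X (d i) (G * ((1 : X) ⊗ₜ[k] h)) := by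
        rw [hGh, map_sum]
        exact Finset.sum_congr rfl fun j _ => (dK_tmul _ _ _).symm
      rw [h1, Derivation.leibniz, Ideal.Quotient.eq_zero_iff_mem]
      refine add_mem ?_ ?_
      · rw [smul_eq_mul]; exact Ideal.mul_mem_right _ _ hGQ
      · rw [smul_eq_mul]; exact Ideal.mul_mem_left _ _ (hcon (d i))
  obtain ⟨q, hq, ht, l, hl, hlq⟩ := spn β hadj htrC a ha w hw
  have hs : ∑ j, l j • v j ∈ L₁ := sum_mem fun j _ => L₁.smul_mem _ (hvL j)
  have hs0 : ∑ j, l j • v j ≠ 0 := by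
    intro hcon2
    apply hl
    funext j
    exact (Fintype.linearIndependent_iff.1 hv) l hcon2 j
  refine hno q hq ht (∑ j, l j • v j) hs hs0 ?_ ?_
  · have h1 := hlq none
    convert h1 using 1
    apply Subtype.ext
    rw [AddSubmonoidClass.coe_finsetSum]
    change (∑ j, l j • v j) * h = ∑ j, l j • (v j * h)
    rw [Finset.sum_mul]
    exact Finset.sum_congr rfl fun j _ => smul_mul_assoc _ _ _
  · intro i
    have h1 := hlq (some i)
    convert h1 using 1
    apply Subtype.ext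
    rw [AddSubmonoidClass.coe_finsetSum]
    change d i ((∑ j, l j • v j) * h) = ∑ j, l j • (d i (v j * h))
    rw [Finset.sum_mul, map_sum]
    refine Finset.sum_congr rfl fun j _ => ?_
    rw [smul_mul_assoc, Derivation.map_smul]

end Pool.Agent.H20.TU
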