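import Pool.Agent.H20.TU.CHT
import Pool.Agent.H20.TU.ST0
import Pool.Agent.H20.TU.DVQ

/-!
# THEOREM U (MP_e49dc9_ag): (*1)

If the sections of `D` vanish to order at most `1` along the prime divisors (`Star D`), then (*1) holds for the space of
the sections of `D`, for every coefficient field.
-/

set_option autoImplicit false

namespace Pool.Agent.H20.TU

open Pool.Agent.H54.RV Pool.Agent.H83.TU Pool.Agent.H24.TU

variable {k K : Type} [Field k] [Field K] [Algebra k K] {X : Mod k K}

/-- a point whose local ring is a discrete valuation ring with field of fractions `K` is a prime divisor -/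
theorem exists_pdiv (x : X.P) (hfr : ∀ a : K, ∃ s ∈ X.O x, s ≠ 0 ∧ a * s ∈ X.O x)
    (hdvr : IsDiscreteValuationRing (X.O x)) : ∃ P : PDiv X, P.η = x := by
  have hval : ∀ a : K, a ∈ X.O x ∨ a⁻¹ ∈ X.O x := by
    intro a
    obtain ⟨s, hs, hs0, has⟩ := hfr a
    by_cases ha0 : a = 0
    · left; rw [ha0]; exact zero_mem _
    rcases ValuationRing.dvd_total (⟨s, hs⟩ : X.O x) (⟨a * s, has⟩ : X.O x) with ⟨c, hc⟩ | ⟨c, hc⟩
    · left
      have h1 : a * s = s * (c : K) := congrArg Subtype.val hc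
      have h2 : a = c := by
        rw [mul_comm] at h1
        exact mul_left_cancel₀ hs0 h1
      rw [h2]; exact c.2
    · right
      have h1 : s = a * s * (c : K) := congrArg Subtype.val hc
      have h3 : a * (c : K) = 1 := by
        have h4 : s * (a * (c : K)) = s * 1 := by
          rw [mul_one]
          conv_rhs => rw [h1]
          ring
        exact mul_left_cancel₀ hs0 h4
      have h2 : a⁻¹ = c := inv_eq_of_mul_eq_one_right h3
      rw [h2]; exact c.2
  let R : ValuationSubring K := { (X.O x).toSubring with mem_or_inv_mem' := hval }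
  let e : X.O x ≃+* R :=
    { toFun := fun a => ⟨a.1, a.2⟩
      invFun := fun a => ⟨a.1, a.2⟩
      left_inv := fun _ => rfl
      right_inv := fun _ => rfl
      map_mul' := fun _ _ => rfl
      map_add' := fun _ _ => rfl }
  have hR : IsDiscreteValuationRing R := IsDiscreteValuationRing.RingEquivClass.isDiscreteValuationRing e
  exact ⟨⟨x, ⟨R, fun c => (X.O x).algebraMap_mem c, hR⟩, fun a => Iff.rfl⟩, rfl⟩

/-- (*1) for the sections of `D` -/
theorem star_one [IsAlgClosed k] [CharZero k] (hX : IsVar X) (hg : ∃ g, Gen X g)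
    (hufd : ∀ x, UniqueFactorizationMonoid (X.O x)) (htr : Algebra.trdeg k K = 3) (C : Coord k K) (D : Cart X)
    (hS : Star D) (Y : Type) [Field Y] [Algebra k Y] : StarOne k Y K (secL D 1) := by
  classical
  obtain ⟨U, hU, hne, hcU, hdU, h, h0, hDh⟩ := chart hX hg C D
  refine star_alg (secL D 1) (X.sec U) (hX.fg U hU hne) (sec_frac hX hg U hU hne) C.d hdU h ?_ ?_
  · intro s hs
    rw [mem_sec]
    intro y hy
    have h1 := hs y
    rw [pow_one] at h1
    have h2 := hDh y hy
    have h3 : s * h = s * D.eq y * (D.eq y / h)⁻¹ := by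
      have := D.ne y
      field_simp
    rw [h3]
    exact (X.O y).mul_mem h1 h2.2.2
  · intro q hq ht s hs hs0 hsq hdq
    obtain ⟨t, ht⟩ := ht
    obtain ⟨x, hxU, hx⟩ := hX.prime U hU hne q hq
    have hle : X.sec U ≤ X.O x := fun a ha => (mem_sec U a).1 ha x hxU
    have hufdx := hufd x
    obtain ⟨hdvr, π, hπ, hπu, hπ0, hgπ⟩ := dvq (le_of_eq htr) (X.sec U) (X.O x) hle
      (hX.frac U x hU hxU) q hx t ht C.c hcU C.d C.dual hdU (s * h) (mul_ne_zero hs0 h0) _ hsq hdq
    obtain ⟨P, hP⟩ := exists_pdiv x (fun a => by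
      obtain ⟨b, hb, hb0, hab⟩ := sec_frac hX hg U hU hne a
      exact ⟨b, hle hb, hb0, hle hab⟩) hdvr
    have h1 := hS P s hs0 hs
    have hmem : ∀ a, a ∈ X.O x ↔ a ∈ P.p.R := by
      intro a
      rw [← hP]
      exact P.mem a
    rw [hP] at h1
    have h2 := hDh x hxU
    have h3 : P.p.ord (D.eq x / h) = 0 :=
      (ord_eq_zero P.p _ h2.1).2 ⟨(hmem _).1 h2.2.1, (hmem _).1 h2.2.2⟩
    have h4 : P.p.ord (s * D.eq x) = P.p.ord (s * h) := by
      have h5 : s * D.eq x = s * h * (D.eq x / h) := by field_simp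
      rw [h5, ord_mul _ _ _ (mul_ne_zero hs0 h0) h2.1, h3, add_zero]
    have h5 : 1 ≤ P.p.ord π := by
      have h6 : 0 ≤ P.p.ord π := (ord_nonneg P.p π hπ0).2 ((hmem _).1 hπ)
      have h7 : P.p.ord π ≠ 0 := by
        intro h8
        have h9 := (ord_eq_zero P.p π hπ0).1 h8
        exact hπu ⟨hπ0, hπ, (hmem _).2 h9.2⟩
      omega
    have h6 : 0 ≤ P.p.ord (s * h / π ^ 2) :=
      (ord_nonneg P.p _ (div_ne_zero (mul_ne_zero hs0 h0) (pow_ne_zero 2 hπ0))).2 ((hmem _).1 hgπ)
    have h7 : P.p.ord (s * h) = P.p.ord (s * h / π ^ 2) + (P.p.ord π + P.p.ord π) := by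
      rw [← ord_mul _ _ _ hπ0 hπ0, ← ord_mul _ _ _ (div_ne_zero (mul_ne_zero hs0 h0) (pow_ne_zero 2 hπ0))
        (mul_ne_zero hπ0 hπ0)]
      congr 1
      field_simp
    omega

end Pool.Agent.H20.TU
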