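import Mathlib

/-!
# THEOREM U (MP_e49dc9_ag): factoriality of smooth local rings, part 1

`int_shift`: let the ring `R` be integral over the polynomials in `s 0`, `s 1`.  Then for `e` large it is integral over
the polynomials in `h 0 + s 0 ^ e`, `h 1 + s 1 ^ e`.
-/

set_option autoImplicit false

open MvPolynomial

namespace Pool.Agent.H20.TU

section val

variable {k L : Type} [Field k] [Field L] [Algebra k L] (V : ValuationSubring L)

theorem val_poly (hk : ∀ c : k, algebraMap k L c ∈ V) (g : V.ValueGroup) (hg : 1 ≤ g) (s : Fin 2 → L)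
    (hs : ∀ i, V.valuation (s i) ≤ g) (Q : MvPolynomial (Fin 2) k) :
    V.valuation (aeval s Q) ≤ g ^ Q.totalDegree := by
  rw [MvPolynomial.aeval_def, MvPolynomial.eval₂_eq']
  refine Valuation.map_sum_le _ fun m hm => ?_
  rw [map_mul, map_prod]
  have h1 : V.valuation (algebraMap k L (coeff m Q)) ≤ 1 := (V.valuation_le_one_iff _).2 (hk _)
  have h2 : ∏ i, V.valuation (s i ^ m i) ≤ g ^ Q.totalDegree := by
    calc ∏ i, V.valuation (s i ^ m i) ≤ ∏ i, g ^ m i := by
          refine Finset.prod_le_prod' fun i _ => ?_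
          rw [map_pow]
          exact pow_le_pow_left₀ zero_le (hs i) _
      _ = g ^ (∑ i, m i) := Finset.prod_pow_eq_pow_sum _ _ _
      _ ≤ g ^ Q.totalDegree := by
          refine pow_le_pow_right₀ hg ?_
          have h3 := MvPolynomial.le_totalDegree hm
          rwa [Finsupp.sum_fintype _ _ (fun _ => rfl)] at h3
  calc V.valuation (algebraMap k L (coeff m Q)) * ∏ i, V.valuation (s i ^ m i) ≤ 1 * g ^ Q.totalDegree :=
        mul_le_mul' h1 h2
    _ = g ^ Q.totalDegree := one_mul _

theorem val_root (hk : ∀ c : k, algebraMap k L c ∈ V) (g : V.ValueGroup) (hg : 1 ≤ g) (s : Fin 2 → L)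
    (hs : ∀ i, V.valuation (s i) ≤ g) (h : L) (p : Polynomial (MvPolynomial (Fin 2) k)) (hp : p.Monic)
    (hph : p.eval₂ (aeval s : MvPolynomial (Fin 2) k →ₐ[k] L).toRingHom h = 0) (D : ℕ)
    (hD : ∀ j, (p.coeff j).totalDegree ≤ D) : V.valuation h ≤ g ^ D := by
  by_contra hcon
  rw [not_le] at hcon
  have h1 : 1 < V.valuation h := lt_of_le_of_lt (one_le_pow₀ hg) hcon
  rw [Polynomial.eval₂_eq_sum_range, Finset.sum_range_succ, hp.coeff_natDegree, map_one, one_mul] at hph
  have h2 : h ^ p.natDegree = -∑ j ∈ Finset.range p.natDegree,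
      (aeval s : MvPolynomial (Fin 2) k →ₐ[k] L).toRingHom (p.coeff j) * h ^ j := by
    rw [eq_neg_iff_add_eq_zero, add_comm]
    exact hph
  have h3 : V.valuation (∑ j ∈ Finset.range p.natDegree,
      (aeval s : MvPolynomial (Fin 2) k →ₐ[k] L).toRingHom (p.coeff j) * h ^ j) < V.valuation h ^ p.natDegree := by
    refine Valuation.map_sum_lt _ (pow_ne_zero _ (ne_of_gt (zero_lt_one.trans h1))) fun j hj => ?_
    rw [map_mul, map_pow]
    have h4 : V.valuation ((aeval s : MvPolynomial (Fin 2) k →ₐ[k] L).toRingHom (p.coeff j)) ≤ g ^ D :=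
      (val_poly V hk g hg s hs _).trans (pow_le_pow_right₀ hg (hD j))
    have h5 : 0 < V.valuation h ^ j := pow_pos (zero_lt_one.trans h1) j
    calc V.valuation ((aeval s : MvPolynomial (Fin 2) k →ₐ[k] L).toRingHom (p.coeff j)) * V.valuation h ^ j
        < V.valuation h * V.valuation h ^ j := mul_lt_mul_of_pos_right (lt_of_le_of_lt h4 hcon) h5
      _ = V.valuation h ^ (j + 1) := by rw [pow_succ, mul_comm]
      _ ≤ V.valuation h ^ p.natDegree := pow_le_pow_right₀ h1.le (by have := Finset.mem_range.1 hj; omega)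
  have h6 : V.valuation (h ^ p.natDegree) < V.valuation h ^ p.natDegree := by
    rw [h2, Valuation.map_neg]
    exact h3
  rw [map_pow] at h6
  exact lt_irrefl _ h6

end val

/-- an element which is in all valuation rings which contain the image is integral -/
theorem int_of_val {T L : Type} [CommRing T] [Field L] (θ : T →+* L) (b : L)
    (h : ∀ V : ValuationSubring L, (∀ a, θ a ∈ V) → b ∈ V) : θ.IsIntegralElem b := by
  have h1 : b ∈ (⨅ V : {V : ValuationSubring L // (Set.range θ : Set L) ⊆ V.toSubring}, V.1.toSubring : Subring L) := by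
    rw [Subring.mem_iInf]
    rintro ⟨V, hV⟩
    exact h V fun a => hV ⟨a, rfl⟩
  rw [iInf_valuationSubring_superset] at h1
  have h2 : IsIntegral (Subring.closure (Set.range θ : Set L)) b := h1
  have h3 : Subring.closure (Set.range θ : Set L) = θ.range := by
    have : (Set.range θ : Set L) = (θ.range : Set L) := rfl
    rw [this, Subring.closure_eq]
  rw [h3] at h2
  obtain ⟨p, hp, hp0⟩ := h2
  have hsurj : Function.Surjective θ.rangeRestrict := θ.rangeRestrict_surjective
  obtain ⟨q, hq, -, hqm⟩ := Polynomial.lifts_and_natDegree_eq_and_monic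
    (f := θ.rangeRestrict) (p := p) (by
      rw [Polynomial.lifts_iff_coeff_lifts]
      intro n
      obtain ⟨a, ha⟩ := hsurj (p.coeff n)
      exact ⟨a, ha⟩) hp
  refine ⟨q, hqm, ?_⟩
  rw [← hq, Polynomial.eval₂_map] at hp0
  exact hp0

theorem int_shift {k R : Type} [Field k] [CommRing R] [IsDomain R] [Algebra k R] (s h : Fin 2 → R)
    (hs : (aeval s : MvPolynomial (Fin 2) k →ₐ[k] R).toRingHom.IsIntegral) :
    ∃ e₀ : ℕ, ∀ e ≥ e₀, (aeval (fun i => h i + s i ^ e) : MvPolynomial (Fin 2) k →ₐ[k] R).toRingHom.IsIntegral := by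
  classical
  let L := FractionRing R
  choose p hp hp0 using fun i => hs (h i)
  obtain ⟨D, hD⟩ : ∃ D : ℕ, ∀ i j, ((p i).coeff j).totalDegree ≤ D := by
    refine ⟨∑ i, ∑ j ∈ (p i).support, ((p i).coeff j).totalDegree, fun i j => ?_⟩
    by_cases hj : j ∈ (p i).support
    · calc ((p i).coeff j).totalDegree ≤ ∑ j ∈ (p i).support, ((p i).coeff j).totalDegree :=
            Finset.single_le_sum (f := fun j => ((p i).coeff j).totalDegree) (fun _ _ => Nat.zero_le _) hj
        _ ≤ _ := Finset.single_le_sum (f := fun i => ∑ j ∈ (p i).support, ((p i).coeff j).totalDegree)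
            (fun _ _ => Nat.zero_le _) (Finset.mem_univ i)
    · rw [Polynomial.notMem_support_iff.1 hj, totalDegree_zero]
      exact Nat.zero_le _
  refine ⟨D + 1, fun e he b => ?_⟩
  obtain ⟨u, hu⟩ : ∃ u : Fin 2 → R, u = fun i => h i + s i ^ e := ⟨_, rfl⟩
  rw [← hu]
  have hcomp : ∀ (w : Fin 2 → R) (Q : MvPolynomial (Fin 2) k),
      algebraMap R L (aeval w Q) = aeval (fun i => algebraMap R L (w i)) Q := fun w Q => by
    exact (MvPolynomial.aeval_algebraMap_apply L w Q).symm
  have hmain : ((algebraMap R L).comp (aeval u : MvPolynomial (Fin 2) k →ₐ[k] R).toRingHom).IsIntegralElem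
      (algebraMap R L b) := by
    refine int_of_val _ _ fun V hV => ?_
    have hk : ∀ c : k, algebraMap k L c ∈ V := fun c => by
      have h1 := hV (C c)
      have h2 : (algebraMap R L).comp (aeval u : MvPolynomial (Fin 2) k →ₐ[k] R).toRingHom (C c) = algebraMap k L c := by
        change algebraMap R L (aeval u (C c)) = _
        rw [hcomp, MvPolynomial.algHom_C]
      rwa [h2] at h1
    have hu' : ∀ i, algebraMap R L (h i) + algebraMap R L (s i) ^ e ∈ V := fun i => by
      have h1 := hV (X i)
      have h2 : (algebraMap R L).comp (aeval u : MvPolynomial (Fin 2) k →ₐ[k] R).toRingHom (X i) =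
          algebraMap R L (h i) + algebraMap R L (s i) ^ e := by
        change algebraMap R L (aeval u (X i)) = _
        rw [aeval_X, hu, map_add, map_pow]
      rwa [h2] at h1
    -- the bound
    obtain ⟨g, hg1, hgs, hgm⟩ : ∃ g : V.ValueGroup, 1 ≤ g ∧ (∀ i, V.valuation (algebraMap R L (s i)) ≤ g) ∧
        (g = 1 ∨ ∃ i, g = V.valuation (algebraMap R L (s i))) := by
      refine ⟨max 1 (max (V.valuation (algebraMap R L (s 0))) (V.valuation (algebraMap R L (s 1)))),
        le_max_left _ _, fun i => ?_, ?_⟩
      · fin_cases i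
        · exact (le_max_left _ _).trans (le_max_right _ _)
        · exact (le_max_right _ _).trans (le_max_right _ _)
      · rcases max_choice (1 : V.ValueGroup) (max (V.valuation (algebraMap R L (s 0))) (V.valuation (algebraMap R L (s 1))))
          with h1 | h1
        · left; exact h1
        · right
          rcases max_choice (V.valuation (algebraMap R L (s 0))) (V.valuation (algebraMap R L (s 1))) with h2 | h2
          · exact ⟨0, h1.trans h2⟩
          · exact ⟨1, h1.trans h2⟩
    have hh : ∀ i, V.valuation (algebraMap R L (h i)) ≤ g ^ D := fun i => by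
      refine val_root V hk g hg1 (fun j => algebraMap R L (s j)) hgs _ (p i) (hp i) ?_ D (hD i)
      have h1 := congrArg (algebraMap R L) (hp0 i)
      rw [map_zero, Polynomial.hom_eval₂] at h1
      rw [← h1]
      congr 1
      apply RingHom.ext
      intro Q
      exact (hcomp s Q).symm
    have hg : g = 1 := by
      rcases hgm with h1 | ⟨i, hi⟩
      · exact h1
      by_contra hne
      have hgt : 1 < g := lt_of_le_of_ne hg1 (Ne.symm hne)
      have h2 : V.valuation (algebraMap R L (h i)) < V.valuation (algebraMap R L (s i) ^ e) := by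
        rw [map_pow, ← hi]
        exact lt_of_le_of_lt (hh i) (pow_lt_pow_right₀ hgt (by omega))
      have h3 : V.valuation (algebraMap R L (h i) + algebraMap R L (s i) ^ e) =
          V.valuation (algebraMap R L (s i) ^ e) := by
        rw [add_comm]
        exact Valuation.map_add_eq_of_lt_left _ h2
      have h4 := (V.valuation_le_one_iff _).2 (hu' i)
      rw [h3, map_pow, ← hi] at h4
      exact absurd (one_lt_pow₀ hgt (by omega)) (not_lt.2 h4)
    have hsV : ∀ Q : MvPolynomial (Fin 2) k, algebraMap R L (aeval s Q) ∈ V := fun Q => by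
      rw [← V.valuation_le_one_iff, hcomp]
      have h1 := val_poly V hk g hg1 (fun j => algebraMap R L (s j)) hgs Q
      rwa [hg, one_pow] at h1
    obtain ⟨P, hP, hP0⟩ := hs b
    let φ : MvPolynomial (Fin 2) k →+* V := ((algebraMap R L).comp (aeval s : MvPolynomial (Fin 2) k →ₐ[k] R).toRingHom).codRestrict
      V.toSubring hsV
    have h1 : IsIntegral V (algebraMap R L b) := by
      refine ⟨P.map φ, hP.map φ, ?_⟩
      rw [Polynomial.eval₂_map]
      have h2 := congrArg (algebraMap R L) hP0
      rw [map_zero, Polynomial.hom_eval₂] at h2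
      exact h2
    obtain ⟨y, hy⟩ := IsIntegrallyClosed.isIntegral_iff.1 h1
    rw [← hy]
    exact y.2
  obtain ⟨P, hP, hP0⟩ := hmain
  refine ⟨P, hP, ?_⟩
  rw [← Polynomial.hom_eval₂] at hP0
  exact (IsFractionRing.injective R L) (hP0.trans (map_zero _).symm)

end Pool.Agent.H20.TU
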