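import Mathlib

/-!
# THEOREM U (MP_e49dc9_ag): factoriality of smooth local rings, part 2: transcendence degrees

* `exists_indep`: an algebraically independent family from the transcendence degree.
* `inj_of_indep`: a homomorphism from a domain of transcendence degree `≤ n` which maps `n` elements to algebraically
  independent elements is injective.
* `trdeg_of_int`: integral extensions have the same transcendence degree.
* `hyper_indep`: two of three variables are algebraically independent modulo a prime polynomial.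
* `hyper_trdeg`: the transcendence degree of `k[X 0, X 1, X 2]` modulo a prime polynomial is at most `2`.
* `ker_principal`: a prime ideal `≠ 0` of `k[X 0, X 1, X 2]` with quotient of transcendence degree `≥ 2` is principal.
-/

set_option autoImplicit false

open MvPolynomial

namespace Pool.Agent.H20.TU

theorem exists_indep {k D : Type} [Field k] [CommRing D] [IsDomain D] [Algebra k D] (n : ℕ)
    (h : (n : Cardinal) ≤ Algebra.trdeg k D) : ∃ x : Fin n → D, AlgebraicIndependent k x := by
  obtain ⟨ι, x, hx⟩ := exists_isTranscendenceBasis' k D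
  rw [← hx.cardinalMk_eq_trdeg] at h
  have h1 : Cardinal.mk (Fin n) ≤ Cardinal.mk ι := by
    rwa [Cardinal.mk_fin]
  obtain ⟨e⟩ := Cardinal.le_def _ _ |>.1 h1
  exact ⟨x ∘ e, hx.1.comp e e.injective⟩

theorem inj_of_indep {k D D' : Type} [Field k] [CommRing D] [IsDomain D] [CommRing D'] [IsDomain D'] [Algebra k D]
    [Algebra k D'] (f : D →ₐ[k] D') (n : ℕ) (x : Fin n → D) (hy : AlgebraicIndependent k (f ∘ x))
    (htr : Algebra.trdeg k D ≤ n) : Function.Injective f := by
  have hx : AlgebraicIndependent k x := hy.of_comp f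
  have hb : IsTranscendenceBasis k x := by
    refine hx.isTranscendenceBasis_of_trdeg_le_of_finite ?_
    rwa [Cardinal.mk_fin]
  have halg := hb.isAlgebraic
  rw [injective_iff_map_eq_zero]
  intro z hz
  by_contra hz0
  obtain ⟨r, hr, c, hc⟩ := (halg.isAlgebraic z).exists_nonzero_dvd (mem_nonZeroDivisors_of_ne_zero hz0)
  have h1 : (r : D) = z * c := hc
  have h2 : f (r : D) = 0 := by rw [h1, map_mul, hz, zero_mul]
  have h3 : ∀ w : D, w ∈ Algebra.adjoin k (Set.range x) → ∃ Q : MvPolynomial (Fin n) k, aeval x Q = w := by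
    intro w hw
    rw [Algebra.adjoin_range_eq_range_aeval] at hw
    exact hw
  obtain ⟨Q, hQ⟩ := h3 r r.2
  have h4 : aeval (f ∘ x) Q = 0 := by
    rw [← h2, ← hQ]
    have h5 : (aeval (f ∘ x) : MvPolynomial (Fin n) k →ₐ[k] D') = f.comp (aeval x) := by
      apply MvPolynomial.algHom_ext
      intro j
      rw [aeval_X, AlgHom.comp_apply, aeval_X]
      rfl
    rw [h5]
    rfl
  have h5 : Q = 0 := by
    have h6 := (injective_iff_map_eq_zero (aeval (f ∘ x) : MvPolynomial (Fin n) k →ₐ[k] D')).1 hy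
    exact h6 Q h4
  apply hr
  apply Subtype.ext
  rw [← hQ, h5]
  exact map_zero _

theorem trdeg_of_int {k D R : Type} [Field k] [CommRing D] [IsDomain D] [CommRing R] [IsDomain R] [Algebra k D]
    [Algebra k R] (j : D →ₐ[k] R) (hj : Function.Injective j) (hint : j.toRingHom.IsIntegral) :
    Algebra.trdeg k D = Algebra.trdeg k R := by
  let _ : Algebra D R := j.toRingHom.toAlgebra
  have htow : IsScalarTower k D R := IsScalarTower.of_algebraMap_eq fun c => (j.commutes c).symm
  have hfs : FaithfulSMul D R := (faithfulSMul_iff_algebraMap_injective _ _).2 hj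
  have halg : Algebra.IsAlgebraic D R := ⟨fun z => IsIntegral.isAlgebraic (hint z)⟩
  have h1 := trdeg_add_eq k D (A := R)
  rwa [trdeg_eq_zero (R := D) (A := R), add_zero] at h1

theorem hyper_indep {k : Type} [Field k] (Ψ : MvPolynomial (Fin 3) k) (hΨ : Prime Ψ) :
    ∃ y : Fin 2 → MvPolynomial (Fin 3) k,
      AlgebraicIndependent k (fun i => Ideal.Quotient.mk (Ideal.span {Ψ}) (y i)) := by
  obtain ⟨i, hi⟩ : ∃ i, degreeOf i Ψ ≠ 0 := by
    by_contra hcon
    push Not at hcon
    apply hΨ.not_isUnit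
    have h1 : Ψ.totalDegree = 0 := by
      rw [MvPolynomial.totalDegree_eq_zero_iff]
      intro m hm i
      have h2 := MvPolynomial.monomial_le_degreeOf i hm
      rw [hcon i] at h2
      omega
    rw [MvPolynomial.totalDegree_eq_zero_iff_eq_C] at h1
    rw [h1]
    refine IsUnit.map _ (isUnit_iff_ne_zero.2 fun h2 => ?_)
    rw [h2, map_zero] at h1
    exact hΨ.ne_zero h1
  refine ⟨fun j => X (i.succAbove j), ?_⟩
  rw [algebraicIndependent_iff]
  intro Q hQ
  by_contra hQ0
  have h1 : (aeval fun j => (Ideal.Quotient.mk (Ideal.span {Ψ}) (X (i.succAbove j)))) Q =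
      Ideal.Quotient.mk (Ideal.span {Ψ}) (rename i.succAbove Q) := by
    have h2 : (aeval fun j => (Ideal.Quotient.mk (Ideal.span {Ψ}) (X (i.succAbove j)))) =
        (Ideal.Quotient.mkₐ k (Ideal.span {Ψ})).comp (rename i.succAbove : MvPolynomial (Fin 2) k →ₐ[k] _) := by
      apply MvPolynomial.algHom_ext
      intro j
      rw [aeval_X, AlgHom.comp_apply, rename_X]
      rfl
    rw [h2]
    rfl
  rw [h1, Ideal.Quotient.eq_zero_iff_mem, Ideal.mem_span_singleton] at hQ
  obtain ⟨H, hH⟩ := hQ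
  have hne : rename i.succAbove Q ≠ 0 := by
    intro h2
    exact hQ0 (rename_injective _ Fin.succAbove_right_injective (h2.trans (map_zero _).symm))
  have hH0 : H ≠ 0 := by
    rintro rfl
    rw [mul_zero] at hH
    exact hne hH
  have h3 : degreeOf i (rename i.succAbove Q) = 0 := by
    rw [← Nat.le_zero, MvPolynomial.degreeOf_le_iff]
    intro m hm
    obtain ⟨u, rfl, -⟩ := MvPolynomial.coeff_rename_ne_zero _ _ _ (MvPolynomial.mem_support_iff.1 hm)
    rw [Finsupp.mapDomain_of_notMem_range _ _ (by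
      rintro ⟨j, hj⟩
      exact Fin.succAbove_ne i j hj)]
  rw [hH, degreeOf_mul_eq hΨ.ne_zero hH0] at h3
  omega

theorem hyper_trdeg {k : Type} [Field k] (Φ : MvPolynomial (Fin 3) k) (hΦ : Prime Φ) :
    Algebra.trdeg k (MvPolynomial (Fin 3) k ⧸ Ideal.span {Φ}) ≤ 2 := by
  have hp : (Ideal.span {Φ}).IsPrime := (Ideal.span_singleton_prime hΦ.ne_zero).2 hΦ
  by_contra hcon
  rw [not_le] at hcon
  have h1 : ((3 : ℕ) : Cardinal) ≤ Algebra.trdeg k (MvPolynomial (Fin 3) k ⧸ Ideal.span {Φ}) := by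
    have h2 := Order.succ_le_of_lt hcon
    have h3 : Order.succ (2 : Cardinal) = ((3 : ℕ) : Cardinal) := by
      have h4 : (2 : Cardinal) = ((2 : ℕ) : Cardinal) := by norm_num
      rw [h4, Cardinal.succ_natCast]
      norm_num
    rwa [h3] at h2
  obtain ⟨y, hy⟩ := exists_indep 3 h1
  choose x hx using fun i => Ideal.Quotient.mk_surjective (y i)
  have h4 := inj_of_indep (Ideal.Quotient.mkₐ k (Ideal.span {Φ})) 3 x (by
    rw [show (⇑(Ideal.Quotient.mkₐ k (Ideal.span {Φ})) ∘ x) = y from funext hx]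
    exact hy) (by
    rw [MvPolynomial.trdeg_of_isDomain]
    simp)
  apply hΦ.ne_zero
  apply h4
  rw [map_zero]
  exact Ideal.Quotient.eq_zero_iff_mem.2 (Ideal.mem_span_singleton_self Φ)

theorem ker_principal {k : Type} [Field k] (p : Ideal (MvPolynomial (Fin 3) k)) [hp : p.IsPrime] (hp0 : p ≠ ⊥)
    (htr : (2 : Cardinal) ≤ Algebra.trdeg k (MvPolynomial (Fin 3) k ⧸ p)) : ∃ Φ, Prime Φ ∧ p = Ideal.span {Φ} := by
  obtain ⟨Φ, hΦp, hΦ⟩ := hp.exists_mem_prime_of_ne_bot hp0
  refine ⟨Φ, hΦ, ?_⟩
  have hle : Ideal.span {Φ} ≤ p := (Ideal.span_singleton_le_iff_mem _).2 hΦp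
  have hsp : (Ideal.span {Φ}).IsPrime := (Ideal.span_singleton_prime hΦ.ne_zero).2 hΦ
  obtain ⟨y, hy⟩ := exists_indep (k := k) (D := MvPolynomial (Fin 3) k ⧸ p) 2 (by exact_mod_cast htr)
  choose x hx using fun i => Ideal.Quotient.mk_surjective (y i)
  let f : (MvPolynomial (Fin 3) k ⧸ Ideal.span {Φ}) →ₐ[k] (MvPolynomial (Fin 3) k ⧸ p) :=
    Ideal.Quotient.factorₐ k hle
  have hinj := inj_of_indep f 2 (fun i => Ideal.Quotient.mk _ (x i)) (by
    rw [show (⇑f ∘ fun i => Ideal.Quotient.mk _ (x i)) = y from funext fun i => hx i]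
    exact hy) (by exact_mod_cast hyper_trdeg Φ hΦ)
  refine le_antisymm (fun a ha => ?_) hle
  rw [← Ideal.Quotient.eq_zero_iff_mem]
  apply hinj
  rw [map_zero]
  change Ideal.Quotient.mk p a = 0
  exact Ideal.Quotient.eq_zero_iff_mem.2 ha

end Pool.Agent.H20.TU
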