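import Mathlib

/-!
# THEOREM U (MP_e49dc9_ag): factoriality of smooth local rings, part 3

* `gen_change`: generators of the maximal ideal of a local ring, modulo its square.
* `fin_max`: the maximal ideals over the origin are finitely many.
* `choose_c`: an element of `m ^ 2` which separates `m` from finitely many maximal ideals.
-/

set_option autoImplicit false

open MvPolynomial

namespace Pool.Agent.H20.TU

theorem gen_change {S : Type} [CommRing S] [IsNoetherianRing S] (m : Ideal S) [m.IsPrime] (h c : Fin 3 → S)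
    (hc : ∀ i, c i - h i ∈ m ^ 2)
    (hgen : ∀ y ∈ m, ∃ t, t ∉ m ∧ ∃ z : Fin 3 → S, t * y = ∑ i, h i * z i) :
    ∀ y ∈ m, ∃ t, t ∉ m ∧ ∃ z : Fin 3 → S, t * y = ∑ i, c i * z i := by
  classical
  let B := Localization.AtPrime m
  have hmax : IsLocalRing.maximalIdeal B = m.map (algebraMap S B) := (Localization.AtPrime.map_eq_maximalIdeal).symm
  obtain ⟨N, hN⟩ : ∃ N : Ideal B, N = (Ideal.span (Set.range c)).map (algebraMap S B) := ⟨_, rfl⟩
  have hle : IsLocalRing.maximalIdeal B ≤ N ⊔ IsLocalRing.maximalIdeal B • IsLocalRing.maximalIdeal B := by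
    rw [hmax, Ideal.map_le_iff_le_comap]
    intro y hy
    obtain ⟨t, ht, z, hz⟩ := hgen y hy
    have h1 : t * y ∈ Ideal.span (Set.range c) ⊔ m ^ 2 := by
      have h2 : t * y = ∑ i, c i * z i - ∑ i, (c i - h i) * z i := by
        rw [hz, ← Finset.sum_sub_distrib]
        exact Finset.sum_congr rfl fun i _ => by ring
      rw [h2]
      refine Ideal.sub_mem _ (Ideal.mem_sup_left ?_) (Ideal.mem_sup_right ?_)
      · exact Ideal.sum_mem _ fun i _ => Ideal.mul_mem_right _ _ (Ideal.subset_span ⟨i, rfl⟩)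
      · exact Ideal.sum_mem _ fun i _ => Ideal.mul_mem_right _ _ (hc i)
    have h3 : algebraMap S B (t * y) ∈ N ⊔ Ideal.map (algebraMap S B) m • Ideal.map (algebraMap S B) m := by
      have h4 := Ideal.mem_map_of_mem (algebraMap S B) h1
      rw [Ideal.map_sup, Ideal.map_pow, pow_two, ← hN] at h4
      exact h4
    rw [Ideal.mem_comap]
    have hu : IsUnit (algebraMap S B t) := IsLocalization.map_units B (⟨t, ht⟩ : m.primeCompl)
    obtain ⟨u, hu⟩ := hu
    have h5 : algebraMap S B y = ↑(u⁻¹) * algebraMap S B (t * y) := by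
      rw [map_mul, ← hu, Units.inv_mul_cancel_left]
    rw [h5]
    exact Ideal.mul_mem_left _ _ h3
  have hmN : IsLocalRing.maximalIdeal B ≤ N :=
    Submodule.le_of_le_smul_of_le_jacobson_bot (IsNoetherian.noetherian _)
      (IsLocalRing.maximalIdeal_le_jacobson _) hle
  intro y hy
  have h1 : algebraMap S B y ∈ N := hmN (by rw [hmax]; exact Ideal.mem_map_of_mem _ hy)
  rw [hN, IsLocalization.mem_map_algebraMap_iff m.primeCompl B] at h1
  obtain ⟨⟨⟨a, ha⟩, ⟨t, ht⟩⟩, h2⟩ := h1
  change algebraMap S B y * algebraMap S B t = algebraMap S B a at h2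
  rw [← map_mul, IsLocalization.eq_iff_exists m.primeCompl B] at h2
  obtain ⟨⟨v, hv⟩, h3⟩ := h2
  change v * (y * t) = v * a at h3
  obtain ⟨z, hz⟩ := (Ideal.mem_span_range_iff_exists_fun).1 ha
  refine ⟨v * t, fun h => ?_, fun i => v * z i, ?_⟩
  · rcases (Ideal.IsPrime.mem_or_mem ‹m.IsPrime› h) with h | h
    · exact hv h
    · exact ht h
  · rw [mul_assoc, mul_comm t y, h3, ← hz, Finset.mul_sum]
    exact Finset.sum_congr rfl fun i _ => by ring

theorem fin_max {k R : Type} [Field k] [CommRing R] [Algebra k R] [Algebra.FiniteType k R]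
    (θ : MvPolynomial (Fin 2) k →ₐ[k] R) (hθ : θ.toRingHom.IsIntegral) :
    {M : Ideal R | M.IsMaximal ∧ ∀ i, θ (X i) ∈ M}.Finite := by
  obtain ⟨J, hJ⟩ : ∃ J : Ideal R, J = Ideal.span (Set.range fun i => θ (X i)) := ⟨_, rfl⟩
  have hft : θ.toRingHom.FiniteType := by
    have h : algebraMap k R = θ.toRingHom.comp (algebraMap k (MvPolynomial (Fin 2) k)) := by
      apply RingHom.ext
      intro c
      exact (θ.commutes c).symm
    have h1 : (algebraMap k R).FiniteType := RingHom.finiteType_algebraMap.mpr inferInstance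
    rw [h] at h1
    exact h1.of_comp_finiteType
  have hfin : θ.toRingHom.Finite := hθ.to_finite hft
  have hcomp : ((Ideal.Quotient.mk J).comp θ.toRingHom) =
      (algebraMap k (R ⧸ J)).comp (MvPolynomial.constantCoeff (σ := Fin 2) (R := k)) := by
    apply MvPolynomial.ringHom_ext
    · intro c
      rw [RingHom.comp_apply, RingHom.comp_apply, MvPolynomial.constantCoeff_C]
      have h2 : θ.toRingHom (C c) = algebraMap k R c := θ.commutes c
      rw [h2]
      rfl
    · intro i
      rw [RingHom.comp_apply, RingHom.comp_apply, MvPolynomial.constantCoeff_X, map_zero,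
        Ideal.Quotient.eq_zero_iff_mem, hJ]
      exact Ideal.subset_span ⟨i, rfl⟩
  have hfin2 : (algebraMap k (R ⧸ J)).Finite := by
    have h1 : ((Ideal.Quotient.mk J).comp θ.toRingHom).Finite :=
      (RingHom.Finite.of_surjective _ Ideal.Quotient.mk_surjective).comp hfin
    rw [hcomp] at h1
    exact h1.of_comp_finite
  have hfd : Module.Finite k (R ⧸ J) := RingHom.finite_algebraMap.1 hfin2
  have hart : IsArtinianRing (R ⧸ J) := IsArtinianRing.of_finite k _
  have hf : Finite (MaximalSpectrum (R ⧸ J)) := inferInstance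
  have hf2 : (Set.range fun N : MaximalSpectrum (R ⧸ J) => N.asIdeal.comap (Ideal.Quotient.mk J)).Finite :=
    Set.finite_range _
  refine hf2.subset ?_
  rintro M ⟨hM, hMX⟩
  have hJM : J ≤ M := by
    rw [hJ, Ideal.span_le]
    rintro _ ⟨i, rfl⟩
    exact hMX i
  have h1 : (M.map (Ideal.Quotient.mk J)).comap (Ideal.Quotient.mk J) = M := by
    rw [Ideal.comap_map_of_surjective _ Ideal.Quotient.mk_surjective, ← RingHom.ker_eq_comap_bot, Ideal.mk_ker]
    exact sup_eq_left.2 hJM
  have h2 : (M.map (Ideal.Quotient.mk J)).IsMaximal := by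
    rcases Ideal.map_eq_top_or_isMaximal_of_surjective (Ideal.Quotient.mk J) Ideal.Quotient.mk_surjective hM with h | h
    · exfalso
      rw [h, Ideal.comap_top] at h1
      exact hM.ne_top h1.symm
    · exact h
  exact ⟨⟨_, h2⟩, h1⟩

theorem choose_c {k S : Type} [Field k] [Infinite k] [CommRing S] [Algebra k S] (m : Ideal S) [m.IsMaximal]
    (F : Set (Ideal S)) (hF : F.Finite) (hFm : ∀ M ∈ F, M.IsMaximal ∧ M ≠ m) (h : S) :
    ∃ d ∈ m ^ 2, ∀ M ∈ F, h + d ∉ M := by
  classical
  obtain ⟨e, he, heF⟩ : ∃ e ∈ m, ∀ M ∈ F, e ∉ M := by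
    by_contra hcon
    push Not at hcon
    have h1 : (m : Set S) ⊆ ⋃ M ∈ (hF.toFinset : Set (Ideal S)), (M : Set S) := by
      intro x hx
      obtain ⟨M, hM, hxM⟩ := hcon x hx
      exact Set.mem_biUnion (by simpa using hM) hxM
    obtain ⟨M, hM, hmM⟩ := (Ideal.subset_union_prime (s := hF.toFinset) (f := fun M => M) ⊥ ⊥ (by
      intro M hM _ _
      exact (hFm M (by simpa using hM)).1.isPrime)).1 h1
    have hM' := hFm M (by simpa using hM)
    exact hM'.2 ((‹m.IsMaximal›.eq_of_le hM'.1.ne_top hmM).symm)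
  have hbad : (⋃ M ∈ F, {b : k | h + algebraMap k S b * e ^ 2 ∈ M}).Finite := by
    refine hF.biUnion fun M hM => ?_
    refine Set.Subsingleton.finite fun b hb b' hb' => ?_
    by_contra hne
    have hMp := (hFm M hM).1.isPrime
    have h1 : algebraMap k S (b - b') * e ^ 2 ∈ M := by
      have h2 := M.sub_mem hb hb'
      rw [map_sub]
      convert h2 using 1
      ring
    rcases hMp.mem_or_mem h1 with h2 | h2
    · refine hMp.ne_top (Ideal.eq_top_of_isUnit_mem _ h2 ?_)
      exact (isUnit_iff_ne_zero.2 (sub_ne_zero.2 hne)).map (algebraMap k S)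
    · exact heF M hM (hMp.mem_of_pow_mem 2 h2)
  obtain ⟨b, hb⟩ := hbad.infinite_compl.nonempty
  refine ⟨algebraMap k S b * e ^ 2, Ideal.mul_mem_left _ _ (Ideal.pow_mem_pow he 2), fun M hM hcon => ?_⟩
  exact hb (Set.mem_biUnion hM hcon)

end Pool.Agent.H20.TU
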