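import Mathlib

/-!
# THEOREM U (MP_e49dc9_ag): factoriality of smooth local rings, part 4

`ε : S →ₐ[k] k` a point, `q` an ideal, `c i` functions which vanish at the point and generate its maximal ideal locally,
such that `S / q` is integral over the polynomials in the `c i` and the point is the only common zero of `q` and the
`c i`.
* `lift_unit`: a function which is not zero at the point divides a polynomial in the `c i` with constant term `≠ 0`,
  modulo `q`.
* `exists_r`: a common denominator: `r S ⊆ k[c] + q`.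
* `q_span`: `q` is generated at the point by polynomials in the `c i`.
-/

set_option autoImplicit false

open MvPolynomial

namespace Pool.Agent.H20.TU

section

variable {k S : Type} [Field k] [CommRing S] [Algebra k S] (ε : S →ₐ[k] k) (q : Ideal S) (c : Fin 3 → S)

variable (k) in
/-- the polynomials in `c` -/
noncomputable abbrev av : MvPolynomial (Fin 3) k →ₐ[k] S := aeval c

variable (k) in
/-- the polynomials in `c`, modulo `q` -/
noncomputable def thq : MvPolynomial (Fin 3) k →+* S ⧸ q :=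
  (Ideal.Quotient.mk q).comp (av k c).toRingHom

theorem thq_apply (a : MvPolynomial (Fin 3) k) : thq k q c a = Ideal.Quotient.mk q (av k c a) := rfl

theorem eps_aeval (hc : ∀ i, ε (c i) = 0) (a : MvPolynomial (Fin 3) k) : ε (av k c a) = constantCoeff a := by
  have h1 : (ε.comp (av k c)) = aeval (fun _ => (0 : k)) := by
    apply MvPolynomial.algHom_ext
    intro i
    rw [AlgHom.comp_apply, aeval_X, aeval_X, hc]
  have h2 := congrArg (fun f => f a) h1
  simp only [AlgHom.comp_apply] at h2
  rw [h2]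
  exact MvPolynomial.aeval_zero' a

theorem lift_unit (hint : (thq k q c).IsIntegral)
    (honly : ∀ M : Ideal S, M.IsMaximal → q ≤ M → (∀ i, c i ∈ M) → ∀ y ∈ M, ε y = 0) (s : S) (hs : ε s ≠ 0) :
    ∃ (r : S) (a : MvPolynomial (Fin 3) k), constantCoeff a ≠ 0 ∧ s * r - av k c a ∈ q := by
  by_contra hcon
  push Not at hcon
  let n : Ideal (MvPolynomial (Fin 3) k) := RingHom.ker (constantCoeff : MvPolynomial (Fin 3) k →+* k)
  have hn : n.IsMaximal := RingHom.ker_isMaximal_of_surjective _ (fun x => ⟨C x, constantCoeff_C _ x⟩)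
  let _ : Algebra (MvPolynomial (Fin 3) k) (S ⧸ q) := (thq k q c).toAlgebra
  have hI : Algebra.IsIntegral (MvPolynomial (Fin 3) k) (S ⧸ q) := ⟨hint⟩
  have hle : (Ideal.span {Ideal.Quotient.mk q s}).comap (algebraMap (MvPolynomial (Fin 3) k) (S ⧸ q)) ≤ n := by
    intro a ha
    rw [Ideal.mem_comap, Ideal.mem_span_singleton] at ha
    obtain ⟨w, hw⟩ := ha
    obtain ⟨r, rfl⟩ := Ideal.Quotient.mk_surjective w
    change constantCoeff a = 0
    by_contra h0
    apply hcon r a h0
    rw [← Ideal.Quotient.eq_zero_iff_mem, map_sub, map_mul, ← hw]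
    change Ideal.Quotient.mk q (av k c a) - _ = 0
    rw [sub_self]
  obtain ⟨Q, hQI, hQp, hQ⟩ := Ideal.exists_ideal_over_prime_of_isIntegral n _ hle
  have hQm : Q.IsMaximal := Ideal.isMaximal_of_isIntegral_of_isMaximal_comap Q (by rw [hQ]; exact hn)
  have hM : (Q.comap (Ideal.Quotient.mk q)).IsMaximal :=
    Ideal.comap_isMaximal_of_surjective _ Ideal.Quotient.mk_surjective
  refine hs (honly _ hM ?_ ?_ s ?_)
  · intro y hy
    rw [Ideal.mem_comap, Ideal.Quotient.eq_zero_iff_mem.2 hy]
    exact Q.zero_mem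
  · intro i
    have h1 : (X i : MvPolynomial (Fin 3) k) ∈ n := by
      change constantCoeff (X i) = 0
      exact constantCoeff_X _ i
    rw [← hQ, Ideal.mem_comap] at h1
    have h2 : algebraMap (MvPolynomial (Fin 3) k) (S ⧸ q) (X i) = Ideal.Quotient.mk q (c i) := by
      change thq k q c (X i) = _
      rw [thq_apply, aeval_X]
    rw [h2] at h1
    exact h1
  · exact hQI (Ideal.mem_span_singleton_self _)

theorem exists_r [Algebra.FiniteType k S] (hint : (thq k q c).IsIntegral)
    (honly : ∀ M : Ideal S, M.IsMaximal → q ≤ M → (∀ i, c i ∈ M) → ∀ y ∈ M, ε y = 0)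
    (hgen : ∀ y, ε y = 0 → ∃ t, ε t ≠ 0 ∧ ∃ z : Fin 3 → S, t * y = ∑ i, c i * z i) :
    ∃ r : MvPolynomial (Fin 3) k, constantCoeff r ≠ 0 ∧ ∀ b : S, ∃ a : MvPolynomial (Fin 3) k,
      av k c r * b - av k c a ∈ q := by
  let n : Ideal (MvPolynomial (Fin 3) k) := RingHom.ker (constantCoeff : MvPolynomial (Fin 3) k →+* k)
  have hcomp : (thq k q c).comp (algebraMap k (MvPolynomial (Fin 3) k)) = algebraMap k (S ⧸ q) := by
    apply RingHom.ext
    intro x
    rw [RingHom.comp_apply, thq_apply, MvPolynomial.algebraMap_eq, MvPolynomial.algHom_C]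
    rfl
  have hft : (thq k q c).FiniteType := by
    have h1 : (algebraMap k (S ⧸ q)).FiniteType := RingHom.finiteType_algebraMap.mpr inferInstance
    rw [← hcomp] at h1
    exact h1.of_comp_finiteType
  have hfin : (thq k q c).Finite := hint.to_finite hft
  let _ : Algebra (MvPolynomial (Fin 3) k) (S ⧸ q) := (thq k q c).toAlgebra
  have halg : ∀ a, algebraMap (MvPolynomial (Fin 3) k) (S ⧸ q) a = Ideal.Quotient.mk q (av k c a) := fun a => rfl
  have hmf : Module.Finite (MvPolynomial (Fin 3) k) (S ⧸ q) := hfin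
  let N : Submodule (MvPolynomial (Fin 3) k) (S ⧸ q) :=
    LinearMap.range (Algebra.linearMap (MvPolynomial (Fin 3) k) (S ⧸ q))
  have htop : (⊤ : Submodule (MvPolynomial (Fin 3) k) (S ⧸ q)) ≤ N ⊔ n • ⊤ := by
    rintro w -
    obtain ⟨b, rfl⟩ := Ideal.Quotient.mk_surjective w
    have hy : ε (b - algebraMap k S (ε b)) = 0 := by
      rw [map_sub, AlgHom.commutes]
      exact sub_self _
    obtain ⟨t, ht, z, hz⟩ := hgen _ hy
    obtain ⟨r, a, ha, hra⟩ := lift_unit ε q c hint honly t ht
    -- the class of `y`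
    obtain ⟨y, hyb⟩ : ∃ y, y = b - algebraMap k S (ε b) := ⟨_, rfl⟩
    rw [← hyb] at hz hy
    have h1 : (a : MvPolynomial (Fin 3) k) • Ideal.Quotient.mk q y ∈
        n • (⊤ : Submodule (MvPolynomial (Fin 3) k) (S ⧸ q)) := by
      have h2 : a • Ideal.Quotient.mk q y = ∑ i, (X i : MvPolynomial (Fin 3) k) • Ideal.Quotient.mk q (r * z i) := by
        rw [Algebra.smul_def, halg]
        have h3 : Ideal.Quotient.mk q (av k c a) = Ideal.Quotient.mk q (t * r) := by
          rw [Ideal.Quotient.eq]
          have h4 := q.neg_mem hra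
          rwa [neg_sub] at h4
        rw [h3, ← map_mul]
        have h5 : t * r * y = ∑ i, c i * (r * z i) := by
          rw [mul_right_comm, hz, Finset.sum_mul]
          exact Finset.sum_congr rfl fun i _ => by ring
        rw [h5, map_sum]
        refine Finset.sum_congr rfl fun i _ => ?_
        rw [Algebra.smul_def, halg, aeval_X, map_mul]
      rw [h2]
      refine Submodule.sum_mem _ fun i _ => Submodule.smul_mem_smul ?_ trivial
      exact constantCoeff_X _ i
    have h6 : Ideal.Quotient.mk q y ∈ n • (⊤ : Submodule (MvPolynomial (Fin 3) k) (S ⧸ q)) := by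
      have h7 : (a - C (constantCoeff a)) • Ideal.Quotient.mk q y ∈
          n • (⊤ : Submodule (MvPolynomial (Fin 3) k) (S ⧸ q)) := by
        refine Submodule.smul_mem_smul ?_ trivial
        change constantCoeff (a - C (constantCoeff a)) = 0
        rw [map_sub, constantCoeff_C, sub_self]
      have h8 := Submodule.sub_mem _ h1 h7
      rw [← sub_smul, sub_sub_cancel] at h8
      have h9 := Submodule.smul_mem _ (C (constantCoeff a)⁻¹) h8
      rwa [smul_smul, ← C_mul, inv_mul_cancel₀ ha, C_1, one_smul] at h9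
    rw [Submodule.mem_sup]
    refine ⟨Ideal.Quotient.mk q (algebraMap k S (ε b)), ⟨C (ε b), ?_⟩, _, h6, ?_⟩
    · rw [Algebra.linearMap_apply, halg, MvPolynomial.algHom_C]
    · rw [← map_add, hyb, add_sub_cancel]
  obtain ⟨r, hr, hrN⟩ := Submodule.exists_sub_one_mem_and_smul_le_of_fg_of_le_sup
    (Module.Finite.fg_top (R := MvPolynomial (Fin 3) k) (M := S ⧸ q)) le_top htop
  refine ⟨r, ?_, fun b => ?_⟩
  · have h1 : constantCoeff (r - 1) = 0 := hr
    rw [map_sub, map_one, sub_eq_zero] at h1
    rw [h1]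
    exact one_ne_zero
  · have h1 : r • Ideal.Quotient.mk q b ∈ N := hrN (Submodule.smul_mem_pointwise_smul _ _ _ trivial)
    obtain ⟨a, ha⟩ := h1
    refine ⟨a, ?_⟩
    rw [Algebra.linearMap_apply, halg, Algebra.smul_def, halg, ← map_mul] at ha
    exact (Ideal.Quotient.eq).1 ha.symm

theorem q_span [IsNoetherianRing S] [Algebra.FiniteType k S] (hq : ∀ a ∈ q, ε a = 0) (hint : (thq k q c).IsIntegral)
    (hc : ∀ i, ε (c i) = 0)
    (honly : ∀ M : Ideal S, M.IsMaximal → q ≤ M → (∀ i, c i ∈ M) → ∀ y ∈ M, ε y = 0)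
    (hgen : ∀ y, ε y = 0 → ∃ t, ε t ≠ 0 ∧ ∃ z : Fin 3 → S, t * y = ∑ i, c i * z i) (f : S) (hf : f ∈ q) :
    ∃ t, ε t ≠ 0 ∧ t * f ∈ (RingHom.ker (thq k q c)).map (av k c).toRingHom := by
  classical
  obtain ⟨r, hr, hrS⟩ := exists_r ε q c hint honly hgen
  obtain ⟨m, hm⟩ : ∃ m : Ideal S, m = RingHom.ker ε.toRingHom := ⟨_, rfl⟩
  have hmm : ∀ y, y ∈ m ↔ ε y = 0 := fun y => by rw [hm]; exact Iff.rfl
  have hmp : m.IsPrime := by rw [hm]; exact RingHom.ker_isPrime _
  let B := Localization.AtPrime m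
  have hmax : IsLocalRing.maximalIdeal B = m.map (algebraMap S B) := (Localization.AtPrime.map_eq_maximalIdeal).symm
  obtain ⟨p, hp⟩ : ∃ p : Ideal S,
      p = (RingHom.ker (thq k q c)).map (av k c).toRingHom := ⟨_, rfl⟩
  rw [← hp]
  have hker : ∀ a : MvPolynomial (Fin 3) k, av k c a ∈ q → av k c a ∈ p := by
    intro a ha
    rw [hp]
    refine Ideal.mem_map_of_mem (av k c).toRingHom (x := a) ?_
    change thq k q c a = 0
    rw [thq_apply, Ideal.Quotient.eq_zero_iff_mem]
    exact ha
  have hle : q.map (algebraMap S B) ≤ p.map (algebraMap S B) ⊔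
      IsLocalRing.maximalIdeal B • q.map (algebraMap S B) := by
    rw [Ideal.map_le_iff_le_comap]
    intro y hy
    obtain ⟨t, ht, z, hz⟩ := hgen y (hq y hy)
    choose a ha using fun i => hrS (z i)
    have h1 : av k c r * t * y = av k c (∑ i, X i * a i) + ∑ i, c i * (av k c r * z i - av k c (a i)) := by
      rw [mul_assoc, hz, map_sum, ← Finset.sum_add_distrib, Finset.mul_sum]
      refine Finset.sum_congr rfl fun i _ => ?_
      rw [map_mul, aeval_X]
      ring
    have h2 : ∑ i, c i * (av k c r * z i - av k c (a i)) ∈ m * q :=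
      Ideal.sum_mem _ fun i _ => Ideal.mul_mem_mul ((hmm _).2 (hc i)) (ha i)
    have h3 : av k c (∑ i, X i * a i) ∈ p := by
      apply hker
      have h4 : av k c (∑ i, X i * a i) = av k c r * t * y - ∑ i, c i * (av k c r * z i - av k c (a i)) := by
        rw [h1, add_sub_cancel_right]
      rw [h4]
      exact q.sub_mem (q.mul_mem_left _ hy) (Ideal.mul_le_right h2)
    have h5 : algebraMap S B (av k c r * t * y) ∈ p.map (algebraMap S B) ⊔
        IsLocalRing.maximalIdeal B • q.map (algebraMap S B) := by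
      rw [h1, map_add, hmax]
      refine Submodule.add_mem_sup (Ideal.mem_map_of_mem _ h3) ?_
      have h6 := Ideal.mem_map_of_mem (algebraMap S B) h2
      rw [Ideal.map_mul] at h6
      exact h6
    have hu0 : av k c r * t ∈ m.primeCompl := by
      intro h
      have h6 := (hmm _).1 h
      rw [map_mul, eps_aeval ε c hc] at h6
      rcases mul_eq_zero.1 h6 with h7 | h7
      · exact hr h7
      · exact ht h7
    obtain ⟨u, hu⟩ := IsLocalization.map_units B (⟨_, hu0⟩ : m.primeCompl)
    rw [Ideal.mem_comap]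
    have h7 : algebraMap S B y = ↑(u⁻¹) * algebraMap S B (av k c r * t * y) := by
      rw [map_mul (algebraMap S B) (av k c r * t) y, ← hu, Units.inv_mul_cancel_left]
    rw [h7]
    exact Ideal.mul_mem_left _ _ h5
  have hqp : q.map (algebraMap S B) ≤ p.map (algebraMap S B) :=
    Submodule.le_of_le_smul_of_le_jacobson_bot (IsNoetherian.noetherian _)
      (IsLocalRing.maximalIdeal_le_jacobson _) hle
  have h1 := hqp (Ideal.mem_map_of_mem _ hf)
  rw [IsLocalization.mem_map_algebraMap_iff m.primeCompl B] at h1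
  obtain ⟨⟨⟨a, ha⟩, ⟨t, ht⟩⟩, h2⟩ := h1
  change algebraMap S B f * algebraMap S B t = algebraMap S B a at h2
  rw [← map_mul, IsLocalization.eq_iff_exists m.primeCompl B] at h2
  obtain ⟨⟨v, hv⟩, h3⟩ := h2
  change v * (f * t) = v * a at h3
  refine ⟨v * t, ?_, ?_⟩
  · rw [map_mul]
    exact mul_ne_zero (fun h => hv ((hmm _).2 h)) (fun h => ht ((hmm _).2 h))
  · rw [mul_assoc, mul_comm t f, h3]
    exact p.mul_mem_left _ ha

end

end Pool.Agent.H20.TU
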