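import Pool.Agent.H20.TU.FA1
import Pool.Agent.H20.TU.FA2
import Pool.Agent.H20.TU.FA3
import Pool.Agent.H20.TU.FA4

/-!
# THEOREM U (MP_e49dc9_ag): factoriality of smooth local rings, part 5

`fac_core`: `S` a finitely generated domain of transcendence degree `≤ 3` over the infinite field `k`, `ε : S → k` a
point whose maximal ideal is generated locally by three elements, `q` a nonzero prime ideal contained in it with
`trdeg (S / q) ≥ 2`.  Then `q` is principal at the point.
-/

set_option autoImplicit false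

open MvPolynomial

namespace Pool.Agent.H20.TU

theorem fac_core {k S : Type} [Field k] [Infinite k] [CommRing S] [IsDomain S] [Algebra k S]
    [Algebra.FiniteType k S] (ε : S →ₐ[k] k) (q : Ideal S) [hqp : q.IsPrime] (hq : ∀ a ∈ q, ε a = 0) (hq0 : q ≠ ⊥)
    (h : Fin 3 → S) (hε : ∀ i, ε (h i) = 0)
    (hgen : ∀ y, ε y = 0 → ∃ t, ε t ≠ 0 ∧ ∃ z : Fin 3 → S, t * y = ∑ i, h i * z i)
    (htr : Algebra.trdeg k S ≤ 3) (htr2 : 2 ≤ Algebra.trdeg k (S ⧸ q)) :
    ∃ Φ ∈ q, ∀ f ∈ q, ∃ t, ε t ≠ 0 ∧ ∃ z, t * f = Φ * z := by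
  classical
  have hnoeth : IsNoetherianRing S := Algebra.FiniteType.isNoetherianRing k S
  have hRdom : IsDomain (S ⧸ q) := Ideal.Quotient.isDomain q
  have htr3 : Algebra.trdeg k (S ⧸ q) ≤ 2 := by
    by_contra hcon
    rw [not_le] at hcon
    have h1 : ((3 : ℕ) : Cardinal) ≤ Algebra.trdeg k (S ⧸ q) := by
      have h2 := Order.succ_le_of_lt hcon
      have h3 : Order.succ (2 : Cardinal) = ((3 : ℕ) : Cardinal) := by
        have h4 : (2 : Cardinal) = ((2 : ℕ) : Cardinal) := by norm_num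
        rw [h4, Cardinal.succ_natCast]
        norm_num
      rwa [h3] at h2
    obtain ⟨y, hy⟩ := exists_indep 3 h1
    choose x hx using fun i => Ideal.Quotient.mk_surjective (y i)
    have h4 := inj_of_indep (Ideal.Quotient.mkₐ k q) 3 x (by
      rw [show (⇑(Ideal.Quotient.mkₐ k q) ∘ x) = y from funext hx]
      exact hy) (by exact_mod_cast htr)
    apply hq0
    rw [eq_bot_iff]
    intro a ha
    rw [Ideal.mem_bot]
    apply h4
    rw [map_zero]
    exact Ideal.Quotient.eq_zero_iff_mem.2 ha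
  -- Noether normalization
  obtain ⟨s, g, hginj, hgint⟩ := exists_integral_inj_algHom_of_fg k (S ⧸ q)
  have hs : s = 2 := by
    have h1 := trdeg_of_int g hginj hgint
    rw [MvPolynomial.trdeg_of_isDomain] at h1
    have h2 : Algebra.trdeg k (S ⧸ q) = 2 := le_antisymm htr3 htr2
    rw [h2] at h1
    simp at h1
    exact_mod_cast h1
  subst hs
  choose σ hσ using fun i => Ideal.Quotient.mk_surjective (g (X i))
  let w : Fin 2 → S := fun i => σ i - algebraMap k S (ε (σ i))
  have hw : ∀ i, ε (w i) = 0 := fun i => by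
    simp only [w, map_sub, AlgHom.commutes]
    exact sub_self _
  have hwint : (aeval (fun i => Ideal.Quotient.mk q (w i)) : MvPolynomial (Fin 2) k →ₐ[k] S ⧸ q).toRingHom.IsIntegral := by
    let sh : MvPolynomial (Fin 2) k →ₐ[k] MvPolynomial (Fin 2) k := aeval fun i => X i + C (ε (σ i))
    have h1 : g = (aeval (fun i => Ideal.Quotient.mk q (w i)) : MvPolynomial (Fin 2) k →ₐ[k] S ⧸ q).comp sh := by
      apply MvPolynomial.algHom_ext
      intro i
      rw [AlgHom.comp_apply, aeval_X, map_add, aeval_X, ← hσ i, MvPolynomial.algHom_C]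
      simp only [w, map_sub]
      rw [show Ideal.Quotient.mk q (algebraMap k S (ε (σ i))) = algebraMap k (S ⧸ q) (ε (σ i)) from rfl,
        sub_add_cancel]
    have h2 : g.toRingHom = (aeval (fun i => Ideal.Quotient.mk q (w i)) : MvPolynomial (Fin 2) k →ₐ[k] S ⧸ q).toRingHom.comp
        sh.toRingHom := by
      conv_lhs => rw [h1]
      rfl
    have h3 : g.toRingHom.IsIntegral := hgint
    rw [h2] at h3
    exact h3.tower_top
  obtain ⟨e₀, he₀⟩ := int_shift (fun i => Ideal.Quotient.mk q (w i))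
    (fun i : Fin 2 => Ideal.Quotient.mk q (h i.castSucc)) hwint
  obtain ⟨e, he, he2⟩ : ∃ e, e₀ ≤ e ∧ 2 ≤ e := ⟨max e₀ 2, le_max_left _ _, le_max_right _ _⟩
  let u : Fin 2 → S := fun i => h i.castSucc + w i ^ e
  have hu : ∀ i, ε (u i) = 0 := fun i => by
    simp only [u, map_add, map_pow, hε, hw]
    rw [zero_pow (by omega), add_zero]
  have huint : (aeval (fun i => Ideal.Quotient.mk q (u i)) : MvPolynomial (Fin 2) k →ₐ[k] S ⧸ q).toRingHom.IsIntegral := by
    have h1 := he₀ e he
    have h2 : (fun i : Fin 2 => Ideal.Quotient.mk q (h i.castSucc) + Ideal.Quotient.mk q (w i) ^ e) =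
        fun i => Ideal.Quotient.mk q (u i) := by
      funext i
      simp only [u, map_add, map_pow]
    rwa [h2] at h1
  obtain ⟨m, hm⟩ : ∃ m : Ideal S, m = RingHom.ker ε.toRingHom := ⟨_, rfl⟩
  have hmm : ∀ y, y ∈ m ↔ ε y = 0 := fun y => by rw [hm]; exact Iff.rfl
  have hmax : m.IsMaximal := by
    rw [hm]
    exact RingHom.ker_isMaximal_of_surjective _ (fun x => ⟨algebraMap k S x, ε.commutes x⟩)
  have hfin : {M : Ideal S | (M.IsMaximal ∧ q ≤ M ∧ ∀ i, u i ∈ M) ∧ M ≠ m}.Finite := by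
    have h1 := fin_max _ huint
    refine (h1.image (Ideal.comap (Ideal.Quotient.mk q))).subset ?_
    rintro M ⟨⟨hM, hqM, huM⟩, -⟩
    have h2 : (M.map (Ideal.Quotient.mk q)).comap (Ideal.Quotient.mk q) = M := by
      rw [Ideal.comap_map_of_surjective _ Ideal.Quotient.mk_surjective, ← RingHom.ker_eq_comap_bot, Ideal.mk_ker]
      exact sup_eq_left.2 hqM
    refine ⟨M.map (Ideal.Quotient.mk q), ⟨?_, fun i => ?_⟩, h2⟩
    · rcases Ideal.map_eq_top_or_isMaximal_of_surjective (Ideal.Quotient.mk q) Ideal.Quotient.mk_surjective hM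
        with h3 | h3
      · exfalso
        rw [h3, Ideal.comap_top] at h2
        exact hM.ne_top h2.symm
      · exact h3
    · rw [aeval_X]
      exact Ideal.mem_map_of_mem _ (huM i)
  obtain ⟨d, hd, hdF⟩ := choose_c (k := k) m _ hfin (fun M hM => ⟨hM.1.1, hM.2⟩) (h 2)
  let c : Fin 3 → S := ![u 0, u 1, h 2 + d]
  have hd0 : ε d = 0 := (hmm d).1 (Ideal.pow_le_self two_ne_zero hd)
  have hc : ∀ i, ε (c i) = 0 := by
    intro i
    fin_cases i
    · exact hu 0
    · exact hu 1
    · change ε (h 2 + d) = 0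
      rw [map_add, hε, hd0, add_zero]
  have hch : ∀ i, c i - h i ∈ m ^ 2 := by
    have hwe : ∀ i : Fin 2, u i - h i.castSucc ∈ m ^ 2 := by
      intro i
      simp only [u, add_sub_cancel_left]
      exact Ideal.pow_le_pow_right he2 (Ideal.pow_mem_pow ((hmm _).2 (hw i)) e)
    intro i
    fin_cases i
    · exact hwe 0
    · exact hwe 1
    · change h 2 + d - h 2 ∈ m ^ 2
      rw [add_sub_cancel_left]
      exact hd
  have hcint : (thq k q c).IsIntegral := by
    have h1 : (aeval (fun i => Ideal.Quotient.mk q (u i)) : MvPolynomial (Fin 2) k →ₐ[k] S ⧸ q).toRingHom =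
        (thq k q c).comp (rename Fin.castSucc : MvPolynomial (Fin 2) k →ₐ[k] MvPolynomial (Fin 3) k).toRingHom := by
      apply MvPolynomial.ringHom_ext
      · intro x
        change aeval (fun i => Ideal.Quotient.mk q (u i)) (C x) = thq k q c (rename Fin.castSucc (C x))
        rw [rename_C, thq_apply, MvPolynomial.algHom_C, MvPolynomial.algHom_C]
        rfl
      · intro i
        change aeval (fun i => Ideal.Quotient.mk q (u i)) (X i) = thq k q c (rename Fin.castSucc (X i))
        rw [rename_X, thq_apply, aeval_X, aeval_X]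
        fin_cases i <;> rfl
    rw [h1] at huint
    exact huint.tower_top
  have honly : ∀ M : Ideal S, M.IsMaximal → q ≤ M → (∀ i, c i ∈ M) → ∀ y ∈ M, ε y = 0 := by
    intro M hM hqM hcM y hy
    by_cases hMm : M = m
    · rw [hMm] at hy
      exact (hmm y).1 hy
    · exfalso
      refine hdF M ⟨⟨hM, hqM, fun i => ?_⟩, hMm⟩ (hcM 2)
      fin_cases i
      · exact hcM 0
      · exact hcM 1
  have hgenc : ∀ y, ε y = 0 → ∃ t, ε t ≠ 0 ∧ ∃ z : Fin 3 → S, t * y = ∑ i, c i * z i := by
    intro y hy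
    obtain ⟨t, ht, z, hz⟩ := gen_change m h c hch (fun y hy => by
      obtain ⟨t, ht, z, hz⟩ := hgen y ((hmm y).1 hy)
      exact ⟨t, fun h => ht ((hmm t).1 h), z, hz⟩) y ((hmm y).2 hy)
    exact ⟨t, fun h => ht ((hmm t).2 h), z, hz⟩
  have hspan := q_span ε q c hq hcint hc honly hgenc
  have hp : (RingHom.ker (thq k q c)).IsPrime := RingHom.ker_isPrime _
  have hp0 : RingHom.ker (thq k q c) ≠ ⊥ := by
    intro hbot
    apply hq0
    rw [eq_bot_iff]
    intro f hf
    obtain ⟨t, ht, h1⟩ := hspan f hf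
    rw [hbot, Ideal.map_bot, Ideal.mem_bot] at h1
    rcases mul_eq_zero.1 h1 with h2 | h2
    · rw [h2, map_zero] at ht
      exact absurd rfl ht
    · exact h2
  have htrp : (2 : Cardinal) ≤ Algebra.trdeg k (MvPolynomial (Fin 3) k ⧸ RingHom.ker (thq k q c)) := by
    let θ : MvPolynomial (Fin 3) k →ₐ[k] S ⧸ q := (Ideal.Quotient.mkₐ k q).comp (av k c)
    let j : (MvPolynomial (Fin 3) k ⧸ RingHom.ker (thq k q c)) →ₐ[k] S ⧸ q :=
      Ideal.Quotient.liftₐ (RingHom.ker (thq k q c)) θ (fun a ha => ha)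
    have hj : Function.Injective j := by
      rw [injective_iff_map_eq_zero]
      intro z hz
      obtain ⟨a, rfl⟩ := Ideal.Quotient.mk_surjective z
      rw [Ideal.Quotient.eq_zero_iff_mem]
      exact hz
    have hint : j.toRingHom.IsIntegral := by
      have h1 : (j.toRingHom.comp (Ideal.Quotient.mk (RingHom.ker (thq k q c)))).IsIntegral := hcint
      exact h1.tower_top
    rw [trdeg_of_int j hj hint]
    exact htr2
  obtain ⟨Φ, hΦ, hpΦ⟩ := ker_principal (RingHom.ker (thq k q c)) hp0 htrp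
  refine ⟨av k c Φ, ?_, fun f hf => ?_⟩
  · have h1 : Φ ∈ RingHom.ker (thq k q c) := by rw [hpΦ]; exact Ideal.mem_span_singleton_self Φ
    have h2 : thq k q c Φ = 0 := h1
    rwa [thq_apply, Ideal.Quotient.eq_zero_iff_mem] at h2
  · obtain ⟨t, ht, h1⟩ := hspan f hf
    rw [hpΦ, Ideal.map_span, Set.image_singleton, Ideal.mem_span_singleton] at h1
    obtain ⟨z, hz⟩ := h1
    exact ⟨t, ht, z, hz⟩

end Pool.Agent.H20.TU
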