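import Pool.Agent.H83.TU.Cen

/-!
# THEOREM U (MP_e49dc9_ag): the valuation at infinity of a polynomial ring

`degE k t`: the valuation `f / g ↦ exp (deg f - deg g)` of the field of rational functions in `t + 1` variables.  Its
valuation ring `OI k t` is a discrete valuation ring with uniformizer `1 / X 0`.
-/

set_option autoImplicit false

open MvPolynomial WithZero

namespace Pool.Agent.H20.TU

section degval

variable (k : Type) [Field k] (t : ℕ)

open Classical in
/-- the degree of polynomials as a valuation -/
noncomputable def degV : Valuation (MvPolynomial (Fin (t + 1)) k) ℤᵐ⁰ where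
  toFun f := if f = 0 then 0 else WithZero.exp (f.totalDegree : ℤ)
  map_zero' := by simp
  map_one' := by simp [MvPolynomial.totalDegree_one]
  map_mul' f g := by
    by_cases hf : f = 0
    · simp [hf]
    by_cases hg : g = 0
    · simp [hg]
    rw [if_neg hf, if_neg hg, if_neg (mul_ne_zero hf hg), MvPolynomial.totalDegree_mul_of_isDomain hf hg,
      ← WithZero.exp_add]
    push_cast
    rfl
  map_add_le_max' f g := by
    by_cases hf : f = 0
    · simp [hf]
    by_cases hg : g = 0
    · simp [hg]
    by_cases hfg : f + g = 0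
    · simp [hfg]
    rw [if_neg hf, if_neg hg, if_neg hfg]
    have h := MvPolynomial.totalDegree_add f g
    rcases le_total f.totalDegree g.totalDegree with h1 | h1
    · rw [max_eq_right h1] at h
      exact le_max_of_le_right (WithZero.exp_le_exp.2 (by exact_mod_cast h))
    · rw [max_eq_left h1] at h
      exact le_max_of_le_left (WithZero.exp_le_exp.2 (by exact_mod_cast h))

theorem degV_apply {f : MvPolynomial (Fin (t + 1)) k} (hf : f ≠ 0) :
    degV k t f = WithZero.exp (f.totalDegree : ℤ) := if_neg hf

theorem degV_supp : nonZeroDivisors (MvPolynomial (Fin (t + 1)) k) ≤ (degV k t).supp.primeCompl := by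
  intro f hf hcon
  have h0 : f ≠ 0 := nonZeroDivisors.ne_zero hf
  have h1 : degV k t f = 0 := hcon
  rw [degV_apply k t h0] at h1
  exact WithZero.exp_ne_zero h1

/-- the rational functions in `t + 1` variables -/
abbrev FE : Type := FractionRing (MvPolynomial (Fin (t + 1)) k)

/-- the degree valuation of the rational functions -/
noncomputable def degE : Valuation (FE k t) ℤᵐ⁰ := (degV k t).extendToLocalization (degV_supp k t) (FE k t)

theorem degE_poly {f : MvPolynomial (Fin (t + 1)) k} (hf : f ≠ 0) :
    degE k t (algebraMap _ (FE k t) f) = WithZero.exp (f.totalDegree : ℤ) := by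
  rw [degE, Valuation.extendToLocalization_apply_map_apply, degV_apply k t hf]

/-- the valuation ring at infinity -/
noncomputable def OI : ValuationSubring (FE k t) := (degE k t).valuationSubring

theorem mem_OI (x : FE k t) : x ∈ OI k t ↔ degE k t x ≤ 1 := Iff.rfl

/-- the variable `X 0` -/
noncomputable def x0 : FE k t :=
  algebraMap (MvPolynomial (Fin (t + 1)) k) (FE k t) (X (0 : Fin (t + 1)))

theorem x0_ne : x0 k t ≠ 0 := by
  unfold x0
  rw [ne_eq, FaithfulSMul.algebraMap_eq_zero_iff]
  exact MvPolynomial.X_ne_zero 0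

theorem degE_x0 : degE k t (x0 k t) = WithZero.exp (1 : ℤ) := by
  unfold x0
  rw [degE_poly k t (MvPolynomial.X_ne_zero 0), MvPolynomial.totalDegree_X]
  rfl

theorem degE_x0_inv : degE k t (x0 k t)⁻¹ = WithZero.exp (-1 : ℤ) := by
  rw [map_inv₀, degE_x0, WithZero.exp_neg]

theorem x0_inv_mem : (x0 k t)⁻¹ ∈ OI k t := by
  rw [mem_OI, degE_x0_inv, ← WithZero.exp_zero]
  exact WithZero.exp_le_exp.2 (by norm_num)

/-- every nonzero element of the valuation ring is a unit times a power of `1 / X 0` -/
theorem OI_dvr : IsDiscreteValuationRing (OI k t) := by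
  classical
  let π : OI k t := ⟨(x0 k t)⁻¹, x0_inv_mem k t⟩
  have hval : ∀ x : FE k t, x ≠ 0 → ∃ n : ℤ, degE k t x = WithZero.exp n := by
    intro x hx
    have h1 : degE k t x ≠ 0 := (Valuation.ne_zero_iff _).2 hx
    exact ⟨WithZero.log (degE k t x), (WithZero.exp_log h1).symm⟩
  have hunit : ∀ x : OI k t, degE k t (x : FE k t) = 1 → IsUnit x := by
    intro x hx
    have hx0 : (x : FE k t) ≠ 0 := by
      intro h
      rw [h, map_zero] at hx
      exact zero_ne_one hx
    refine IsUnit.of_mul_eq_one (⟨(x : FE k t)⁻¹, ?_⟩ : OI k t) (Subtype.ext (mul_inv_cancel₀ hx0))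
    rw [mem_OI, map_inv₀, hx, inv_one]
  have hfac : IsDiscreteValuationRing.HasUnitMulPowIrreducibleFactorization (OI k t) := by
    have hπ0 : π ≠ 0 := fun h => inv_ne_zero (x0_ne k t) (congrArg Subtype.val h)
    have hall : ∀ {x : OI k t}, x ≠ 0 → ∃ n : ℕ, Associated (π ^ n) x := by
      intro x hx
      have hx0 : (x : FE k t) ≠ 0 := fun h => hx (Subtype.ext h)
      obtain ⟨n, hn⟩ := hval x hx0
      have hn0 : n ≤ 0 := by
        have h1 : degE k t (x : FE k t) ≤ 1 := x.2
        rw [hn, ← WithZero.exp_zero] at h1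
        exact WithZero.exp_le_exp.1 h1
      obtain ⟨m, hm⟩ := Int.eq_ofNat_of_zero_le (show (0 : ℤ) ≤ -n by omega)
      have hmem : (x : FE k t) * (x0 k t) ^ m ∈ OI k t := by
        rw [mem_OI, map_mul, hn, map_pow, degE_x0, ← WithZero.exp_nsmul, ← WithZero.exp_add, ← WithZero.exp_zero]
        refine WithZero.exp_le_exp.2 ?_
        rw [nsmul_eq_mul, mul_one]
        omega
      have hu : IsUnit (⟨_, hmem⟩ : OI k t) := by
        apply hunit
        change degE k t ((x : FE k t) * (x0 k t) ^ m) = 1
        rw [map_mul, hn, map_pow, degE_x0, ← WithZero.exp_nsmul, ← WithZero.exp_add, ← WithZero.exp_zero]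
        congr 1
        rw [nsmul_eq_mul, mul_one]
        omega
      refine ⟨m, hu.unit, Subtype.ext ?_⟩
      change ((x0 k t)⁻¹) ^ m * ((x : FE k t) * (x0 k t) ^ m) = x
      rw [inv_pow, mul_left_comm, inv_mul_cancel₀ (pow_ne_zero _ (x0_ne k t)), mul_one]
    have hirr : Irreducible π := by
      have hnu : ¬ IsUnit π := by
        intro h
        obtain ⟨b, hb⟩ := h.exists_right_inv
        have h1 : (x0 k t)⁻¹ * (b : FE k t) = 1 := congrArg Subtype.val hb
        have h2 : degE k t (b : FE k t) ≤ 1 := b.2
        have h3 : degE k t ((x0 k t)⁻¹ * (b : FE k t)) = 1 := by rw [h1, map_one]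
        rw [map_mul, degE_x0_inv] at h3
        have h4 : (1 : ℤᵐ⁰) ≤ WithZero.exp (-1 : ℤ) := by
          rw [← h3]
          calc WithZero.exp (-1 : ℤ) * degE k t (b : FE k t) ≤ WithZero.exp (-1 : ℤ) * 1 := by gcongr
            _ = WithZero.exp (-1 : ℤ) := mul_one _
        rw [← WithZero.exp_zero, WithZero.exp_le_exp] at h4
        omega
      refine ⟨hnu, fun a b hab => ?_⟩
      by_cases ha0 : a = 0
      · exact absurd (by rw [hab, ha0, zero_mul]) hπ0
      by_cases hb0 : b = 0
      · exact absurd (by rw [hab, hb0, mul_zero]) hπ0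
      obtain ⟨m, hm⟩ := hall ha0
      obtain ⟨n, hn⟩ := hall hb0
      rcases Nat.eq_zero_or_pos m with h | h
      · left
        rw [h, pow_zero] at hm
        exact (associated_one_iff_isUnit.1 hm.symm)
      rcases Nat.eq_zero_or_pos n with h' | h'
      · right
        rw [h', pow_zero] at hn
        exact (associated_one_iff_isUnit.1 hn.symm)
      exfalso
      have h1 : Associated (π ^ (m + n)) π := by
        rw [pow_add]
        conv_rhs => rw [hab]
        exact hm.mul_mul hn
      have h2 : π * π ∣ π := by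
        refine dvd_trans ?_ h1.dvd
        rw [← pow_two]
        exact pow_dvd_pow _ (by omega)
      obtain ⟨c, hc⟩ := h2
      apply hnu
      have h3 : π * 1 = π * (π * c) := by rw [mul_one, ← mul_assoc]; exact hc
      exact IsUnit.of_mul_eq_one c (mul_left_cancel₀ hπ0 h3).symm
    exact ⟨π, hirr, hall⟩
  exact IsDiscreteValuationRing.ofHasUnitMulPowIrreducibleFactorization hfac

end degval

end Pool.Agent.H20.TU
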