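import Pool.Agent.H20.TU.TRC

/-!
# THEOREM U (MP_e49dc9_ag): the norm bound

* `exists_norm`: an element `b ≠ 0` which is integral over the polynomials with poles of order at most `N` at infinity
  divides a nonzero polynomial of degree at most `N [K : FE]` (the norm).
* `ord_poly`: the order of a polynomial at a place over a prime element is at most linear in the degree.
* `ord_bound`: the order of `b` at such a place is at most linear in `N`.
-/

set_option autoImplicit false

open MvPolynomial WithZero Pool.Agent.H54.RV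

namespace Pool.Agent.H20.TU

section

variable {k K : Type} [Field k] [Field K] [Algebra k K] {t : ℕ} [Algebra (FE k t) K] [IsScalarTower k (FE k t) K]
  [Algebra (MvPolynomial (Fin (t + 1)) k) K] [IsScalarTower (MvPolynomial (Fin (t + 1)) k) (FE k t) K]

/-- an integral element divides its norm -/
theorem norm_div {A E K : Type} [CommRing A] [Field E] [CharZero E] [Field K] [Algebra A E] [Algebra E K] [Algebra A K]
    [IsScalarTower A E K] [FiniteDimensional E K] (b : K) (hb0 : b ≠ 0) (hb : IsIntegral A b) :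
    IsIntegral A (algebraMap E K (Algebra.norm E b) / b) := by
  classical
  let L := AlgebraicClosure K
  have h1 : algebraMap E L (Algebra.norm E b) = ∏ σ : K →ₐ[E] L, σ b := Algebra.norm_eq_prod_embeddings E L b
  let σ₀ : K →ₐ[E] L := IsScalarTower.toAlgHom E K L
  have h2 : (∏ σ : K →ₐ[E] L, σ b) = σ₀ b * ∏ σ ∈ Finset.univ.erase σ₀, σ b :=
    (Finset.mul_prod_erase Finset.univ (fun σ : K →ₐ[E] L => σ b) (Finset.mem_univ σ₀)).symm
  have h3 : σ₀ b = algebraMap K L b := rfl
  have h4 : algebraMap K L b ≠ 0 := by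
    rw [ne_eq, map_eq_zero]; exact hb0
  have h5 : algebraMap K L (algebraMap E K (Algebra.norm E b) / b) = ∏ σ ∈ Finset.univ.erase σ₀, σ b := by
    rw [map_div₀, ← IsScalarTower.algebraMap_apply E K L, h1, h2, h3, mul_comm, mul_div_assoc, div_self h4, mul_one]
  have h6 : IsIntegral A (algebraMap K L (algebraMap E K (Algebra.norm E b) / b)) := by
    rw [h5]
    refine IsIntegral.prod _ fun σ _ => ?_
    exact hb.map (σ.restrictScalars A)
  exact (isIntegral_algebraMap_iff (algebraMap K L).injective).1 h6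

theorem exists_norm [CharZero k] [FiniteDimensional (FE k t) K] (b : K) (hb0 : b ≠ 0)
    (hb : IsIntegral (MvPolynomial (Fin (t + 1)) k) b) (N : ℕ)
    (hN : ∀ p : Place k K, AtInf t p → b * (algebraMap (FE k t) K (x0 k t))⁻¹ ^ N ∈ p.R) :
    ∃ a : MvPolynomial (Fin (t + 1)) k, a ≠ 0 ∧ a.totalDegree ≤ N * Module.finrank (FE k t) K ∧
      IsIntegral (MvPolynomial (Fin (t + 1)) k) (algebraMap (MvPolynomial (Fin (t + 1)) k) K a / b) := by
  have : CharZero (FE k t) := charZero_of_injective_algebraMap (algebraMap k (FE k t)).injective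
  have hdvr := OI_dvr k t
  have h1 : IsIntegral (MvPolynomial (Fin (t + 1)) k) (Algebra.norm (FE k t) b) := Algebra.isIntegral_norm _ hb
  obtain ⟨a, ha⟩ := IsIntegrallyClosed.isIntegral_iff.1 h1
  have ha0 : a ≠ 0 := by
    intro h
    rw [h, map_zero] at ha
    exact hb0 (Algebra.norm_eq_zero_iff.1 ha.symm)
  refine ⟨a, ha0, ?_, ?_⟩
  · have h2 := int_of_inf _ hN
    have h3 : IsIntegral (OI k t) (Algebra.norm (FE k t) (b * (algebraMap (FE k t) K (x0 k t))⁻¹ ^ N)) :=
      Algebra.isIntegral_norm _ h2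
    obtain ⟨c, hc⟩ := IsIntegrallyClosed.isIntegral_iff.1 h3
    have h4 : Algebra.norm (FE k t) (b * (algebraMap (FE k t) K (x0 k t))⁻¹ ^ N) =
        (((x0 k t)⁻¹) ^ N) ^ Module.finrank (FE k t) K * algebraMap (MvPolynomial (Fin (t + 1)) k) (FE k t) a := by
      have h5 : (algebraMap (FE k t) K (x0 k t))⁻¹ ^ N = algebraMap (FE k t) K (((x0 k t)⁻¹) ^ N) := by
        rw [map_pow, map_inv₀]
      rw [h5, map_mul, Algebra.norm_algebraMap, ha, mul_comm]
    have h6 : degE k t ((((x0 k t)⁻¹) ^ N) ^ Module.finrank (FE k t) K *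
        algebraMap (MvPolynomial (Fin (t + 1)) k) (FE k t) a) ≤ 1 := by
      rw [← h4, ← hc]
      exact c.2
    rw [← pow_mul, map_mul, map_pow, degE_x0_inv, degE_poly k t ha0, ← WithZero.exp_nsmul, ← WithZero.exp_add,
      ← WithZero.exp_zero, WithZero.exp_le_exp, nsmul_eq_mul] at h6
    have h7 : (a.totalDegree : ℤ) ≤ (N * Module.finrank (FE k t) K : ℕ) := by omega
    exact_mod_cast h7
  · have h8 : algebraMap (MvPolynomial (Fin (t + 1)) k) K a = algebraMap (FE k t) K (Algebra.norm (FE k t) b) := by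
      rw [← ha, ← IsScalarTower.algebraMap_apply]
    rw [h8]
    exact norm_div b hb0 hb

omit [Algebra (FE k t) K] [IsScalarTower k (FE k t) K] [IsScalarTower (MvPolynomial (Fin (t + 1)) k) (FE k t) K] in
/-- the order of a polynomial at a place over a prime element -/
theorem ord_poly [FaithfulSMul (MvPolynomial (Fin (t + 1)) k) K] (p : Place k K)
    (hA : ∀ a : MvPolynomial (Fin (t + 1)) k, algebraMap _ K a ∈ p.R) (Φ : MvPolynomial (Fin (t + 1)) k)
    (hΦ : Prime Φ) (hp : ∀ a : MvPolynomial (Fin (t + 1)) k, a ≠ 0 → 0 < p.ord (algebraMap _ K a) → Φ ∣ a)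
    (a : MvPolynomial (Fin (t + 1)) k) (ha : a ≠ 0) :
    p.ord (algebraMap _ K a) ≤ p.ord (algebraMap _ K Φ) * a.totalDegree := by
  have hne : ∀ a : MvPolynomial (Fin (t + 1)) k, a ≠ 0 → algebraMap _ K a ≠ 0 := fun a ha => by
    rw [ne_eq, FaithfulSMul.algebraMap_eq_zero_iff]; exact ha
  have hΦ0 := hΦ.ne_zero
  have he : 0 ≤ p.ord (algebraMap _ K Φ) := (ord_nonneg p _ (hne _ hΦ0)).2 (hA _)
  have hdeg : 1 ≤ Φ.totalDegree := by
    by_contra h
    have h0 : Φ.totalDegree = 0 := by omega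
    rw [MvPolynomial.totalDegree_eq_zero_iff_eq_C] at h0
    apply hΦ.not_isUnit
    rw [h0]
    refine IsUnit.map _ (isUnit_iff_ne_zero.2 ?_)
    intro h1
    rw [h1, map_zero] at h0
    exact hΦ0 h0
  obtain ⟨n, hn⟩ : ∃ n, a.totalDegree = n := ⟨_, rfl⟩
  induction n using Nat.strong_induction_on generalizing a with
  | _ n ih =>
    by_cases h1 : 0 < p.ord (algebraMap _ K a)
    · obtain ⟨c, hc⟩ := hp a ha h1
      have hc0 : c ≠ 0 := by
        intro h; rw [h, mul_zero] at hc; exact ha hc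
      have h2 : a.totalDegree = Φ.totalDegree + c.totalDegree := by
        rw [hc, MvPolynomial.totalDegree_mul_of_isDomain hΦ0 hc0]
      have h3 := ih c.totalDegree (by omega) c hc0 rfl
      rw [hc, map_mul, ord_mul p _ _ (hne _ hΦ0) (hne _ hc0), ← hc, h2]
      push_cast
      have h4 : p.ord (algebraMap _ K Φ) ≤ p.ord (algebraMap _ K Φ) * Φ.totalDegree := by
        have : (1 : ℤ) ≤ Φ.totalDegree := by exact_mod_cast hdeg
        nlinarith
      nlinarith
    · have h2 : 0 ≤ p.ord (algebraMap _ K Φ) * a.totalDegree := mul_nonneg he (Nat.cast_nonneg _)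
      omega

theorem ord_bound [CharZero k] [FiniteDimensional (FE k t) K] (p : Place k K)
    (hA : ∀ a : MvPolynomial (Fin (t + 1)) k, algebraMap _ K a ∈ p.R) (Φ : MvPolynomial (Fin (t + 1)) k)
    (hΦ : Prime Φ) (hp : ∀ a : MvPolynomial (Fin (t + 1)) k, a ≠ 0 → 0 < p.ord (algebraMap _ K a) → Φ ∣ a) :
    ∃ C : ℕ, ∀ (N : ℕ) (b : K), b ≠ 0 → IsIntegral (MvPolynomial (Fin (t + 1)) k) b →
      (∀ q : Place k K, AtInf t q → b * (algebraMap (FE k t) K (x0 k t))⁻¹ ^ N ∈ q.R) → p.ord b ≤ C * N := by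
  have hf : FaithfulSMul (MvPolynomial (Fin (t + 1)) k) K := by
    rw [faithfulSMul_iff_algebraMap_injective, IsScalarTower.algebraMap_eq _ (FE k t) K]
    exact (algebraMap (FE k t) K).injective.comp (IsFractionRing.injective _ _)
  have hne : ∀ a : MvPolynomial (Fin (t + 1)) k, a ≠ 0 → algebraMap _ K a ≠ 0 := fun a ha => by
    rw [ne_eq, FaithfulSMul.algebraMap_eq_zero_iff]; exact ha
  have he : 0 ≤ p.ord (algebraMap _ K Φ) := (ord_nonneg p _ (hne _ hΦ.ne_zero)).2 (hA _)
  obtain ⟨e, hee⟩ := Int.eq_ofNat_of_zero_le he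
  refine ⟨e * Module.finrank (FE k t) K, fun N b hb0 hb hN => ?_⟩
  obtain ⟨a, ha0, hdeg, hint⟩ := exists_norm b hb0 hb N hN
  have h1 := ord_poly p hA Φ hΦ hp a ha0
  have h2 : algebraMap (MvPolynomial (Fin (t + 1)) k) K a / b ∈ p.R := by
    obtain ⟨P, hP, hP0⟩ := hint
    let φ : MvPolynomial (Fin (t + 1)) k →+* p.R := (algebraMap _ K).codRestrict p.R.toSubring hA
    have h3 : IsIntegral p.R (algebraMap (MvPolynomial (Fin (t + 1)) k) K a / b) := by
      refine ⟨P.map φ, hP.map φ, ?_⟩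
      rw [Polynomial.eval₂_map]
      exact hP0
    obtain ⟨y, hy⟩ := IsIntegrallyClosed.isIntegral_iff.1 h3
    rw [← hy]
    exact y.2
  have h3 : algebraMap (MvPolynomial (Fin (t + 1)) k) K a / b ≠ 0 := div_ne_zero (hne _ ha0) hb0
  have h4 := (ord_nonneg p _ h3).2 h2
  have h5 : p.ord (algebraMap (MvPolynomial (Fin (t + 1)) k) K a) =
      p.ord (algebraMap (MvPolynomial (Fin (t + 1)) k) K a / b) + p.ord b := by
    rw [← ord_mul p _ _ h3 hb0, div_mul_cancel₀ _ hb0]
  have h6 : (a.totalDegree : ℤ) ≤ (N * Module.finrank (FE k t) K : ℕ) := by exact_mod_cast hdeg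
  rw [hee] at h1
  calc p.ord b ≤ p.ord (algebraMap (MvPolynomial (Fin (t + 1)) k) K a) := by omega
    _ ≤ (e : ℤ) * a.totalDegree := h1
    _ ≤ (e : ℤ) * (N * Module.finrank (FE k t) K : ℕ) := by
      exact mul_le_mul_of_nonneg_left h6 (Nat.cast_nonneg _)
    _ = ((e * Module.finrank (FE k t) K : ℕ) : ℤ) * N := by push_cast; ring

end

end Pool.Agent.H20.TU
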