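import Pool.Agent.H20.TU.FA7
import Pool.Agent.H24.TU.DerEx

/-!
# THEOREM U (MP_e49dc9_ag): smoothness, the local rings

`smP_of`: if the rings of functions on the affine open sets are formally smooth over `k` and `trdeg K = 3` then `SmP X`.
-/

set_option autoImplicit false

open Pool.Agent.H54.RV Pool.Agent.H83.TU

namespace Pool.Agent.H20.TU

/-- the dimension of the space of differentials of a field of transcendence degree `3` -/
theorem finrank_omega {k K : Type} [Field k] [CharZero k] [Field K] [Algebra k K]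
    (htr : Algebra.trdeg k K = 3) : Module.finrank K (Ω[K⁄k]) ≤ 3 := by
  obtain ⟨c, hc⟩ : ∃ c : Fin 3 → K, IsTranscendenceBasis k c := by
    obtain ⟨c, hc⟩ := exists_indep 3 (by exact_mod_cast htr.ge)
    refine ⟨c, hc.isTranscendenceBasis_of_trdeg_le_of_finite ?_⟩
    rw [Cardinal.mk_fin, htr]
    norm_num
  obtain ⟨N, hN⟩ : ∃ N : Submodule K (Ω[K⁄k]), N = Submodule.span K (Set.range fun i => KaehlerDifferential.D k K (c i)) :=
    ⟨_, rfl⟩
  have h1 : N = ⊤ := by
    let δ : Derivation k K ((Ω[K⁄k]) ⧸ N) := N.mkQ.compDer (KaehlerDifferential.D k K)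
    have hδ : δ = 0 := by
      refine Pool.Agent.H24.TU.derivation_eq_zero hc δ fun i => ?_
      change N.mkQ (KaehlerDifferential.D k K (c i)) = 0
      rw [Submodule.mkQ_apply, Submodule.Quotient.mk_eq_zero, hN]
      exact Submodule.subset_span ⟨i, rfl⟩
    rw [eq_top_iff, ← KaehlerDifferential.span_range_derivation, Submodule.span_le]
    rintro _ ⟨a, rfl⟩
    have h2 : δ a = 0 := by rw [hδ]; rfl
    change N.mkQ (KaehlerDifferential.D k K a) = 0 at h2
    rwa [Submodule.mkQ_apply, Submodule.Quotient.mk_eq_zero] at h2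
  rw [← finrank_top, ← h1, hN]
  calc Module.finrank K (Submodule.span K (Set.range fun i => KaehlerDifferential.D k K (c i)))
      ≤ Fintype.card (Fin 3) := finrank_range_le_card _
    _ = 3 := by simp

variable {k K : Type} [Field k] [Field K] [Algebra k K] {X : Mod k K}

theorem smP_of [CharZero k] (hX : IsVar X) (hg : ∃ g, Gen X g) (htr : Algebra.trdeg k K = 3)
    (h : ∀ U, X.aff U → U.Nonempty → Algebra.FormallySmooth k (X.sec U)) : SmP X := by
  classical
  intro x
  obtain ⟨U, hU, hx⟩ := hX.chart x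
  let _ : Algebra (X.sec U) (X.O x) := (Subalgebra.inclusion (sec_le U x hx)).toRingHom.toAlgebra
  have htow : IsScalarTower k (X.sec U) (X.O x) := IsScalarTower.of_algebraMap_eq fun _ => rfl
  have hloc : IsLocalization.AtPrime (X.O x) (idealAt X U x hx) := isLoc hX U hU x hx
  have hn := noeth hX U hU x hx
  have hsm := h U hU ⟨x, hx⟩
  have hft : Algebra.FiniteType k (X.sec U) := (Subalgebra.fg_iff_finiteType _).1 (hX.fg U hU ⟨x, hx⟩)
  have h1 : Algebra.FormallySmooth (X.sec U) (X.O x) :=
    Algebra.FormallySmooth.of_isLocalization (idealAt X U x hx).primeCompl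
  have h2 : Algebra.FormallySmooth k (X.O x) := Algebra.FormallySmooth.comp k (X.sec U) (X.O x)
  have h3 : Algebra.EssFiniteType (X.sec U) (X.O x) :=
    Algebra.EssFiniteType.of_isLocalization (X.O x) (idealAt X U x hx).primeCompl
  have h4 : Algebra.EssFiniteType k (X.O x) := Algebra.EssFiniteType.comp k (X.sec U) (X.O x)
  have h5 : Module.Finite (X.O x) (Ω[X.O x⁄k]) := inferInstance
  have h6 : Module.Projective (X.O x) (Ω[X.O x⁄k]) := inferInstance
  have h7 : Module.FinitePresentation (X.O x) (Ω[X.O x⁄k]) := Module.finitePresentation_of_projective _ _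
  obtain ⟨κ, a, b, hb⟩ := Module.exists_basis_of_span_of_flat (R := X.O x) (M := Ω[X.O x⁄k])
    (fun c : X.O x => KaehlerDifferential.D k (X.O x) c) (KaehlerDifferential.span_range_derivation k (X.O x))
  have hfin : Finite κ := Module.Finite.finite_basis b
  have hfree : Module.Free (X.O x) (Ω[X.O x⁄k]) := Module.Free.of_basis b
  have hκ : Nat.card κ ≤ 3 := by
    have hfr : IsFractionRing (X.O x) K := by
      refine ⟨?_, ?_, ?_⟩
      · rintro ⟨y, hy⟩
        exact isUnit_iff_ne_zero.2 fun h0 => (nonZeroDivisors.ne_zero hy) (Subtype.ext h0)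
      · intro z
        obtain ⟨s, hs, hs0, hzs⟩ := sec_frac hX hg U hU ⟨x, hx⟩ z
        refine ⟨⟨⟨_, sec_le U x hx hzs⟩, ⟨⟨s, sec_le U x hx hs⟩,
          mem_nonZeroDivisors_of_ne_zero fun h0 => hs0 (congrArg Subtype.val h0)⟩⟩, rfl⟩
      · intro a b hab
        exact ⟨1, by rw [show a = b from Subtype.ext hab]⟩
    have hfe : Algebra.FormallyEtale (X.O x) K := Algebra.FormallyEtale.of_isLocalization (nonZeroDivisors (X.O x))
    let e := KaehlerDifferential.tensorKaehlerEquivOfFormallyEtale k (X.O x) K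
    have h8 := e.finrank_eq
    rw [Module.finrank_baseChange, Module.finrank_eq_nat_card_basis b] at h8
    rw [h8]
    exact finrank_omega htr
  have : Fintype κ := Fintype.ofFinite κ
  obtain ⟨e⟩ : Nonempty (κ ↪ Fin 3) := by
    refine Function.Embedding.nonempty_of_card_le ?_
    rw [Fintype.card_fin, ← Nat.card_eq_fintype_card]
    exact hκ
  refine ⟨Function.extend e a (fun _ => 0), ?_⟩
  rw [eq_top_iff, ← b.span_eq, Submodule.span_le]
  rintro _ ⟨i, rfl⟩
  rw [hb]
  refine Submodule.subset_span ⟨e i, ?_⟩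
  simp only [e.injective.extend_apply]

end Pool.Agent.H20.TU
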