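import Mathlib

/-!
# THEOREM U (MP_e49dc9_ag): specialisation of a prime of positive dimension

`C` is a domain generated by a field `κ` and the image of a finitely generated `k`-algebra `B`, of transcendence
degree at least `r` over `κ`.  If finitely many elements `w i j` of `B` satisfy linear relations
`∑ j, a j • β (w i j) = 0` in `C` with one coefficient vector `a ≠ 0` in `κ`, then there are a prime ideal `q` of `B`
with `trdeg (B/q) ≥ r` and a coefficient vector `l ≠ 0` in `k` with `∑ j, l j • w i j ∈ q` for all `i`.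
-/

set_option autoImplicit false
set_option linter.unusedSectionVars false

open MvPolynomial

namespace Pool.Agent.H20.TU

section aux

/-- Nullstellensatz: a point of a finitely generated domain where a given element does not vanish -/
theorem exists_point {k A : Type} [Field k] [IsAlgClosed k] [CommRing A] [IsDomain A] [Algebra k A]
    [Algebra.FiniteType k A] (a : A) (ha : a ≠ 0) : ∃ φ : A →ₐ[k] k, φ a ≠ 0 := by
  classical
  let L := Localization.Away a
  have hft : Algebra.FiniteType k L := inferInstance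
  have hle : Submonoid.powers a ≤ nonZeroDivisors A := powers_le_nonZeroDivisors_of_noZeroDivisors ha
  have hdom : IsDomain L := IsLocalization.isDomain_localization hle
  obtain ⟨M, hM⟩ := Ideal.exists_maximal L
  let _ : Field (L ⧸ M) := Ideal.Quotient.field M
  have hft2 : Algebra.FiniteType k (L ⧸ M) :=
    Algebra.FiniteType.of_surjective (Ideal.Quotient.mkₐ k M) (Ideal.Quotient.mkₐ_surjective k M)
  have hfin : Module.Finite k (L ⧸ M) := finite_of_finite_type_of_isJacobsonRing k (L ⧸ M)
  have hbij : Function.Bijective (algebraMap k (L ⧸ M)) :=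
    IsAlgClosed.algebraMap_bijective_of_isIntegral
  let e : k ≃ₐ[k] (L ⧸ M) := AlgEquiv.ofBijective (Algebra.ofId k (L ⧸ M)) hbij
  let f : A →ₐ[k] (L ⧸ M) := (Ideal.Quotient.mkₐ k M).comp (IsScalarTower.toAlgHom k A L)
  refine ⟨(e.symm : (L ⧸ M) →ₐ[k] k).comp f, ?_⟩
  have hu : IsUnit (algebraMap A L a) := IsLocalization.Away.algebraMap_isUnit a
  have hu2 : IsUnit (f a) := hu.map (Ideal.Quotient.mkₐ k M)
  exact (hu2.map (e.symm : (L ⧸ M) →ₐ[k] k)).ne_zero

variable {k κ C B : Type} [Field k] [Field κ] [Algebra k κ] [CommRing C] [Algebra κ C] [Algebra k C]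
  [IsScalarTower k κ C] [CommRing B] [Algebra k B]

/-- the subalgebra of `C` generated by `A ⊆ κ` and the image of `B` -/
def sub0 (β : B →ₐ[k] C) (A : Subalgebra k κ) : Subalgebra k C :=
  Algebra.adjoin k ((fun x => algebraMap κ C x) '' (A : Set κ) ∪ Set.range β)

theorem sub0_mono (β : B →ₐ[k] C) {A A' : Subalgebra k κ} (h : A ≤ A') : sub0 β A ≤ sub0 β A' :=
  Algebra.adjoin_mono (Set.union_subset_union_left _ (Set.image_mono h))

/-- every element of `C` is in the subalgebra of a finite set of coefficients -/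
theorem exists_sub0 (β : B →ₐ[k] C) (hadj : Algebra.adjoin κ (Set.range β) = ⊤) (x : C) :
    ∃ T : Finset κ, ∀ A : Subalgebra k κ, (T : Set κ) ⊆ A → x ∈ sub0 β A := by
  classical
  have hx : x ∈ Algebra.adjoin κ (Set.range β) := by rw [hadj]; trivial
  induction hx using Algebra.adjoin_induction with
  | mem y hy => exact ⟨∅, fun A _ => Algebra.subset_adjoin (Or.inr hy)⟩
  | algebraMap c => exact ⟨{c}, fun A hA => Algebra.subset_adjoin (Or.inl ⟨c, hA (by simp), rfl⟩)⟩
  | add y z _ _ hy hz =>
    obtain ⟨T1, h1⟩ := hy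
    obtain ⟨T2, h2⟩ := hz
    refine ⟨T1 ∪ T2, fun A hA => add_mem (h1 A ?_) (h2 A ?_)⟩
    · exact fun c hc => hA (by simp only [Finset.coe_union]; exact Or.inl hc)
    · exact fun c hc => hA (by simp only [Finset.coe_union]; exact Or.inr hc)
  | mul y z _ _ hy hz =>
    obtain ⟨T1, h1⟩ := hy
    obtain ⟨T2, h2⟩ := hz
    refine ⟨T1 ∪ T2, fun A hA => mul_mem (h1 A ?_) (h2 A ?_)⟩
    · exact fun c hc => hA (by simp only [Finset.coe_union]; exact Or.inl hc)
    · exact fun c hc => hA (by simp only [Finset.coe_union]; exact Or.inr hc)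

/-- a multivariate polynomial has its coefficients in every subalgebra which contains a finite set -/
theorem exists_coeffs {s : ℕ} (p : MvPolynomial (Fin s) κ) :
    ∃ T : Finset κ, ∀ A : Subalgebra k κ, (T : Set κ) ⊆ A → ∃ q : MvPolynomial (Fin s) A,
      MvPolynomial.map (algebraMap A κ) q = p := by
  classical
  refine ⟨p.support.image (fun m => p.coeff m), fun A hA => ?_⟩
  have hc : ∀ m, p.coeff m ∈ A := by
    intro m
    by_cases hm : m ∈ p.support
    · exact hA (by simpa using ⟨m, by simpa using hm, rfl⟩)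
    · rw [MvPolynomial.notMem_support_iff.1 hm]; exact zero_mem A
  refine ⟨∑ m ∈ p.support, MvPolynomial.monomial m (⟨p.coeff m, hc m⟩ : A), ?_⟩
  rw [map_sum]
  conv_rhs => rw [p.as_sum]
  refine Finset.sum_congr rfl fun m _ => ?_
  rw [MvPolynomial.map_monomial]
  rfl

/-- the same for a polynomial over multivariate polynomials -/
theorem exists_coeffs2 {s : ℕ} (p : Polynomial (MvPolynomial (Fin s) κ)) :
    ∃ T : Finset κ, ∀ A : Subalgebra k κ, (T : Set κ) ⊆ A →
      p ∈ Polynomial.lifts (MvPolynomial.map (σ := Fin s) (algebraMap A κ)) := by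
  classical
  choose T hT using fun n => exists_coeffs (k := k) (p.coeff n)
  refine ⟨(Finset.range (p.natDegree + 1)).biUnion T, fun A hA => ?_⟩
  rw [Polynomial.lifts_iff_coeff_lifts]
  intro n
  by_cases hn : n ∈ Finset.range (p.natDegree + 1)
  · obtain ⟨q, hq⟩ := hT n A (fun c hc => hA (by
      simp only [Finset.coe_biUnion, Set.mem_iUnion]
      exact ⟨n, hn, hc⟩))
    exact ⟨q, hq⟩
  · rw [Finset.mem_range, not_lt] at hn
    rw [Polynomial.coeff_eq_zero_of_natDegree_lt (by omega)]
    exact ⟨0, map_zero _⟩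

end aux

/-- specialisation of a prime of dimension at least `r` together with finitely many linear relations -/
theorem spn {k κ C B : Type} [Field k] [IsAlgClosed k] [Field κ] [Algebra k κ] [CommRing C] [IsDomain C]
    [Algebra κ C] [Algebra k C] [IsScalarTower k κ C] [CommRing B] [Algebra k B] [Algebra.FiniteType k B]
    (β : B →ₐ[k] C) (hadj : Algebra.adjoin κ (Set.range β) = ⊤) {r : ℕ} (hr : (r : Cardinal) ≤ Algebra.trdeg κ C)
    {m : ℕ} (a : Fin m → κ) (ha : a ≠ 0) {ι : Type} (w : ι → Fin m → B)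
    (hw : ∀ i, ∑ j, a j • β (w i j) = 0) :
    ∃ q : Ideal B, q.IsPrime ∧ (∃ t : Fin r → B, AlgebraicIndependent k (fun i => Ideal.Quotient.mk q (t i))) ∧
      ∃ l : Fin m → k, l ≠ 0 ∧ ∀ i, ∑ j, l j • w i j ∈ q := by
  classical
  -- generators of `B`
  obtain ⟨S, hS⟩ := (inferInstance : Algebra.FiniteType k B).out
  have hadj2 : Algebra.adjoin κ ((β '' (S : Set B)) : Set C) = ⊤ := by
    rw [eq_top_iff, ← hadj]
    refine Algebra.adjoin_le ?_
    rintro _ ⟨b, rfl⟩
    have hb : b ∈ Algebra.adjoin k (S : Set B) := by rw [hS]; trivial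
    induction hb using Algebra.adjoin_induction with
    | mem y hy => exact Algebra.subset_adjoin ⟨y, hy, rfl⟩
    | algebraMap c =>
      rw [AlgHom.commutes, IsScalarTower.algebraMap_apply k κ C]
      exact Subalgebra.algebraMap_mem _ _
    | add y z _ _ hy hz => rw [map_add]; exact add_mem hy hz
    | mul y z _ _ hy hz => rw [map_mul]; exact mul_mem hy hz
  have hft : Algebra.FiniteType κ C := ⟨⟨S.image β, by rw [Finset.coe_image]; exact hadj2⟩⟩
  obtain ⟨s, g, hginj, hgint⟩ := exists_integral_inj_algHom_of_fg κ C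
  -- the transcendence degree is at most `s`
  have hrs : r ≤ s := by
    have halg : Algebra.IsAlgebraic (Algebra.adjoin κ (Set.range (fun i => g (X i)))) C := by
      refine ⟨fun x => ?_⟩
      obtain ⟨P, hP, hP0⟩ := hgint x
      have hrange : ∀ p : MvPolynomial (Fin s) κ, g p ∈ Algebra.adjoin κ (Set.range (fun i => g (X i))) := by
        intro p
        have : g p ∈ (Algebra.adjoin κ (Set.range (X : Fin s → MvPolynomial (Fin s) κ))).map g :=
          ⟨p, by rw [MvPolynomial.adjoin_range_X]; trivial, rfl⟩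
        rw [AlgHom.map_adjoin, ← Set.range_comp] at this
        exact this
      let gr : MvPolynomial (Fin s) κ →+* Algebra.adjoin κ (Set.range (fun i => g (X i))) :=
        (g : MvPolynomial (Fin s) κ →+* C).codRestrict _ hrange
      refine IsIntegral.isAlgebraic ⟨P.map gr, hP.map gr, ?_⟩
      rw [Polynomial.eval₂_map]
      exact hP0
    have h1 := Algebra.IsAlgebraic.trdeg_le_cardinalMk (R := κ) (A := C) (s := Set.range (fun i => g (X i)))
    have h2 : Cardinal.mk (Set.range (fun i : Fin s => g (X i))) ≤ s := by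
      simpa using Cardinal.mk_range_le (f := fun i : Fin s => g (X i))
    exact_mod_cast (hr.trans h1).trans h2
  -- the finite set of coefficients
  choose T1 hT1 using fun i : Fin s => exists_sub0 β hadj (g (X i))
  choose P hPm hP0 using fun b : B => hgint (β b)
  choose T2 hT2 using fun b : B => exists_coeffs2 (k := k) (P b)
  let T : Finset κ := (Finset.univ.biUnion T1 ∪ S.biUnion T2) ∪ Finset.univ.image a
  let A : Subalgebra k κ := Algebra.adjoin k (T : Set κ)
  have hTA : (T : Set κ) ⊆ A := Algebra.subset_adjoin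
  have hTA1 : ∀ i, (T1 i : Set κ) ⊆ A := fun i c hc => hTA (by
    simp only [T, Finset.coe_union, Finset.coe_biUnion, Set.mem_union, Set.mem_iUnion]
    exact Or.inl (Or.inl ⟨i, Finset.mem_coe.2 (Finset.mem_univ i), hc⟩))
  have hTA2 : ∀ b ∈ S, (T2 b : Set κ) ⊆ A := fun b hb c hc => hTA (by
    simp only [T, Finset.coe_union, Finset.coe_biUnion, Set.mem_union, Set.mem_iUnion]
    exact Or.inl (Or.inr ⟨b, hb, hc⟩))
  have haA : ∀ j, a j ∈ A := fun j => hTA (by
    simp only [T, Finset.coe_union, Finset.coe_image, Set.mem_union]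
    exact Or.inr ⟨j, by simp, rfl⟩)
  have hAft : Algebra.FiniteType k A := (Subalgebra.fg_iff_finiteType A).1 ⟨T, rfl⟩
  obtain ⟨j0, hj0⟩ : ∃ j, a j ≠ 0 := Function.ne_iff.1 ha
  obtain ⟨φ, hφ⟩ := exists_point (k := k) (A := A) ⟨a j0, haA j0⟩ (fun h => hj0 (congrArg Subtype.val h))
  -- the ring `C0` and its structure over `A[X]`
  let C0 : Subalgebra k C := sub0 β A
  have hAC0 : ∀ c ∈ A, algebraMap κ C c ∈ C0 := fun c hc => Algebra.subset_adjoin (Or.inl ⟨c, hc, rfl⟩)
  have hβC0 : ∀ b, β b ∈ C0 := fun b => Algebra.subset_adjoin (Or.inr ⟨b, rfl⟩)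
  have htC0 : ∀ i, g (X i) ∈ C0 := fun i => hT1 i A (hTA1 i)
  let ρ1 : MvPolynomial (Fin s) A →+* C := (g : MvPolynomial (Fin s) κ →+* C).comp (MvPolynomial.map (algebraMap A κ))
  have hρ1 : ∀ p, ρ1 p ∈ C0 := by
    intro p
    induction p using MvPolynomial.induction_on with
    | C c =>
      have : ρ1 (MvPolynomial.C c) = algebraMap κ C c := by
        simp only [ρ1, RingHom.comp_apply, MvPolynomial.map_C]
        exact g.commutes _
      rw [this]; exact hAC0 c c.2
    | add p q hp hq => rw [map_add]; exact add_mem hp hq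
    | mul_X p i hp =>
      rw [map_mul]
      refine mul_mem hp ?_
      have : ρ1 (X i) = g (X i) := by simp only [ρ1, RingHom.comp_apply, MvPolynomial.map_X]; rfl
      rw [this]; exact htC0 i
  let ρ : MvPolynomial (Fin s) A →+* C0 := ρ1.codRestrict C0 hρ1
  have hρinj : Function.Injective ρ := by
    intro p q hpq
    have h1 : ρ1 p = ρ1 q := congrArg Subtype.val hpq
    exact MvPolynomial.map_injective _ Subtype.val_injective (hginj h1)
  let _ : Algebra (MvPolynomial (Fin s) A) C0 := ρ.toAlgebra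
  have hρalg : algebraMap (MvPolynomial (Fin s) A) C0 = ρ := rfl
  -- integrality
  have hint1 : ∀ b ∈ S, IsIntegral (MvPolynomial (Fin s) A) (⟨β b, hβC0 b⟩ : C0) := by
    intro b hb
    obtain ⟨Q, hQ, _, hQm⟩ := Polynomial.lifts_and_natDegree_eq_and_monic (hT2 b A (hTA2 b hb)) (hPm b)
    refine ⟨Q, hQm, ?_⟩
    apply Subtype.ext
    have h2 : ((Polynomial.eval₂ (algebraMap (MvPolynomial (Fin s) A) C0) (⟨β b, hβC0 b⟩ : C0) Q : C0) : C) =
        Polynomial.eval₂ ρ1 (β b) Q := by
      have := Polynomial.hom_eval₂ Q (algebraMap (MvPolynomial (Fin s) A) C0) (C0.val : C0 →+* C) ⟨β b, hβC0 b⟩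
      exact this
    rw [h2]
    have h3 : Polynomial.eval₂ ρ1 (β b) Q =
        Polynomial.eval₂ (g : MvPolynomial (Fin s) κ →+* C) (β b) (Q.map (MvPolynomial.map (algebraMap A κ))) := by
      rw [Polynomial.eval₂_map]
    rw [h3, hQ]
    exact hP0 b
  have hint2 : ∀ b : B, IsIntegral (MvPolynomial (Fin s) A) (⟨β b, hβC0 b⟩ : C0) := by
    intro b
    have hb : b ∈ Algebra.adjoin k (S : Set B) := by rw [hS]; trivial
    induction hb using Algebra.adjoin_induction with
    | mem y hy => exact hint1 y hy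
    | algebraMap c =>
      have : (⟨β (algebraMap k B c), hβC0 _⟩ : C0) =
          algebraMap (MvPolynomial (Fin s) A) C0 (MvPolynomial.C (algebraMap k A c)) := by
        apply Subtype.ext
        rw [hρalg]
        change β (algebraMap k B c) = ρ1 (MvPolynomial.C (algebraMap k A c))
        simp only [ρ1, RingHom.comp_apply, MvPolynomial.map_C]
        rw [AlgHom.commutes, IsScalarTower.algebraMap_apply k κ C]
        exact (g.commutes _).symm
      rw [this]; exact isIntegral_algebraMap
    | add y z _ _ hy hz =>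
      have : (⟨β (y + z), hβC0 _⟩ : C0) = ⟨β y, hβC0 y⟩ + ⟨β z, hβC0 z⟩ := Subtype.ext (map_add _ _ _)
      rw [this]; exact hy.add hz
    | mul y z _ _ hy hz =>
      have : (⟨β (y * z), hβC0 _⟩ : C0) = ⟨β y, hβC0 y⟩ * ⟨β z, hβC0 z⟩ := Subtype.ext (map_mul _ _ _)
      rw [this]; exact hy.mul hz
  have hint : Algebra.IsIntegral (MvPolynomial (Fin s) A) C0 := by
    refine ⟨fun x => ?_⟩
    obtain ⟨x, hx⟩ := x
    have hx' : x ∈ Algebra.adjoin k ((fun x => algebraMap κ C x) '' (A : Set κ) ∪ Set.range β) := hx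
    induction hx' using Algebra.adjoin_induction with
    | mem y hy =>
      rcases hy with ⟨c, hc, rfl⟩ | ⟨b, rfl⟩
      · have : (⟨algebraMap κ C c, hx⟩ : C0) = algebraMap (MvPolynomial (Fin s) A) C0 (MvPolynomial.C ⟨c, hc⟩) := by
          apply Subtype.ext
          rw [hρalg]
          change algebraMap κ C c = ρ1 (MvPolynomial.C ⟨c, hc⟩)
          simp only [ρ1, RingHom.comp_apply, MvPolynomial.map_C]
          exact (g.commutes _).symm
        have h5 : IsIntegral (MvPolynomial (Fin s) A) (⟨algebraMap κ C c, hx⟩ : C0) := by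
          rw [this]; exact isIntegral_algebraMap
        exact h5
      · exact hint2 b
    | algebraMap c =>
      have : (⟨algebraMap k C c, hx⟩ : C0) = algebraMap (MvPolynomial (Fin s) A) C0 (MvPolynomial.C (algebraMap k A c)) := by
        apply Subtype.ext
        rw [hρalg]
        change algebraMap k C c = ρ1 (MvPolynomial.C (algebraMap k A c))
        simp only [ρ1, RingHom.comp_apply, MvPolynomial.map_C]
        rw [IsScalarTower.algebraMap_apply k κ C]
        exact (g.commutes _).symm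
      rw [this]; exact isIntegral_algebraMap
    | add y z hy' hz' hy hz =>
      have : (⟨y + z, hx⟩ : C0) = ⟨y, hy'⟩ + ⟨z, hz'⟩ := rfl
      rw [this]; exact (hy hy').add (hz hz')
    | mul y z hy' hz' hy hz =>
      have : (⟨y * z, hx⟩ : C0) = ⟨y, hy'⟩ * ⟨z, hz'⟩ := rfl
      rw [this]; exact (hy hy').mul (hz hz')
  -- the prime of `A[X]`
  let ψ : MvPolynomial (Fin s) A →+* MvPolynomial (Fin s) k := MvPolynomial.map (φ : A →+* k)
  have hψp : (RingHom.ker ψ).IsPrime := RingHom.ker_isPrime ψ
  obtain ⟨𝔓, _, h𝔓, hcomap⟩ := Ideal.exists_ideal_over_prime_of_isIntegral (R := MvPolynomial (Fin s) A) (S := C0)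
    (RingHom.ker ψ) ⊥ (by
      intro x hx
      rw [Ideal.mem_comap, Ideal.mem_bot] at hx
      have : x = 0 := hρinj (by rw [map_zero]; exact hx)
      rw [this]; exact zero_mem _)
  let β0 : B →ₐ[k] C0 := β.codRestrict C0 hβC0
  have hAP : ∀ c (hc : c ∈ A), (⟨algebraMap κ C c, hAC0 c hc⟩ : C0) - algebraMap k C0 (φ ⟨c, hc⟩) ∈ 𝔓 := by
    intro c hc
    have h1 : (MvPolynomial.C (⟨c, hc⟩ - algebraMap k A (φ ⟨c, hc⟩)) : MvPolynomial (Fin s) A) ∈ RingHom.ker ψ := by
      rw [RingHom.mem_ker]
      simp only [ψ, MvPolynomial.map_C]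
      rw [show (φ : A →+* k) (⟨c, hc⟩ - algebraMap k A (φ ⟨c, hc⟩)) = 0 by
        rw [map_sub]; change φ _ - φ _ = 0; rw [AlgHom.commutes]; simp]
      exact map_zero _
    rw [← hcomap, Ideal.mem_comap] at h1
    convert h1 using 1
    apply Subtype.ext
    rw [hρalg]
    change algebraMap κ C c - algebraMap k C (φ ⟨c, hc⟩) = ρ1 (MvPolynomial.C (⟨c, hc⟩ - algebraMap k A (φ ⟨c, hc⟩)))
    simp only [ρ1, RingHom.comp_apply, MvPolynomial.map_C]
    have h6 : (g : MvPolynomial (Fin s) κ →+* C) (MvPolynomial.C (algebraMap A κ (⟨c, hc⟩ - algebraMap k A (φ ⟨c, hc⟩)))) =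
        algebraMap κ C (algebraMap A κ (⟨c, hc⟩ - algebraMap k A (φ ⟨c, hc⟩))) := g.commutes _
    rw [h6, map_sub, map_sub, IsScalarTower.algebraMap_apply k κ C]
    rfl
  have hsurj : ∀ x (hx : x ∈ C0), ∃ b : B, (⟨x, hx⟩ : C0) - β0 b ∈ 𝔓 := by
    intro x hx
    have hx' : x ∈ Algebra.adjoin k ((fun x => algebraMap κ C x) '' (A : Set κ) ∪ Set.range β) := hx
    induction hx' using Algebra.adjoin_induction with
    | mem y hy =>
      rcases hy with ⟨c, hc, rfl⟩ | ⟨b, rfl⟩
      · refine ⟨algebraMap k B (φ ⟨c, hc⟩), ?_⟩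
        rw [AlgHom.commutes]
        exact hAP c hc
      · refine ⟨b, ?_⟩
        have : (⟨β b, hx⟩ : C0) - β0 b = 0 := sub_self _
        have h7 : (⟨β b, hx⟩ : C0) - β0 b ∈ 𝔓 := by rw [this]; exact zero_mem _
        exact h7
    | algebraMap c =>
      refine ⟨algebraMap k B c, ?_⟩
      rw [AlgHom.commutes]
      have : (⟨algebraMap k C c, hx⟩ : C0) - algebraMap k C0 c = 0 := sub_self _
      rw [this]; exact zero_mem _
    | add y z hy' hz' hy hz =>
      obtain ⟨b1, h1⟩ := hy hy'
      obtain ⟨b2, h2⟩ := hz hz'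
      refine ⟨b1 + b2, ?_⟩
      have : (⟨y + z, hx⟩ : C0) - β0 (b1 + b2) = ((⟨y, hy'⟩ : C0) - β0 b1) + ((⟨z, hz'⟩ : C0) - β0 b2) := by
        rw [map_add]; change (⟨y, hy'⟩ : C0) + ⟨z, hz'⟩ - _ = _; ring
      rw [this]; exact add_mem h1 h2
    | mul y z hy' hz' hy hz =>
      obtain ⟨b1, h1⟩ := hy hy'
      obtain ⟨b2, h2⟩ := hz hz'
      refine ⟨b1 * b2, ?_⟩
      have : (⟨y * z, hx⟩ : C0) - β0 (b1 * b2) =
          ((⟨y, hy'⟩ : C0) - β0 b1) * ⟨z, hz'⟩ + β0 b1 * ((⟨z, hz'⟩ : C0) - β0 b2) := by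
        rw [map_mul]; change (⟨y, hy'⟩ : C0) * ⟨z, hz'⟩ - _ = _; ring
      rw [this]; exact add_mem (Ideal.mul_mem_right _ _ h1) (Ideal.mul_mem_left _ _ h2)
  have haev : ∀ p : MvPolynomial (Fin s) k, aeval (fun i => (⟨g (X i), htC0 i⟩ : C0)) p =
      algebraMap (MvPolynomial (Fin s) A) C0 (MvPolynomial.map (algebraMap k A) p) := by
    intro p
    rw [hρalg]
    induction p using MvPolynomial.induction_on with
    | C c =>
      rw [MvPolynomial.algHom_C, MvPolynomial.map_C]
      apply Subtype.ext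
      change algebraMap k C c = ρ1 (MvPolynomial.C (algebraMap k A c))
      simp only [ρ1, RingHom.comp_apply, MvPolynomial.map_C]
      rw [IsScalarTower.algebraMap_apply k κ C]
      exact (g.commutes _).symm
    | add p q hp hq => rw [map_add, map_add, map_add, hp, hq]
    | mul_X p i hp =>
      rw [map_mul, map_mul, map_mul, hp, MvPolynomial.aeval_X, MvPolynomial.map_X]
      congr 1
      apply Subtype.ext
      change g (X i) = ρ1 (X i)
      simp only [ρ1, RingHom.comp_apply, MvPolynomial.map_X]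
      rfl
  -- the prime of `B`
  refine ⟨𝔓.comap β0, Ideal.IsPrime.comap _, ?_, fun j => φ ⟨a j, haA j⟩, ?_, ?_⟩
  · choose bt hbt using fun i : Fin s => hsurj (g (X i)) (htC0 i)
    refine ⟨fun i => bt (Fin.castLE hrs i), ?_⟩
    have hind : AlgebraicIndependent k (fun i => Ideal.Quotient.mk (𝔓.comap β0) (bt i)) := by
      rw [algebraicIndependent_iff]
      intro p hp
      have h1 : aeval (fun i => Ideal.Quotient.mk (𝔓.comap β0) (bt i)) p =
          Ideal.Quotient.mk (𝔓.comap β0) (aeval bt p) := by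
        have := (MvPolynomial.comp_aeval_apply bt (Ideal.Quotient.mkₐ k (𝔓.comap β0)) p).symm
        exact this
      rw [h1, Ideal.Quotient.eq_zero_iff_mem, Ideal.mem_comap] at hp
      have h2 : β0 (aeval bt p) = aeval (fun i => β0 (bt i)) p :=
        MvPolynomial.comp_aeval_apply bt β0 p
      rw [h2] at hp
      -- congruence modulo `𝔓`
      have h3 : (Ideal.Quotient.mkₐ k 𝔓) (aeval (fun i => β0 (bt i)) p) =
          (Ideal.Quotient.mkₐ k 𝔓) (aeval (fun i => (⟨g (X i), htC0 i⟩ : C0)) p) := by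
        rw [MvPolynomial.comp_aeval_apply, MvPolynomial.comp_aeval_apply]
        congr 2
        funext i
        exact (Ideal.Quotient.eq.2 (hbt i)).symm
      have h4 : aeval (fun i => (⟨g (X i), htC0 i⟩ : C0)) p ∈ 𝔓 := by
        rw [← Ideal.Quotient.eq_zero_iff_mem]
        have h5 : (Ideal.Quotient.mkₐ k 𝔓) (aeval (fun i => β0 (bt i)) p) = 0 := Ideal.Quotient.eq_zero_iff_mem.2 hp
        rw [h3] at h5
        exact h5
      rw [haev, ← Ideal.mem_comap, hcomap, RingHom.mem_ker] at h4
      have h6 : ψ (MvPolynomial.map (algebraMap k A) p) = p := by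
        simp only [ψ]
        rw [MvPolynomial.map_map]
        have : (φ : A →+* k).comp (algebraMap k A) = RingHom.id k := by
          ext c; exact φ.commutes c
        rw [this, MvPolynomial.map_id]
      rw [h6] at h4
      exact h4
    exact hind.comp _ (Fin.castLE_injective hrs)
  · intro h
    exact hφ (congrFun h j0)
  · intro i
    rw [Ideal.mem_comap, map_sum]
    have h1 : ∑ j, β0 (φ ⟨a j, haA j⟩ • w i j) =
        ∑ j, (algebraMap k C0 (φ ⟨a j, haA j⟩) - ⟨algebraMap κ C (a j), hAC0 _ (haA j)⟩) * β0 (w i j) := by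
      have h2 : ∑ j, (⟨algebraMap κ C (a j), hAC0 _ (haA j)⟩ : C0) * β0 (w i j) = 0 := by
        apply Subtype.ext
        have h3 := hw i
        simp only [Algebra.smul_def] at h3
        have h4 : ((∑ j, (⟨algebraMap κ C (a j), hAC0 _ (haA j)⟩ : C0) * β0 (w i j) : C0) : C) =
            ∑ j, algebraMap κ C (a j) * β (w i j) := by
          rw [AddSubmonoidClass.coe_finsetSum]
          rfl
        rw [h4, h3]
        rfl
      simp only [sub_mul, Finset.sum_sub_distrib]
      rw [h2, sub_zero]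
      refine Finset.sum_congr rfl fun j _ => ?_
      rw [map_smul, Algebra.smul_def]
    rw [h1]
    refine sum_mem fun j _ => Ideal.mul_mem_right _ _ ?_
    rw [← neg_sub]
    exact neg_mem (hAP _ (haA j))

end Pool.Agent.H20.TU
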