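import Pool.Agent.H20.TU.INF

/-!
# THEOREM U (MP_e49dc9_ag): the trace bound

`K` is a finite extension of the field `FE k t` of rational functions.  `AtInf p`: the place `p` of `K` is over the
valuation at infinity.
* `int_of_inf`: an element which is in all valuation rings at infinity is integral over the valuation ring at infinity.
* `exists_inf`: the poles at infinity of an element are bounded.
* `exists_tr`: the trace of an element which is integral over the polynomials with poles of order at most `N` at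
  infinity is a polynomial of degree at most `N`.
* `growth`: the dimension of the spaces of such elements is at most `C (N + 1) ^ (t + 1)`.
-/

set_option autoImplicit false

open MvPolynomial WithZero Pool.Agent.H54.RV

namespace Pool.Agent.H20.TU

theorem finrank_restrictDegree_le (k : Type) [Field k] (s n : ℕ) :
    Module.finrank k (restrictDegree (Fin s) k n) ≤ (n + 1) ^ s := by
  have h0 : Module.finrank k (restrictDegree (Fin s) k n) = Nat.card {m : Fin s →₀ ℕ | ∀ i, m i ≤ n} :=
    Module.finrank_eq_nat_card_basis (basisRestrictSupport k {m : Fin s →₀ ℕ | ∀ i, m i ≤ n})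
  rw [h0]
  have h1 : Nat.card (Fin s → Fin (n + 1)) = (n + 1) ^ s := by
    rw [Nat.card_eq_fintype_card, Fintype.card_fun, Fintype.card_fin, Fintype.card_fin]
  rw [← h1]
  refine Nat.card_le_card_of_injective
    (fun m : {m : Fin s →₀ ℕ | ∀ i, m i ≤ n} => fun i => (⟨m.1 i, Nat.lt_succ_of_le (m.2 i)⟩ : Fin (n + 1))) ?_
  intro a b hab
  apply Subtype.ext
  ext i
  have := congrFun hab i
  simpa using this

theorem finrank_restrictTotalDegree_le (k : Type) [Field k] (s n : ℕ) :
    Module.finrank k (restrictTotalDegree (Fin s) k n) ≤ (n + 1) ^ s :=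
  (Submodule.finrank_mono (restrictTotalDegree_le_restrictDegree (Fin s) k n)).trans
    (finrank_restrictDegree_le k s n)

section

variable {k K : Type} [Field k] [Field K] [Algebra k K] {t : ℕ} [Algebra (FE k t) K] [IsScalarTower k (FE k t) K]

/-- the places over the valuation at infinity -/
def AtInf (t : ℕ) [Algebra (FE k t) K] (p : Place k K) : Prop := ∀ x ∈ OI k t, algebraMap (FE k t) K x ∈ p.R

/-- `K` as an algebra over the valuation ring at infinity -/
noncomputable instance (priority := 50) oiAlg : Algebra (OI k t) K :=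
  ((algebraMap (FE k t) K).comp (algebraMap (OI k t) (FE k t))).toAlgebra

instance (priority := 50) oiTower : IsScalarTower (OI k t) (FE k t) K := IsScalarTower.of_algebraMap_eq fun _ => rfl

theorem alg_mem_OI (c : k) : algebraMap k (FE k t) c ∈ OI k t := by
  rw [mem_OI, IsScalarTower.algebraMap_apply k (MvPolynomial (Fin (t + 1)) k) (FE k t)]
  by_cases hc : c = 0
  · rw [hc, map_zero, map_zero, map_zero]
    exact zero_le_one
  · have h1 : (algebraMap k (MvPolynomial (Fin (t + 1)) k) c) ≠ 0 := by
      rw [MvPolynomial.algebraMap_eq, ne_eq, MvPolynomial.C_eq_zero]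
      exact hc
    rw [degE_poly k t h1, MvPolynomial.algebraMap_eq, MvPolynomial.totalDegree_C]
    exact le_of_eq rfl

omit [IsScalarTower k (FE k t) K] in
/-- an integral element is in the valuation rings at infinity -/
theorem inf_of_int (b : K) (hb : IsIntegral (OI k t) b) (p : Place k K) (hp : AtInf t p) : b ∈ p.R := by
  obtain ⟨P, hP, hP0⟩ := hb
  let φ : OI k t →+* p.R :=
    { toFun := fun x => ⟨algebraMap (FE k t) K x, hp x x.2⟩
      map_one' := Subtype.ext (map_one _)
      map_mul' := fun _ _ => Subtype.ext (map_mul _ _ _)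
      map_zero' := Subtype.ext (map_zero _)
      map_add' := fun _ _ => Subtype.ext (map_add _ _ _) }
  have h1 : IsIntegral p.R b := by
    refine ⟨P.map φ, hP.map φ, ?_⟩
    rw [Polynomial.eval₂_map]
    exact hP0
  obtain ⟨y, hy⟩ := IsIntegrallyClosed.isIntegral_iff.1 h1
  rw [← hy]
  exact y.2

/-- an element which is in all valuation rings at infinity is integral -/
theorem int_of_inf [FiniteDimensional (FE k t) K] [Algebra.IsSeparable (FE k t) K] (b : K)
    (hb : ∀ p : Place k K, AtInf t p → b ∈ p.R) : IsIntegral (OI k t) b := by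
  have hdvr := OI_dvr k t
  let B := integralClosure (OI k t) K
  have hDed : IsDedekindDomain B := integralClosure.isDedekindDomain (OI k t) (FE k t) K
  have hFr : IsFractionRing B K := integralClosure.isFractionRing_of_finite_extension (FE k t) K
  let algkO : Algebra k (OI k t) := ((algebraMap k (FE k t)).codRestrict (OI k t).toSubring alg_mem_OI).toAlgebra
  have : IsScalarTower k (OI k t) (FE k t) := IsScalarTower.of_algebraMap_eq fun _ => rfl
  have : IsScalarTower k (OI k t) K := IsScalarTower.of_algebraMap_eq fun c => by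
    rw [IsScalarTower.algebraMap_apply k (FE k t) K]
    rfl
  let algkB : Algebra k B := ((algebraMap (OI k t) B).comp (algebraMap k (OI k t))).toAlgebra
  have : IsScalarTower k B K := IsScalarTower.of_algebraMap_eq fun c => by
    rw [IsScalarTower.algebraMap_apply k (OI k t) K]
    rfl
  have h1 : ∀ P : IsDedekindDomain.HeightOneSpectrum B, P.valuation K b ≤ 1 := by
    intro P
    have h2 : AtInf t (plP k (κ := K) P) := by
      intro x hx
      have h3 : algebraMap B K (algebraMap (OI k t) B ⟨x, hx⟩) = algebraMap (FE k t) K x := rfl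
      rw [← h3, plP_R, Valuation.mem_valuationSubring_iff]
      exact P.valuation_le_one _
    have h4 := hb _ h2
    rw [plP_R, Valuation.mem_valuationSubring_iff] at h4
    exact h4
  obtain ⟨c, hc⟩ := IsDedekindDomain.HeightOneSpectrum.mem_integers_of_valuation_le_one K b h1
  rw [← hc]
  exact c.2

omit [IsScalarTower k (FE k t) K] in
/-- the poles at infinity of an element are bounded -/
theorem exists_inf [FiniteDimensional (FE k t) K] (b : K) : ∃ M : ℕ, ∀ p : Place k K, AtInf t p →
    b * (algebraMap (FE k t) K (x0 k t))⁻¹ ^ M ∈ p.R := by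
  have hdvr := OI_dvr k t
  have h1 : IsAlgebraic (OI k t) b := by
    have h2 : Algebra.IsAlgebraic (FE k t) K := Algebra.IsAlgebraic.of_finite (FE k t) K
    exact (IsFractionRing.isAlgebraic_iff (OI k t) (FE k t) K).2 (h2.isAlgebraic b)
  obtain ⟨a, ha, hab⟩ := h1.exists_integral_multiple
  have ha0 : (a : FE k t) ≠ 0 := fun h => ha (Subtype.ext h)
  have hv : degE k t (a : FE k t) ≠ 0 := (Valuation.ne_zero_iff _).2 ha0
  have hle : degE k t (a : FE k t) ≤ 1 := a.2
  obtain ⟨n, hn⟩ : ∃ n : ℤ, degE k t (a : FE k t) = WithZero.exp n := ⟨_, (WithZero.exp_log hv).symm⟩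
  have hn0 : n ≤ 0 := by
    rw [hn, ← WithZero.exp_zero] at hle
    exact WithZero.exp_le_exp.1 hle
  obtain ⟨m, hm⟩ := Int.eq_ofNat_of_zero_le (show (0 : ℤ) ≤ -n by omega)
  have hmem : (a : FE k t)⁻¹ * ((x0 k t)⁻¹) ^ m ∈ OI k t := by
    rw [mem_OI, map_mul, map_inv₀, hn, map_pow, degE_x0_inv, ← WithZero.exp_nsmul, ← WithZero.exp_neg,
      ← WithZero.exp_add, ← WithZero.exp_zero]
    refine WithZero.exp_le_exp.2 ?_
    rw [nsmul_eq_mul]
    omega
  refine ⟨m, fun p hp => ?_⟩
  have h3 := inf_of_int _ hab p hp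
  have h4 := hp _ hmem
  have h5 : b * (algebraMap (FE k t) K (x0 k t))⁻¹ ^ m =
      (a • b) * algebraMap (FE k t) K ((a : FE k t)⁻¹ * ((x0 k t)⁻¹) ^ m) := by
    have h6 : a • b = algebraMap (FE k t) K (a : FE k t) * b := Algebra.smul_def a b
    have h7 : algebraMap (FE k t) K (a : FE k t) ≠ 0 := by
      rw [ne_eq, map_eq_zero]
      exact ha0
    rw [h6, map_mul, map_pow, map_inv₀, map_inv₀]
    field_simp
  rw [h5]
  exact p.R.mul_mem _ _ h3 h4

variable [Algebra (MvPolynomial (Fin (t + 1)) k) K] [IsScalarTower (MvPolynomial (Fin (t + 1)) k) (FE k t) K]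

/-- the trace of an integral element with bounded poles at infinity -/
theorem exists_tr [FiniteDimensional (FE k t) K] [Algebra.IsSeparable (FE k t) K] (b : K)
    (hb : IsIntegral (MvPolynomial (Fin (t + 1)) k) b) (N : ℕ)
    (hN : ∀ p : Place k K, AtInf t p → b * (algebraMap (FE k t) K (x0 k t))⁻¹ ^ N ∈ p.R) :
    ∃ a : MvPolynomial (Fin (t + 1)) k, a.totalDegree ≤ N ∧
      Algebra.trace (FE k t) K b = algebraMap (MvPolynomial (Fin (t + 1)) k) (FE k t) a := by
  have hdvr := OI_dvr k t
  have h1 : IsIntegral (MvPolynomial (Fin (t + 1)) k) (Algebra.trace (FE k t) K b) := Algebra.isIntegral_trace hb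
  obtain ⟨a, ha⟩ := IsIntegrallyClosed.isIntegral_iff.1 h1
  refine ⟨a, ?_, ha.symm⟩
  have h2 := int_of_inf _ hN
  have h3 : IsIntegral (OI k t) (Algebra.trace (FE k t) K (b * (algebraMap (FE k t) K (x0 k t))⁻¹ ^ N)) :=
    Algebra.isIntegral_trace h2
  obtain ⟨c, hc⟩ := IsIntegrallyClosed.isIntegral_iff.1 h3
  by_cases ha0 : a = 0
  · rw [ha0, totalDegree_zero]
    exact Nat.zero_le _
  have h4 : Algebra.trace (FE k t) K (b * (algebraMap (FE k t) K (x0 k t))⁻¹ ^ N) =
      ((x0 k t)⁻¹) ^ N * algebraMap (MvPolynomial (Fin (t + 1)) k) (FE k t) a := by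
    have h5 : b * (algebraMap (FE k t) K (x0 k t))⁻¹ ^ N = (((x0 k t)⁻¹) ^ N) • b := by
      rw [Algebra.smul_def, map_pow, map_inv₀, mul_comm]
    rw [h5, map_smul, smul_eq_mul, ha]
  have h6 : degE k t (((x0 k t)⁻¹) ^ N * algebraMap (MvPolynomial (Fin (t + 1)) k) (FE k t) a) ≤ 1 := by
    rw [← h4, ← hc]
    exact c.2
  rw [map_mul, map_pow, degE_x0_inv, degE_poly k t ha0, ← WithZero.exp_nsmul, ← WithZero.exp_add,
    ← WithZero.exp_zero, WithZero.exp_le_exp, nsmul_eq_mul] at h6
  omega

/-- growth of the spaces of integral elements with bounded poles at infinity -/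
theorem growth [CharZero k] [FiniteDimensional (FE k t) K] : ∃ C : ℕ, ∀ (N : ℕ) (V : Submodule k K),
    (∀ b ∈ V, IsIntegral (MvPolynomial (Fin (t + 1)) k) b ∧
      ∀ p : Place k K, AtInf t p → b * (algebraMap (FE k t) K (x0 k t))⁻¹ ^ N ∈ p.R) →
    Module.Finite k V ∧ Module.finrank k V ≤ C * (N + 1) ^ (t + 1) := by
  classical
  have : CharZero (FE k t) := charZero_of_injective_algebraMap (algebraMap k (FE k t)).injective
  obtain ⟨s, w, hw⟩ := FiniteDimensional.exists_is_basis_integral (MvPolynomial (Fin (t + 1)) k) (FE k t) K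
  choose M hM using fun i => exists_inf (k := k) (t := t) (w i)
  obtain ⟨M', hM'⟩ : ∃ M' : ℕ, ∀ i, M i ≤ M' := ⟨∑ i, M i, fun i =>
    Finset.single_le_sum (f := M) (fun _ _ => Nat.zero_le _) (Finset.mem_univ i)⟩
  have hinf : ∀ p : Place k K, AtInf t p → (algebraMap (FE k t) K (x0 k t))⁻¹ ∈ p.R := by
    intro p hp
    rw [← map_inv₀]
    exact hp _ (x0_inv_mem k t)
  refine ⟨s.card * (M' + 1) ^ (t + 1), fun N V hV => ?_⟩
  -- the space of polynomials of degree at most `N + M'`, in the field of fractions
  let W : Submodule k (FE k t) := (restrictTotalDegree (Fin (t + 1)) k (N + M')).map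
    (IsScalarTower.toAlgHom k (MvPolynomial (Fin (t + 1)) k) (FE k t)).toLinearMap
  have hWfin : Module.Finite k W := Module.Finite.map _ _
  have hWdim : Module.finrank k W ≤ (N + M' + 1) ^ (t + 1) :=
    (Submodule.finrank_map_le _ _).trans (finrank_restrictTotalDegree_le k (t + 1) (N + M'))
  have hmem : ∀ b ∈ V, ∀ i, Algebra.trace (FE k t) K (b * w i) ∈ W := by
    intro b hb i
    obtain ⟨h1, h2⟩ := hV b hb
    obtain ⟨a, ha, hae⟩ := exists_tr (k := k) (t := t) (b * w i) (h1.mul (hw i)) (N + M') (by
      intro p hp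
      have h3 := p.R.mul_mem _ _ (h2 p hp) (p.R.mul_mem _ _ (hM i p hp)
        (pow_mem (hinf p hp) (M' - M i)))
      convert h3 using 1
      have h4 : N + M' = N + (M i + (M' - M i)) := by have := hM' i; omega
      rw [h4, pow_add, pow_add]
      ring)
    rw [hae]
    exact ⟨a, (mem_restrictTotalDegree _ _ _).2 ha, rfl⟩
  let φ : V →ₗ[k] (s → W) := LinearMap.pi fun i => LinearMap.codRestrict W
    (((Algebra.trace (FE k t) K).restrictScalars k).comp ((LinearMap.mulRight k (w i)).comp V.subtype))
    (fun b => hmem b b.2 i)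
  have hφ : Function.Injective φ := by
    rw [← LinearMap.ker_eq_bot, LinearMap.ker_eq_bot']
    intro b hb
    have h1 : ∀ i, Algebra.trace (FE k t) K ((b : K) * w i) = 0 := fun i =>
      congrArg Subtype.val (congrFun hb i)
    have h2 : (Algebra.traceForm (FE k t) K) (b : K) = 0 := by
      refine w.ext fun i => ?_
      rw [LinearMap.zero_apply]
      exact h1 i
    have h3 := (traceForm_nondegenerate (FE k t) K).1 (b : K) (fun y => by rw [h2]; rfl)
    exact Subtype.ext h3
  refine ⟨Module.Finite.of_injective φ hφ, ?_⟩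
  calc Module.finrank k V ≤ Module.finrank k (s → W) := LinearMap.finrank_le_finrank_of_injective hφ
    _ = s.card * Module.finrank k W := by
      rw [Module.finrank_pi_fintype]
      simp
    _ ≤ s.card * (N + M' + 1) ^ (t + 1) := Nat.mul_le_mul_left _ hWdim
    _ ≤ s.card * ((M' + 1) * (N + 1)) ^ (t + 1) := by
      refine Nat.mul_le_mul_left _ (Nat.pow_le_pow_left ?_ _)
      nlinarith
    _ = s.card * (M' + 1) ^ (t + 1) * (N + 1) ^ (t + 1) := by
      rw [mul_pow]; ring

end

end Pool.Agent.H20.TU
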